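import Pool.Agent.Y69.TK.Emb2
import Pool.Agent.H927R2.RD.T16

/-!
# Complex numbers as images of `p`-adic integers
-/

set_option autoImplicit false

namespace Pool.Agent.Q170.GP

open Pool.Agent.H927R2.RD (t16_extend)

theorem card_padic (p : ℕ) [hp : Fact p.Prime] : Cardinal.mk ℚ_[p] ≤ Cardinal.continuum := by
  have h4 : Cardinal.mk ℚ_[p] ≤ Cardinal.mk (CauSeq ℚ (padicNorm p)) :=
    Cardinal.mk_le_of_surjective (f := fun x => (Quotient.mk _ x : ℚ_[p])) (by
      intro y
      exact Quotient.exists_rep y)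
  refine h4.trans ?_
  have h5 : Cardinal.mk (CauSeq ℚ (padicNorm p)) ≤ Cardinal.mk (ℕ → ℚ) :=
    Cardinal.mk_le_of_injective (f := fun x => (x : ℕ → ℚ)) (by
      intro x y hxy
      exact Subtype.ext hxy)
  refine h5.trans ?_
  simp

theorem countable_fraction {A : Type} [CommRing A] [IsDomain A] [Algebra.FiniteType ℤ A] :
    Countable (FractionRing A) := by
  have h1 : Countable A := by
    obtain ⟨n, f, hf⟩ := Algebra.FiniteType.iff_quotient_mvPolynomial''.1
      (inferInstance : Algebra.FiniteType ℤ A)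
    have h0 : Countable (MvPolynomial (Fin n) ℤ) := by
      rw [← Cardinal.mk_le_aleph0_iff]
      refine (MvPolynomial.cardinalMk_le_max (σ := Fin n) (R := ℤ)).trans ?_
      simp
    exact hf.countable
  have h2 : Function.Surjective fun q : A × nonZeroDivisors A =>
      IsLocalization.mk' (FractionRing A) q.1 q.2 := by
    intro z
    obtain ⟨a, b, h⟩ := IsLocalization.exists_mk'_eq (nonZeroDivisors A) z
    exact ⟨(a, b), h⟩
  exact h2.countable

/-- **Finitely many complex numbers are images of `p`-adic integers** under an embedding of `ℚ_p` into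
`ℂ`, for arbitrarily large primes `p`. -/
theorem exists_place (s : Finset ℂ) (B : ℕ) : ∃ (p : ℕ) (_ : Fact p.Prime), B < p ∧
    ∃ θ : ℚ_[p] →+* ℂ, ∀ z ∈ s, ∃ y : ℤ_[p], θ (y : ℚ_[p]) = z := by
  let A : Subalgebra ℤ ℂ := Algebra.adjoin ℤ (s : Set ℂ)
  have hA : Algebra.FiniteType ℤ A :=
    (Subalgebra.fg_iff_finiteType A).1 ⟨s, rfl⟩
  obtain ⟨p, hp, hB, -, ψ, hψ⟩ := Pool.Agent.Y69.TK.Emb.exists_embedding (A := A) 1 B one_pos
  have hcoe : Function.Injective ((PadicInt.Coe.ringHom (p := p)).comp ψ) :=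
    Subtype.coe_injective.comp hψ
  let χ : FractionRing A →+* ℚ_[p] := IsFractionRing.lift hcoe
  let ω : FractionRing A →+* ℂ := IsFractionRing.lift
    (show Function.Injective (A.val : A →+* ℂ) from Subtype.val_injective)
  let _ : Algebra (FractionRing A) ℚ_[p] := χ.toAlgebra
  let _ : Algebra (FractionRing A) ℂ := ω.toAlgebra
  have hc : Countable (FractionRing A) := countable_fraction
  obtain ⟨θ⟩ := t16_extend (L := FractionRing A) (K := ℚ_[p]) (M := ℂ)
    (Cardinal.mk_le_aleph0_iff.2 hc) (by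
      rw [Cardinal.mk_complex]
      exact Cardinal.aleph0_lt_continuum) (by
      rw [Cardinal.mk_complex]
      exact card_padic p)
  refine ⟨p, hp, hB, θ.toRingHom, fun z hz => ?_⟩
  have hzA : z ∈ A := Algebra.subset_adjoin hz
  refine ⟨ψ ⟨z, hzA⟩, ?_⟩
  have h1 : χ (algebraMap A (FractionRing A) ⟨z, hzA⟩) = ((ψ ⟨z, hzA⟩ : ℤ_[p]) : ℚ_[p]) :=
    IsFractionRing.lift_algebraMap hcoe _
  have h2 : ω (algebraMap A (FractionRing A) ⟨z, hzA⟩) = z :=
    IsFractionRing.lift_algebraMap (show Function.Injective (A.val : A →+* ℂ) from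
      Subtype.val_injective) _
  have h3 : θ (χ (algebraMap A (FractionRing A) ⟨z, hzA⟩)) =
      ω (algebraMap A (FractionRing A) ⟨z, hzA⟩) := θ.commutes _
  rw [h1, h2] at h3
  exact h3

end Pool.Agent.Q170.GP
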