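import Pool.Agent.Q170.GP.Gap
import Pool.Agent.Q170.GP.Emb
import Pool.Agent.H936R2.Crit

/-!
# Endomorphisms of projective space
-/

set_option autoImplicit false

open MvPolynomial Filter Topology

namespace Pool.Agent.Q170.GP

open Pool.Agent.H936R2 (pt pt_map eval_scale iterate_scale)

/-- The coefficients of a polynomial. -/
noncomputable def coefs {ι : Type} (P : MvPolynomial ι ℂ) : Finset ℂ := by
  classical exact P.support.image fun κ => coeff κ P

theorem exists_lift_poly {ι R : Type} [CommRing R] (Θ : R →+* ℂ) (P : MvPolynomial ι ℂ)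
    (h : ∀ z ∈ coefs P, ∃ y, Θ y = z) : ∃ Q : MvPolynomial ι R, map Θ Q = P := by
  classical
  have h1 : ∀ κ, ∃ y, Θ y = coeff κ P := by
    intro κ
    by_cases hκ : κ ∈ P.support
    · exact h _ (by
        unfold coefs
        exact Finset.mem_image_of_mem _ hκ)
    · exact ⟨0, by rw [map_zero, notMem_support_iff.1 hκ]⟩
  choose y hy using h1
  refine ⟨∑ κ ∈ P.support, monomial κ (y κ), ?_⟩
  rw [map_sum]
  simp only [map_monomial, hy]
  exact (as_sum P).symm

theorem eval_theta {ι R : Type} [CommRing R] (Θ : R →+* ℂ) (P : MvPolynomial ι R) (x : ι → R) :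
    eval (fun i => Θ (x i)) (map Θ P) = Θ (eval x P) := by
  rw [eval_map]
  have h := eval₂_comp_left Θ (RingHom.id _) x P
  rw [RingHom.comp_id] at h
  exact h.symm

/-- Nullstellensatz. -/
theorem exists_power {ι : Type} [Finite ι] (T : Set (MvPolynomial ι ℂ)) (P : MvPolynomial ι ℂ)
    (h : ∀ x : ι → ℂ, (∀ g ∈ T, eval x g = 0) → eval x P = 0) :
    ∃ e : ℕ, P ^ e ∈ Ideal.span T := by
  have h1 : P ∈ vanishingIdeal ℂ (zeroLocus ℂ (Ideal.span T)) := by
    intro x hx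
    change eval x P = 0
    apply h
    intro g hg
    exact hx g (Ideal.subset_span hg)
  rw [vanishingIdeal_zeroLocus_eq_radical] at h1
  exact h1

/-- A finite subset with the same zeros. -/
theorem exists_finite_sub {ι : Type} [Finite ι] (S : Set (MvPolynomial ι ℂ)) :
    ∃ S' : Finset (MvPolynomial ι ℂ), ↑S' ⊆ S ∧
      ∀ x : ι → ℂ, (∀ g ∈ S', eval x g = 0) → ∀ g ∈ S, eval x g = 0 := by
  obtain ⟨S', h1, h2⟩ := (Submodule.fg_span_iff_fg_span_finset_subset S).1
    ((isNoetherianRing_iff_ideal_fg _).1 inferInstance (Ideal.span S))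
  refine ⟨S', h1, fun x hx g hg => ?_⟩
  have h3 : g ∈ Submodule.span (MvPolynomial ι ℂ) (S' : Set (MvPolynomial ι ℂ)) := by
    rw [← h2]
    exact Submodule.subset_span hg
  have h4 : Submodule.span (MvPolynomial ι ℂ) (S' : Set (MvPolynomial ι ℂ)) ≤
      RingHom.ker (eval x) := Submodule.span_le.2 fun q hq => hx q hq
  exact h4 h3

section place

variable {p : ℕ} [hp : Fact p.Prime]

/-- The ring homomorphism from the `p`-adic integers. -/
noncomputable def tht (θ : ℚ_[p] →+* ℂ) : ℤ_[p] →+* ℂ := θ.comp PadicInt.Coe.ringHom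

theorem tht_injective (θ : ℚ_[p] →+* ℂ) : Function.Injective (tht θ) :=
  θ.injective.comp Subtype.coe_injective

/-- Primitive vectors. -/
def Prim (p : ℕ) [Fact p.Prime] (ι : Type) : Set (ι → ℤ_[p]) := {x | ∃ i, IsUnit (x i)}

theorem isClosed_prim {ι : Type} [Finite ι] : IsClosed (Prim p ι) := by
  rw [← isOpen_compl_iff]
  have h : (Prim p ι)ᶜ = ⋂ i, {x : ι → ℤ_[p] | ‖x i‖ < 1} := by
    ext x
    simp only [Prim, Set.mem_compl_iff, Set.mem_ofPred_eq, not_exists, Set.mem_iInter]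
    refine forall_congr' fun i => ?_
    rw [PadicInt.isUnit_iff]
    exact ⟨fun h => lt_of_le_of_ne (PadicInt.norm_le_one _) h, fun h => ne_of_lt h⟩
  rw [h]
  exact isOpen_iInter_of_finite fun i => isOpen_lt ((continuous_apply i).norm) continuous_const

/-- Scaling to a primitive vector. -/
theorem exists_prim {N : ℕ} (y : Fin (N + 1) → ℚ_[p]) (hy : y ≠ 0) :
    ∃ (c : ℚ_[p]) (x : Fin (N + 1) → ℤ_[p]), c ≠ 0 ∧ x ∈ Prim p (Fin (N + 1)) ∧
      ∀ i, y i = c * (x i : ℚ_[p]) := by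
  obtain ⟨i0, -, hmax⟩ := Finset.exists_max_image (Finset.univ : Finset (Fin (N + 1)))
    (fun i => ‖y i‖) ⟨0, Finset.mem_univ _⟩
  have hi0 : y i0 ≠ 0 := by
    intro h0
    apply hy
    funext i
    have h1 := hmax i (Finset.mem_univ i)
    rw [h0, norm_zero] at h1
    exact norm_le_zero_iff.1 h1
  have hn0 : 0 < ‖y i0‖ := norm_pos_iff.2 hi0
  have hle : ∀ i, ‖y i / y i0‖ ≤ 1 := fun i => by
    rw [norm_div, div_le_one hn0]
    exact hmax i (Finset.mem_univ i)
  obtain ⟨x, hx⟩ : ∃ x : Fin (N + 1) → ℤ_[p], ∀ i, (x i : ℚ_[p]) = y i / y i0 :=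
    ⟨fun i => ⟨y i / y i0, hle i⟩, fun i => rfl⟩
  refine ⟨y i0, x, hi0, ⟨i0, ?_⟩, fun i => ?_⟩
  · rw [PadicInt.isUnit_iff, PadicInt.norm_def, hx, div_self hi0, norm_one]
  · rw [hx]
    field_simp

end place

/-- Certificates for a polynomial in an ideal. -/
theorem exists_cert {ι : Type} {n : ℕ} (F : Fin n → MvPolynomial ι ℂ) (P : MvPolynomial ι ℂ)
    (h : P ∈ Ideal.span (Set.range F)) : ∃ A : Fin n → MvPolynomial ι ℂ, P = ∑ j, A j * F j := by
  rw [Ideal.mem_span_range_iff_exists_fun] at h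
  obtain ⟨A, hA⟩ := h
  exact ⟨A, hA.symm⟩

/-- The data of an endomorphism of projective space modulo a large prime number. -/
theorem exists_model {N : ℕ} (F : Fin (N + 1) → MvPolynomial (Fin (N + 1)) ℂ)
    (hF0 : ∀ x : Fin (N + 1) → ℂ, (∀ i, eval x (F i) = 0) → x = 0)
    (T : Finset (MvPolynomial (Fin (N + 1)) ℂ)) (s : Finset ℂ) (B : ℕ) :
    ∃ (p : ℕ) (_ : Fact p.Prime), B < p ∧ ∃ (θ : ℚ_[p] →+* ℂ)
      (Fp : Fin (N + 1) → MvPolynomial (Fin (N + 1)) ℤ_[p]), (∀ i, map (tht θ) (Fp i) = F i) ∧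
      (∀ z ∈ s, ∃ y : ℤ_[p], tht θ y = z) ∧
      (∀ g ∈ T, ∃ h : MvPolynomial (Fin (N + 1)) ℤ_[p], map (tht θ) h = g) ∧
      ∀ x ∈ Prim p (Fin (N + 1)), pt Fp x ∈ Prim p (Fin (N + 1)) := by
  classical
  have hcert : ∀ i : Fin (N + 1), ∃ (e : ℕ) (A : Fin (N + 1) → MvPolynomial (Fin (N + 1)) ℂ),
      (X i : MvPolynomial (Fin (N + 1)) ℂ) ^ e = ∑ j, A j * F j := by
    intro i
    obtain ⟨e, he⟩ := exists_power (Set.range F) (X i) (by
      intro x hx
      rw [eval_X, hF0 x fun j => hx _ ⟨j, rfl⟩]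
      rfl)
    obtain ⟨A, hA⟩ := exists_cert F _ he
    exact ⟨e, A, hA⟩
  choose e A hA using hcert
  set s' : Finset ℂ := s ∪ (Finset.univ.biUnion fun i => coefs (F i)) ∪
    (Finset.univ.biUnion fun q : Fin (N + 1) × Fin (N + 1) => coefs (A q.1 q.2)) ∪
    (T.biUnion fun g => coefs g) with hs'
  obtain ⟨p, hp, hB, θ, hθ⟩ := exists_place s' B
  have hθ' : ∀ z ∈ s', ∃ y : ℤ_[p], tht θ y = z := hθ
  have hFc : ∀ i, ∃ Q : MvPolynomial (Fin (N + 1)) ℤ_[p], map (tht θ) Q = F i := fun i =>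
    exists_lift_poly (tht θ) _ fun z hz => hθ' z (by
      simp only [hs', Finset.mem_union, Finset.mem_biUnion]
      exact Or.inl (Or.inl (Or.inr ⟨i, Finset.mem_univ _, hz⟩)))
  choose Fp hFp using hFc
  have hAc : ∀ i j, ∃ Q : MvPolynomial (Fin (N + 1)) ℤ_[p], map (tht θ) Q = A i j := fun i j =>
    exists_lift_poly (tht θ) _ fun z hz => hθ' z (by
      simp only [hs', Finset.mem_union, Finset.mem_biUnion]
      exact Or.inl (Or.inr ⟨(i, j), Finset.mem_univ _, hz⟩))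
  choose Ap hAp using hAc
  refine ⟨p, hp, hB, θ, Fp, hFp, fun z hz => hθ' z (by
      simp only [hs', Finset.mem_union]
      exact Or.inl (Or.inl (Or.inl hz))), fun g hg => ?_, ?_⟩
  · exact exists_lift_poly (tht θ) _ fun z hz => hθ' z (by
      simp only [hs', Finset.mem_union, Finset.mem_biUnion]
      exact Or.inr ⟨g, hg, hz⟩)
  · rintro x ⟨i, hi⟩
    have h1 : (X i : MvPolynomial (Fin (N + 1)) ℤ_[p]) ^ e i = ∑ j, Ap i j * Fp j := by
      apply map_injective (tht θ) (tht_injective θ)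
      rw [map_pow, map_X, hA i, map_sum]
      refine Finset.sum_congr rfl fun j _ => ?_
      rw [map_mul, hAp, hFp]
    have h2 := congrArg (eval x) h1
    rw [map_pow, eval_X, map_sum] at h2
    by_contra hcon
    have h3 : ∀ j, eval x (Fp j) ∈ IsLocalRing.maximalIdeal ℤ_[p] := by
      intro j
      rw [IsLocalRing.mem_maximalIdeal]
      intro hj
      exact hcon ⟨j, hj⟩
    have h4 : x i ^ e i ∈ IsLocalRing.maximalIdeal ℤ_[p] := by
      rw [h2]
      exact Ideal.sum_mem _ fun j _ => by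
        rw [eval_mul]
        exact Ideal.mul_mem_left _ _ (h3 j)
    rw [IsLocalRing.mem_maximalIdeal] at h4
    exact h4 (hi.pow _)

theorem pw_const {p : ℕ} [Fact p.Prime] {ι : Type} (Fp : ι → MvPolynomial ι ℤ_[p]) :
    pw (fun _ => Fp) = pt Fp := rfl

theorem theta_iter {p : ℕ} [Fact p.Prime] {N : ℕ} (θ : ℚ_[p] →+* ℂ)
    (F : Fin (N + 1) → MvPolynomial (Fin (N + 1)) ℂ)
    (Fp : Fin (N + 1) → MvPolynomial (Fin (N + 1)) ℤ_[p]) (hFp : ∀ i, map (tht θ) (Fp i) = F i)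
    (x : Fin (N + 1) → ℤ_[p]) (n : ℕ) :
    (pt F)^[n] (fun i => tht θ (x i)) = fun i => tht θ ((pt Fp)^[n] x i) := by
  have h := pt_map (tht θ) Fp x n
  rwa [show (fun i => map (tht θ) (Fp i)) = F from funext hFp] at h

/-- **The uniform gap theorem for endomorphisms of projective space.** -/
theorem proj_gap {N d : ℕ} (F : Fin (N + 1) → MvPolynomial (Fin (N + 1)) ℂ)
    (hF : ∀ i, (F i).IsHomogeneous d)
    (hF0 : ∀ x : Fin (N + 1) → ℂ, (∀ i, eval x (F i) = 0) → x = 0)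
    (S : Set (MvPolynomial (Fin (N + 1)) ℂ)) (hS : ∀ g ∈ S, ∃ e : ℕ, g.IsHomogeneous e)
    (hV : ∀ x : Fin (N + 1) → ℂ, x ≠ 0 → ∀ k : ℕ, 0 < k →
      ∃ n, ∃ g ∈ S, eval ((pt F)^[k * n] x) g ≠ 0) (s : Finset ℂ) :
    ∃ (M : ℕ) (b C : ℝ), 1 < b ∧ 0 < C ∧ ∀ α : Fin (N + 1) → ℂ, α ≠ 0 →
      (∀ i, α i ∈ Subfield.closure (s : Set ℂ)) →
      Sparse M b C {n | ∀ g ∈ S, eval ((pt F)^[n] α) g = 0} := by
  classical
  obtain ⟨S', hS1, hS2⟩ := exists_finite_sub S
  obtain ⟨p, hp, hB, θ, Fp, hFp, hs, hT, hprim⟩ := exists_model F hF0 S' s 2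
  set H : Set (MvPolynomial (Fin (N + 1)) ℤ_[p]) := {h | map (tht θ) h ∈ S'} with hH
  obtain ⟨a, K, μ, hK, hμ, hgap⟩ := glob_gap (ι := Fin (N + 1)) (by omega) (fun _ => Fp)
    (Prim p (Fin (N + 1))) isClosed_prim hprim H (by
      intro β hβ k hk
      by_contra hcon
      push Not at hcon
      obtain ⟨i, hi⟩ := hβ
      obtain ⟨n, g, hg, hne⟩ := hV (fun i => tht θ (β i)) (by
        intro h0
        have h1 := congrFun h0 i
        have h2 : β i = 0 := tht_injective θ (by rw [map_zero]; exact h1)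
        rw [h2] at hi
        exact not_isUnit_zero hi) k hk
      apply hne
      refine hS2 _ (fun g' hg' => ?_) g hg
      obtain ⟨h, hh⟩ := hT g' hg'
      rw [theta_iter θ F Fp hFp, ← hh, eval_theta]
      have h3 := hcon h (by rw [hH, Set.mem_ofPred_eq, hh]; exact hg') n
      rw [pw_const] at h3
      rw [h3, map_zero])
  obtain ⟨b, C, hb, hC, hsp⟩ := sparse_of_gap p a K μ (by omega) hK hμ
  refine ⟨a + K * (2 * μ), b, C, hb, hC, fun α hα hαs => ?_⟩
  have hle : Subfield.closure (s : Set ℂ) ≤ θ.fieldRange := by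
    rw [Subfield.closure_le]
    intro z hz
    obtain ⟨y, hy⟩ := hs z hz
    exact ⟨(y : ℚ_[p]), hy⟩
  have hy : ∀ i, ∃ y : ℚ_[p], θ y = α i := fun i => hle (hαs i)
  choose y hy using hy
  have hy0 : y ≠ 0 := by
    rintro rfl
    apply hα
    funext i
    rw [← hy i, Pi.zero_apply, map_zero, Pi.zero_apply]
  obtain ⟨c, x, hc, hx, hyx⟩ := exists_prim y hy0
  have hαx : α = fun i => θ c * tht θ (x i) := by
    funext i
    rw [← hy i, hyx i, map_mul]
    rfl
  have hret : {n | ∀ g ∈ S, eval ((pt F)^[n] α) g = 0} =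
      {n | ∀ h ∈ H, eval ((pw fun _ => Fp)^[n] x) h = 0} := by
    ext n
    have hg0 : ∀ g ∈ S, (eval ((pt F)^[n] α) g = 0 ↔
        eval (fun i => tht θ ((pt Fp)^[n] x i)) g = 0) := by
      intro g hg
      obtain ⟨e, he⟩ := hS g hg
      rw [hαx, iterate_scale F d hF, theta_iter θ F Fp hFp, eval_scale g e he, mul_eq_zero]
      constructor
      · rintro (h | h)
        · exact absurd h (pow_ne_zero _ (pow_ne_zero _ (by rwa [Ne, map_eq_zero])))
        · exact h
      · exact Or.inr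
    simp only [Set.mem_ofPred_eq]
    constructor
    · intro h q hq
      have h1 := (hg0 _ (hS1 hq)).1 (h _ (hS1 hq))
      rw [eval_theta] at h1
      exact tht_injective θ (by rw [map_zero]; exact h1)
    · intro h g hg
      rw [hg0 g hg]
      refine hS2 _ (fun g' hg' => ?_) g hg
      obtain ⟨q, hq⟩ := hT g' hg'
      rw [← hq, eval_theta]
      have h3 := h q (by rw [hH, Set.mem_ofPred_eq, hq]; exact hg')
      rw [pw_const] at h3
      rw [h3, map_zero]
  rw [hret]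
  exact hsp _ fun j _ => hgap x hx (a + j) (Nat.le_add_right _ _)

end Pool.Agent.Q170.GP
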