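import Pool.Agent.Q170.GP.Et
import Pool.Agent.Q170.GP.Proj

/-!
# Endomorphisms of projective space which are étale along the periodic part of a subvariety
-/

set_option autoImplicit false

open MvPolynomial Filter Topology

namespace Pool.Agent.Q170.GP

open Pool.Agent.H936R2 (pt pt_map eval_scale iterate_scale jac)

/-- The Jacobian determinant as a polynomial. -/
noncomputable def jdet {ι R : Type} [Fintype ι] [DecidableEq ι] [CommRing R]
    (F : ι → MvPolynomial ι R) : MvPolynomial ι R := (Matrix.of fun i j => pderiv j (F i)).det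

theorem eval_jdet {ι R : Type} [Fintype ι] [DecidableEq ι] [CommRing R]
    (F : ι → MvPolynomial ι R) (x : ι → R) : eval x (jdet F) = (jac F x).det := by
  unfold jdet
  rw [RingHom.map_det, RingHom.mapMatrix_apply]
  rfl

theorem map_jdet {ι R R' : Type} [Fintype ι] [DecidableEq ι] [CommRing R] [CommRing R']
    (Θ : R →+* R') (F : ι → MvPolynomial ι R) :
    map Θ (jdet F) = jdet fun i => map Θ (F i) := by
  unfold jdet
  rw [RingHom.map_det, RingHom.mapMatrix_apply]
  congr 1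
  ext1 i j
  simp only [Matrix.map_apply, Matrix.of_apply]
  exact (pderiv_map).symm

/-- The return set of a complex point is the return set of a primitive `p`-adic point. -/
theorem exists_transfer {N d : ℕ} (F : Fin (N + 1) → MvPolynomial (Fin (N + 1)) ℂ)
    (hF : ∀ i, (F i).IsHomogeneous d) {p : ℕ} [hp : Fact p.Prime] (θ : ℚ_[p] →+* ℂ)
    (Fp : Fin (N + 1) → MvPolynomial (Fin (N + 1)) ℤ_[p]) (hFp : ∀ i, map (tht θ) (Fp i) = F i)
    (S : Set (MvPolynomial (Fin (N + 1)) ℂ)) (hS : ∀ g ∈ S, ∃ e : ℕ, g.IsHomogeneous e)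
    (S' : Finset (MvPolynomial (Fin (N + 1)) ℂ)) (hS1 : ↑S' ⊆ S)
    (hS2 : ∀ x : Fin (N + 1) → ℂ, (∀ g ∈ S', eval x g = 0) → ∀ g ∈ S, eval x g = 0)
    (hT : ∀ g ∈ S', ∃ h : MvPolynomial (Fin (N + 1)) ℤ_[p], map (tht θ) h = g)
    (α : Fin (N + 1) → ℂ) (hα : α ≠ 0) (hαs : ∀ i, ∃ y : ℚ_[p], θ y = α i) :
    ∃ x ∈ Prim p (Fin (N + 1)), {n | ∀ g ∈ S, eval ((pt F)^[n] α) g = 0} =
      {n | ∀ h ∈ {h : MvPolynomial (Fin (N + 1)) ℤ_[p] | map (tht θ) h ∈ S'},
        eval ((pt Fp)^[n] x) h = 0} := by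
  choose y hy using hαs
  have hy0 : y ≠ 0 := by
    rintro rfl
    apply hα
    funext i
    rw [← hy i, Pi.zero_apply, map_zero, Pi.zero_apply]
  obtain ⟨c, x, hc, hx, hyx⟩ := exists_prim y hy0
  have hαx : α = fun i => θ c * tht θ (x i) := by
    funext i
    rw [← hy i, hyx i, map_mul]
    rfl
  refine ⟨x, hx, ?_⟩
  ext n
  have hg0 : ∀ g ∈ S, (eval ((pt F)^[n] α) g = 0 ↔
      eval (fun i => tht θ ((pt Fp)^[n] x i)) g = 0) := by
    intro g hg
    obtain ⟨e, he⟩ := hS g hg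
    rw [hαx, iterate_scale F d hF, theta_iter θ F Fp hFp, eval_scale g e he, mul_eq_zero]
    constructor
    · rintro (h | h)
      · exact absurd h (pow_ne_zero _ (pow_ne_zero _ (by rwa [Ne, map_eq_zero])))
      · exact h
    · exact Or.inr
  simp only [Set.mem_ofPred_eq]
  constructor
  · intro h q hq
    have h1 := (hg0 _ (hS1 hq)).1 (h _ (hS1 hq))
    rw [eval_theta] at h1
    exact tht_injective θ (by rw [map_zero]; exact h1)
  · intro h g hg
    rw [hg0 g hg]
    refine hS2 _ (fun g' hg' => ?_) g hg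
    obtain ⟨q, hq⟩ := hT g' hg'
    rw [← hq, eval_theta]
    have h3 := h q (by rw [hq]; exact hg')
    rw [h3, map_zero]

/-- From the alternative in the classes to a union of progressions and a sparse set. -/
theorem split_of_gap (p a K μ : ℕ) (hp : 2 ≤ p) (hK : 0 < K) (hμ : 0 < μ) (S : Set ℕ)
    (h : ∀ j, j < K → (∀ n, a + j + K * n ∈ S) ∨ GapP p μ {n | a + j + K * n ∈ S}) :
    ∃ (T : Finset (ℕ × ℕ)) (M : ℕ) (b C : ℝ) (R : Set ℕ), 1 < b ∧ 0 < C ∧ Sparse M b C R ∧
      S = {n | ∃ q ∈ T, ∃ m : ℕ, n = q.1 * m + q.2} ∪ R := by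
  classical
  obtain ⟨b, C, hb, hC, hsp⟩ := sparse_of_gap p a K μ hp hK hμ
  set J := (Finset.range K).filter fun j => ∀ n, a + j + K * n ∈ S with hJ
  set R : Set ℕ := {n | n ∈ S ∧ (n < a ∨ (n - a) % K ∉ J)} with hR
  refine ⟨J.image fun j => (K, a + j), a + K * (2 * μ), b, C, R, hb, hC, hsp R fun j hj => ?_, ?_⟩
  · by_cases hj' : j ∈ J
    · intro A hA hc
      have h1 : A = ∅ := by
        rw [Finset.eq_empty_iff_forall_notMem]
        intro n hn
        obtain ⟨-, h2⟩ := hA n hn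
        rcases h2 with h2 | h2
        · omega
        · apply h2
          have h3 : a + j + K * n - a = j + K * n := by omega
          rw [h3, Nat.add_mul_mod_self_left, Nat.mod_eq_of_lt hj]
          exact hj'
      rw [h1, Finset.card_empty] at hc
      omega
    · rcases h j hj with h1 | h1
      · exact absurd (Finset.mem_filter.2 ⟨Finset.mem_range.2 hj, h1⟩) hj'
      · intro A hA hc
        exact h1 A (fun n hn => (hA n hn).1) hc
  · ext n
    simp only [hR, Set.mem_union, Set.mem_ofPred_eq, Finset.mem_image]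
    constructor
    · intro hn
      by_cases h1 : n < a ∨ (n - a) % K ∉ J
      · exact Or.inr ⟨hn, h1⟩
      · push Not at h1
        refine Or.inl ⟨_, ⟨(n - a) % K, h1.2, rfl⟩, (n - a) / K, ?_⟩
        have := Nat.div_add_mod (n - a) K
        simp only
        omega
    · rintro (⟨_, ⟨j, hj, rfl⟩, m, rfl⟩ | h1)
      · have h2 := (Finset.mem_filter.1 hj).2 m
        simp only
        rwa [add_comm]
      · exact h1.1

/-- **Endomorphisms of projective space étale along the periodic part of `V`.** -/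
theorem proj_etale {N d : ℕ} (F : Fin (N + 1) → MvPolynomial (Fin (N + 1)) ℂ)
    (hF : ∀ i, (F i).IsHomogeneous d)
    (hF0 : ∀ x : Fin (N + 1) → ℂ, (∀ i, eval x (F i) = 0) → x = 0)
    (S : Set (MvPolynomial (Fin (N + 1)) ℂ)) (hS : ∀ g ∈ S, ∃ e : ℕ, g.IsHomogeneous e)
    (W : Set (MvPolynomial (Fin (N + 1)) ℂ))
    (hW1 : ∀ x : Fin (N + 1) → ℂ, x ≠ 0 → (∀ g ∈ W, eval x g = 0) →
      ∀ g ∈ W, eval (pt F x) g = 0)
    (hW2 : ∀ x : Fin (N + 1) → ℂ, x ≠ 0 → (∀ g ∈ W, eval x g = 0) → (jac F x).det ≠ 0)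
    (hW3 : ∀ x : Fin (N + 1) → ℂ, x ≠ 0 → ∀ k : ℕ, 0 < k →
      (∀ n, ∀ g ∈ S, eval ((pt F)^[k * n] x) g = 0) → ∀ g ∈ W, eval x g = 0)
    (α : Fin (N + 1) → ℂ) (hα : α ≠ 0) :
    ∃ (T : Finset (ℕ × ℕ)) (M : ℕ) (b C : ℝ) (R : Set ℕ), 1 < b ∧ 0 < C ∧ Sparse M b C R ∧
      {n | ∀ g ∈ S, eval ((pt F)^[n] α) g = 0} =
        {n | ∃ q ∈ T, ∃ m : ℕ, n = q.1 * m + q.2} ∪ R := by
  classical
  obtain ⟨S', hS1, hS2⟩ := exists_finite_sub S
  obtain ⟨W', hW'1, hW'2⟩ := exists_finite_sub W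
  -- certificates
  have hcert : ∀ i : Fin (N + 1), ∃ (e : ℕ) (A : MvPolynomial (Fin (N + 1)) ℂ)
      (D : MvPolynomial (Fin (N + 1)) ℂ → MvPolynomial (Fin (N + 1)) ℂ),
      (X i : MvPolynomial (Fin (N + 1)) ℂ) ^ e = A * jdet F + ∑ g ∈ W', D g * g := by
    intro i
    obtain ⟨e, he⟩ := exists_power (insert (jdet F) (W' : Set (MvPolynomial (Fin (N + 1)) ℂ)))
      (X i) (by
      intro x hx
      rw [eval_X]
      by_cases h0 : x = 0
      · rw [h0]; rfl
      · exfalso
        refine hW2 x h0 (hW'2 x fun g hg => hx g (Set.mem_insert_of_mem _ hg)) ?_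
        rw [← eval_jdet]
        exact hx _ (Set.mem_insert _ _))
    rw [Ideal.mem_span_insert] at he
    obtain ⟨A, z, hz, hA⟩ := he
    obtain ⟨D, hD⟩ := Submodule.mem_span_finset.1 hz
    exact ⟨e, A, D, by rw [hA, ← hD.2]; rfl⟩
  choose e A D hAD using hcert
  set TT : Finset (MvPolynomial (Fin (N + 1)) ℂ) := S' ∪ W' ∪
    (Finset.univ.image fun i => A i) ∪
    (Finset.univ ×ˢ W').image (fun q => D q.1 q.2) with hTT
  obtain ⟨p, hp, hB, θ, Fp, hFp, hs, hT, hprim⟩ := exists_model F hF0 TT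
    (Finset.univ.image α) 2
  have hTS : ∀ g ∈ S', ∃ h : MvPolynomial (Fin (N + 1)) ℤ_[p], map (tht θ) h = g :=
    fun g hg => hT g (by
      simp only [hTT, Finset.mem_union]
      exact Or.inl (Or.inl (Or.inl hg)))
  have hTW : ∀ g ∈ W', ∃ h : MvPolynomial (Fin (N + 1)) ℤ_[p], map (tht θ) h = g :=
    fun g hg => hT g (by
      simp only [hTT, Finset.mem_union]
      exact Or.inl (Or.inl (Or.inr hg)))
  have hTA : ∀ i, ∃ h : MvPolynomial (Fin (N + 1)) ℤ_[p], map (tht θ) h = A i :=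
    fun i => hT _ (by
      simp only [hTT, Finset.mem_union]
      exact Or.inl (Or.inr (Finset.mem_image_of_mem _ (Finset.mem_univ _))))
  have hTD : ∀ i, ∀ g ∈ W', ∃ h : MvPolynomial (Fin (N + 1)) ℤ_[p], map (tht θ) h = D i g :=
    fun i g hg => hT _ (by
      simp only [hTT, Finset.mem_union]
      exact Or.inr (Finset.mem_image.2 ⟨(i, g), by simp [hg], rfl⟩))
  obtain ⟨x, hx, hret⟩ := exists_transfer F hF θ Fp hFp S hS S' hS1 hS2 hTS α hα (fun i => by
    obtain ⟨y, hy⟩ := hs (α i) (Finset.mem_image_of_mem _ (Finset.mem_univ _))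
    exact ⟨(y : ℚ_[p]), hy⟩)
  have hne : ∀ β ∈ Prim p (Fin (N + 1)), (fun i => tht θ (β i)) ≠ 0 := by
    rintro β ⟨i, hi⟩ h0
    have h1 := congrFun h0 i
    have h2 : β i = 0 := tht_injective θ (by rw [map_zero]; exact h1)
    rw [h2] at hi
    exact not_isUnit_zero hi
  have hprimn : ∀ n, ∀ β ∈ Prim p (Fin (N + 1)), (pt Fp)^[n] β ∈ Prim p (Fin (N + 1)) := by
    intro n
    induction n with
    | zero => exact fun x hx => hx
    | succ n ih =>
      intro x hx
      rw [Function.iterate_succ_apply']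
      exact hprim _ (ih x hx)
  -- units
  have hunit : ∀ β ∈ Prim p (Fin (N + 1)), (∀ g ∈ W, eval (fun i => tht θ (β i)) g = 0) →
      IsUnit (jac Fp β).det := by
    rintro β ⟨i, hi⟩ hβW
    obtain ⟨Ap, hAp⟩ := hTA i
    choose! Dp hDp using hTD i
    choose! gp hgp using hTW
    have h1 : (X i : MvPolynomial (Fin (N + 1)) ℤ_[p]) ^ e i =
        Ap * jdet Fp + ∑ g ∈ W', Dp g * gp g := by
      apply map_injective (tht θ) (tht_injective θ)
      rw [map_pow, map_X, hAD i, map_add, map_mul, hAp, map_jdet, map_sum]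
      rw [show (fun i => map (tht θ) (Fp i)) = F from funext hFp]
      congr 1
      refine Finset.sum_congr rfl fun g hg => ?_
      rw [map_mul, hDp g hg, hgp g hg]
    have h2 := congrArg (eval β) h1
    rw [map_pow, eval_X, map_add, map_mul, eval_jdet, map_sum] at h2
    have h3 : ∑ g ∈ W', eval β (Dp g * gp g) = 0 := by
      refine Finset.sum_eq_zero fun g hg => ?_
      have h4 : eval β (gp g) = 0 := by
        apply tht_injective θ
        rw [map_zero, ← eval_theta, hgp g hg]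
        exact hβW g (hW'1 hg)
      rw [eval_mul, h4, mul_zero]
    rw [h3, add_zero] at h2
    exact isUnit_of_mul_isUnit_right (h2 ▸ hi.pow (e i))
  set H : Set (MvPolynomial (Fin (N + 1)) ℤ_[p]) := {h | map (tht θ) h ∈ S'} with hH
  obtain ⟨a, K, μ, hK, hμ, hall⟩ := orbit_dml (by omega) Fp (Prim p (Fin (N + 1)))
    isClosed_prim hprim H (by
      intro β hβ k hk hall i
      have hβW : ∀ g ∈ W, eval (fun i => tht θ (β i)) g = 0 := by
        refine hW3 _ (hne β hβ) k hk fun n g hg => ?_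
        refine hS2 _ (fun g' hg' => ?_) g hg
        obtain ⟨h, hh⟩ := hTS g' hg'
        rw [theta_iter θ F Fp hFp, ← hh, eval_theta, hall h (by
          rw [hH, Set.mem_ofPred_eq, hh]; exact hg') n, map_zero]
      have hW' : ∀ i, ∀ g ∈ W, eval (fun j => tht θ ((pt Fp)^[i] β j)) g = 0 := by
        intro i
        induction i with
        | zero => exact hβW
        | succ i ih =>
          rw [← theta_iter θ F Fp hFp] at ih ⊢
          rw [Function.iterate_succ_apply']
          refine hW1 _ ?_ ih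
          rw [theta_iter θ F Fp hFp]
          exact hne _ (hprimn i β hβ)
      exact hunit _ (hprimn i β hβ) (hW' i)) x hx
  rw [hret]
  exact split_of_gap p a K μ (by omega) hK hμ _ hall

end Pool.Agent.Q170.GP
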