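import Pool.Agent.Q170.GP.Cnt

/-!
# The uniform bound for the number of zeros, with the lemma of Artin and Rees
-/

set_option autoImplicit false

namespace Pool.Agent.Q170.GP

variable {p : ℕ} [hp : Fact p.Prime]

theorem fwdDiff_mul (a : ℤ_[p]) (f : ℕ → ℤ_[p]) (i : ℕ) :
    (fwdDiff 1)^[i] (fun n => a * f n) = fun n => a * (fwdDiff 1)^[i] f n := by
  induction i with
  | zero => rfl
  | succ i ih =>
    rw [Function.iterate_succ_apply', ih, Function.iterate_succ_apply']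
    funext n
    unfold fwdDiff
    ring

/-- **The uniform bound.** A ring endomorphism which is the identity modulo `p`. -/
theorem uniform_count (hp2 : p ≠ 2) {𝒜 : Type} [CommRing 𝒜] [IsNoetherianRing 𝒜] (T : 𝒜 →+* 𝒜)
    (hT : ∀ a, (p : 𝒜) ∣ T a - a) (H : Set 𝒜) :
    ∃ c : ℕ, ∀ φ : 𝒜 →+* ℤ_[p], (∀ g ∈ H, ∀ n, φ (T^[n] g) = 0) ∨
      ∀ A : Finset ℕ, (∀ n ∈ A, ∀ g ∈ H, φ (T^[n] g) = 0) → A.card ≤ c := by
  classical
  set I : Ideal 𝒜 := Ideal.span {a | ∃ g ∈ H, ∃ n, a = T^[n] g} with hI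
  obtain ⟨c, hc⟩ := Ideal.exists_pow_inf_eq_pow_smul (Ideal.span {(p : 𝒜)}) (M := 𝒜) I
  set D : 𝒜 →+ 𝒜 := T.toAddMonoidHom - AddMonoidHom.id 𝒜 with hD
  have hDa : ∀ a, D a = T a - a := fun a => rfl
  have hgen : ∀ g ∈ H, ∀ n, T^[n] g ∈ I := fun g hg n => Ideal.subset_span ⟨g, hg, n, rfl⟩
  have hTI : ∀ a ∈ I, T a ∈ I := by
    have h1 : I ≤ I.comap T := by
      rw [hI, Ideal.span_le]
      rintro _ ⟨g, hg, n, rfl⟩
      change T (T^[n] g) ∈ I
      rw [← Function.iterate_succ_apply' T n g]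
      exact hgen g hg (n + 1)
    exact h1
  have hDI : ∀ i, ∀ a ∈ I, D^[i] a ∈ I := by
    intro i
    induction i with
    | zero => exact fun a ha => ha
    | succ i ih =>
      intro a ha
      rw [Function.iterate_succ_apply', hDa]
      exact I.sub_mem (hTI _ (ih a ha)) (ih a ha)
  have hDp : ∀ i a, ∃ b, D^[i] a = (p : 𝒜) ^ i * b := by
    intro i
    induction i with
    | zero => exact fun a => ⟨a, by simp⟩
    | succ i ih =>
      intro a
      obtain ⟨b, hb⟩ := ih a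
      obtain ⟨b', hb'⟩ := hT b
      refine ⟨b', ?_⟩
      rw [Function.iterate_succ_apply', hb, hDa, map_mul, map_pow, map_natCast, ← mul_sub, hb',
        pow_succ, mul_assoc]
  have hAR : ∀ i, c ≤ i → ∀ a ∈ I, ∃ y ∈ I, D^[i] a = (p : 𝒜) ^ (i - c) * y := by
    intro i hi a ha
    have h1 : D^[i] a ∈ Ideal.span {(p : 𝒜)} ^ i • (⊤ : Submodule 𝒜 𝒜) ⊓ I := by
      refine ⟨?_, hDI i a ha⟩
      obtain ⟨b, hb⟩ := hDp i a
      rw [hb, Ideal.span_singleton_pow]
      exact Submodule.smul_mem_smul (Ideal.mem_span_singleton_self _) Submodule.mem_top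
    rw [hc i hi, Ideal.span_singleton_pow] at h1
    have h2 : D^[i] a ∈ Ideal.span {(p : 𝒜) ^ (i - c)} * I :=
      (Submodule.smul_mono le_rfl inf_le_right) h1
    obtain ⟨y, hy, hya⟩ := Ideal.mem_span_singleton_mul.1 h2
    exact ⟨y, hy, hya.symm⟩
  refine ⟨2 * (c + 1), fun φ => ?_⟩
  by_cases hall : ∀ g ∈ H, ∀ n, φ (T^[n] g) = 0
  · exact Or.inl hall
  refine Or.inr fun A hA => ?_
  push Not at hall
  have hex : ∃ ν : ℕ, ∃ g ∈ H, ∃ n, ¬ (p : ℤ_[p]) ^ (ν + 1) ∣ φ (T^[n] g) := by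
    obtain ⟨g, hg, n, hn⟩ := hall
    by_contra hcon
    push Not at hcon
    apply hn
    by_contra hne
    obtain ⟨k, hk⟩ : ∃ k : ℕ, (p : ℝ) ^ (-(k : ℤ)) < ‖φ (T^[n] g)‖ :=
      PadicInt.exists_pow_neg_lt p (norm_pos_iff.2 hne)
    have h4 := (pow_dvd_pow (p : ℤ_[p]) (Nat.le_succ k)).trans (hcon k g hg n)
    rw [← Ideal.mem_span_singleton, ← PadicInt.norm_le_pow_iff_mem_span_pow] at h4
    exact absurd hk (not_lt.2 h4)
  set ν := Nat.find hex with hν
  obtain ⟨g1, hg1, n1, hn1⟩ := Nat.find_spec hex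
  have hdiv : ∀ g ∈ H, ∀ n, (p : ℤ_[p]) ^ ν ∣ φ (T^[n] g) := by
    intro g hg n
    rcases Nat.eq_zero_or_pos ν with h0 | h0
    · rw [h0, pow_zero]
      exact one_dvd _
    · have h1 := Nat.find_min hex (m := ν - 1) (by omega)
      push Not at h1
      have h2 := h1 g hg n
      rwa [Nat.sub_add_cancel h0] at h2
  have hdivI : ∀ y ∈ I, (p : ℤ_[p]) ^ ν ∣ φ y := by
    have h1 : I ≤ (Ideal.span {(p : ℤ_[p]) ^ ν}).comap φ := by
      rw [hI, Ideal.span_le]
      rintro _ ⟨g, hg, n, rfl⟩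
      exact Ideal.mem_span_singleton.2 (hdiv g hg n)
    exact fun y hy => Ideal.mem_span_singleton.1 (h1 hy)
  choose q hq using hdiv g1 hg1
  have hp0 : (p : ℤ_[p]) ≠ 0 := PadicInt.prime_p.ne_zero
  have hfd : ∀ i n, (fwdDiff 1)^[i] (fun n => φ (T^[n] g1)) n = φ (D^[i] (T^[n] g1)) := by
    intro i
    induction i with
    | zero => exact fun n => rfl
    | succ i ih =>
      intro n
      rw [Function.iterate_succ_apply']
      unfold fwdDiff
      have e1 := ih (n + 1)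
      have e2 := ih n
      unfold fwdDiff at e1 e2
      rw [e1, e2, ← map_sub, ← iterate_map_sub D i, Function.iterate_succ_apply' T, ← hDa,
        ← Function.iterate_succ_apply]
  have hfun : (fun n => φ (T^[n] g1)) = fun n => (p : ℤ_[p]) ^ ν * q n := funext hq
  have hpow : ∀ i n, (p : ℤ_[p]) ^ i ∣ (fwdDiff 1)^[i] (fun n => (p : ℤ_[p]) ^ c * q n) n := by
    intro i n
    rw [fwdDiff_mul]
    rcases le_total i c with hi | hi
    · exact Dvd.dvd.mul_right (pow_dvd_pow _ hi) _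
    · obtain ⟨y, hy, hya⟩ := hAR i hi _ (hgen g1 hg1 n)
      obtain ⟨z, hz⟩ := hdivI y hy
      have h1 := hfd i n
      rw [hfun, fwdDiff_mul, hya, map_mul, map_pow, map_natCast, hz] at h1
      have h2 : (fwdDiff 1)^[i] q n = (p : ℤ_[p]) ^ (i - c) * z := by
        apply mul_left_cancel₀ (pow_ne_zero ν hp0)
        beta_reduce at h1
        rw [h1]
        ring
      beta_reduce
      rw [h2, ← mul_assoc, ← pow_add, Nat.add_sub_cancel' hi]
      exact dvd_mul_right _ _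
  refine count_seq hp2 (fun n => (p : ℤ_[p]) ^ c * q n) hpow (c + 1) ⟨n1, fun h => hn1 ?_⟩ A
    fun n hn => ?_
  · rw [hq n1, pow_succ]
    refine mul_dvd_mul_left _ ?_
    rw [pow_succ] at h
    exact (mul_dvd_mul_iff_left (pow_ne_zero c hp0)).1 h
  · have h1 := hA n hn g1 hg1
    rw [hq n] at h1
    beta_reduce
    rw [(mul_eq_zero.1 h1).resolve_left (pow_ne_zero _ hp0), mul_zero]

end Pool.Agent.Q170.GP
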