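import Pool.Agent.Q170.GP.Loc

/-!
# Self-maps of `ℤ_p^ι` which are polynomial on each residue class
-/

set_option autoImplicit false

open MvPolynomial Filter Topology

namespace Pool.Agent.Q170.GP

open Pool.Agent.H936R2 (pt taylor_one)

variable {p : ℕ} [hp : Fact p.Prime] {ι : Type}

/-- The residue class of a vector. -/
noncomputable def red (x : ι → ℤ_[p]) : ι → ZMod p := fun i => PadicInt.toZMod (x i)

/-- The self-map of `ℤ_p^ι` which is given by the polynomials `G c` on the residue class `c`. -/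
noncomputable def pw (G : (ι → ZMod p) → ι → MvPolynomial ι ℤ_[p]) (x : ι → ℤ_[p]) : ι → ℤ_[p] :=
  pt (G (red x)) x

theorem toZMod_eq_iff (x y : ℤ_[p]) :
    (PadicInt.toZMod x : ZMod p) = PadicInt.toZMod y ↔ (p : ℤ_[p]) ∣ x - y := by
  rw [← sub_eq_zero, ← map_sub, ← Ideal.mem_span_singleton, ← PadicInt.maximalIdeal_eq_span_p,
    ← PadicInt.ker_toZMod, RingHom.mem_ker]

theorem red_eval (P : MvPolynomial ι ℤ_[p]) (x : ι → ℤ_[p]) :
    (PadicInt.toZMod (eval x P) : ZMod p) = eval (red x) (map PadicInt.toZMod P) := by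
  rw [eval_map]
  have h := eval₂_comp_left (PadicInt.toZMod : ℤ_[p] →+* ZMod p) (RingHom.id _) x P
  rw [RingHom.comp_id] at h
  exact h

theorem red_pt_congr (F : ι → MvPolynomial ι ℤ_[p]) {x y : ι → ℤ_[p]} (h : red x = red y) :
    red (pt F x) = red (pt F y) := by
  funext i
  change (PadicInt.toZMod (eval x (F i)) : ZMod p) = PadicInt.toZMod (eval y (F i))
  rw [red_eval, red_eval, h]

theorem red_pw_congr (G : (ι → ZMod p) → ι → MvPolynomial ι ℤ_[p]) {x y : ι → ℤ_[p]}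
    (h : red x = red y) : red (pw G x) = red (pw G y) := by
  unfold pw
  rw [h]
  exact red_pt_congr _ h

theorem red_iter_congr (G : (ι → ZMod p) → ι → MvPolynomial ι ℤ_[p]) {x y : ι → ℤ_[p]}
    (h : red x = red y) (k : ℕ) : red ((pw G)^[k] x) = red ((pw G)^[k] y) := by
  induction k with
  | zero => exact h
  | succ k ih =>
    rw [Function.iterate_succ_apply', Function.iterate_succ_apply']
    exact red_pw_congr G ih

theorem red_add (x u : ι → ℤ_[p]) : red (fun i => x i + (p : ℤ_[p]) * u i) = red x := by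
  funext i
  refine (toZMod_eq_iff (x i + (p : ℤ_[p]) * u i) (x i)).2 ⟨u i, by ring⟩

theorem exists_of_red {x y : ι → ℤ_[p]} (h : red y = red x) :
    ∃ u : ι → ℤ_[p], y = fun i => x i + p * u i := by
  have h1 : ∀ i, ∃ u : ℤ_[p], y i = x i + p * u := by
    intro i
    obtain ⟨u, hu⟩ := (toZMod_eq_iff _ _).1 (congrFun h i)
    exact ⟨u, by rw [← hu]; ring⟩
  choose u hu using h1
  exact ⟨u, funext hu⟩

/-- The composition of the polynomials along the orbit of `x`. -/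
noncomputable def cmp (G : (ι → ZMod p) → ι → MvPolynomial ι ℤ_[p]) (x : ι → ℤ_[p]) :
    ℕ → ι → MvPolynomial ι ℤ_[p]
  | 0 => X
  | k + 1 => fun i => bind₁ (cmp G x k) (G (red ((pw G)^[k] x)) i)

theorem pt_cmp (G : (ι → ZMod p) → ι → MvPolynomial ι ℤ_[p]) (x y : ι → ℤ_[p])
    (h : red y = red x) (k : ℕ) : pt (cmp G x k) y = (pw G)^[k] y := by
  induction k with
  | zero =>
    funext i
    exact eval_X i
  | succ k ih =>
    rw [Function.iterate_succ_apply', ← ih]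
    funext i
    change eval y (bind₁ (cmp G x k) (G (red ((pw G)^[k] x)) i)) = _
    rw [eval_bind, ← red_iter_congr G h k, ← ih]
    rfl

variable [Fintype ι]

/-- The map in the coordinate `u` of the residue class `x0 + p u`. -/
theorem localise (G : (ι → ZMod p) → ι → MvPolynomial ι ℤ_[p]) (x0 : ι → ℤ_[p]) (k : ℕ)
    (hk : red ((pw G)^[k] x0) = red x0) :
    ∃ Φ : ι → MvPolynomial ι ℤ_[p], AffMod Φ ∧ ∀ (n : ℕ) (u : ι → ℤ_[p]),
      (pw G)^[k * n] (fun i => x0 i + p * u i) = fun i => x0 i + p * (pt Φ)^[n] u i := by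
  classical
  have h1 : ∀ i, ∃ P : MvPolynomial ι ℤ_[p],
      (∃ (b : ℤ_[p]) (a : ι → ℤ_[p]) (r : MvPolynomial ι ℤ_[p]),
        P = C b + ∑ j, C (a j) * X j + C (p : ℤ_[p]) * r) ∧
      ∀ u : ι → ℤ_[p], eval (fun i => x0 i + p * u i) (cmp G x0 k i) = x0 i + p * eval u P := by
    intro i
    obtain ⟨r, hr⟩ := taylor_one (p : ℤ_[p]) x0 (X : ι → MvPolynomial ι ℤ_[p]) (cmp G x0 k i)
    have h2 : (p : ℤ_[p]) ∣ eval x0 (cmp G x0 k i) - x0 i := by
      have h3 : pt (cmp G x0 k) x0 = (pw G)^[k] x0 := pt_cmp G x0 x0 rfl k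
      have h4 : eval x0 (cmp G x0 k i) = (pw G)^[k] x0 i := congrFun h3 i
      rw [h4]
      exact (toZMod_eq_iff _ _).1 (congrFun hk i)
    obtain ⟨b, hb⟩ := h2
    refine ⟨C b + ∑ j, C (eval x0 (pderiv j (cmp G x0 k i))) * X j + C (p : ℤ_[p]) * r,
      ⟨b, _, r, rfl⟩, fun u => ?_⟩
    have h5 := congrArg (eval u) hr
    have h6 : eval u (aeval (fun j => algebraMap ℤ_[p] (MvPolynomial ι ℤ_[p]) (x0 j) +
        algebraMap ℤ_[p] (MvPolynomial ι ℤ_[p]) (p : ℤ_[p]) * X j) (cmp G x0 k i)) =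
        eval (fun j => x0 j + p * u j) (cmp G x0 k i) := by
      refine (eval_bind (fun j => algebraMap ℤ_[p] (MvPolynomial ι ℤ_[p]) (x0 j) +
        algebraMap ℤ_[p] (MvPolynomial ι ℤ_[p]) (p : ℤ_[p]) * X j) u (cmp G x0 k i)).trans ?_
      have e1 : pt (fun j => algebraMap ℤ_[p] (MvPolynomial ι ℤ_[p]) (x0 j) +
        algebraMap ℤ_[p] (MvPolynomial ι ℤ_[p]) (p : ℤ_[p]) * X j) u =
          fun j => x0 j + p * u j := by
        funext j
        simp [pt, algebraMap_eq]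
      rw [e1]
    rw [← h6, h5]
    simp only [algebraMap_eq, map_add, map_mul, map_sum, eval_C, eval_X, map_pow]
    have h7 : eval x0 (cmp G x0 k i) = x0 i + p * b := by rw [← hb]; ring
    rw [h7]
    ring
  choose Φ hΦ hΦ' using h1
  refine ⟨Φ, hΦ, fun n => ?_⟩
  induction n with
  | zero => intro u; rfl
  | succ n ih =>
    intro u
    rw [mul_add, mul_one, Function.iterate_add_apply]
    have h2 : (pw G)^[k] (fun i => x0 i + p * u i) = fun i => x0 i + p * pt Φ u i := by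
      rw [← pt_cmp G x0 _ (red_add x0 u) k]
      funext i
      exact hΦ' i u
    rw [h2, ih, Function.iterate_succ_apply]

/-- The polynomial `h (x0 + p u)` in `u`. -/
noncomputable def resc (x0 : ι → ℤ_[p]) (h : MvPolynomial ι ℤ_[p]) : MvPolynomial ι ℤ_[p] :=
  bind₁ (fun j => C (x0 j) + C (p : ℤ_[p]) * X j) h

omit [Fintype ι] in
theorem eval_resc (x0 : ι → ℤ_[p]) (h : MvPolynomial ι ℤ_[p]) (u : ι → ℤ_[p]) :
    eval u (resc x0 h) = eval (fun j => x0 j + p * u j) h := by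
  unfold resc
  rw [eval_bind]
  have e1 : pt (fun j => C (x0 j) + C (p : ℤ_[p]) * X j : ι → MvPolynomial ι ℤ_[p]) u =
      fun j => x0 j + p * u j := by
    funext j
    simp [pt]
  rw [e1]

/-- The gap property of a set of numbers. -/
def GapP (p μ : ℕ) (S : Set ℕ) : Prop :=
  ∀ A : Finset ℕ, (∀ n ∈ A, n ∈ S) → 2 * μ < A.card →
    ∀ X L : ℕ, (∀ n ∈ A, X ≤ n) → (∀ n ∈ A, n ≤ L) → p ^ X < p ^ μ * L ^ (2 * μ)

theorem GapP.mono {p μ μ' : ℕ} (hp : 0 < p) {S : Set ℕ} (h : GapP p μ S) (hμ : μ ≤ μ') :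
    GapP p μ' S := by
  intro A hA hc X L hX hL
  have h1 := h A hA (by omega) X L hX hL
  refine lt_of_lt_of_le h1 ?_
  have hL0 : 0 < L := by
    by_contra hcon
    have h0 : L = 0 := by omega
    subst h0
    have h4 : A ⊆ {0} := fun a ha => by
      rw [Finset.mem_singleton]
      exact Nat.le_zero.1 (hL a ha)
    have := Finset.card_le_card h4
    rw [Finset.card_singleton] at this
    have hμ0 : μ = 0 := by omega
    subst hμ0
    have h5 : 0 < p ^ X := Nat.pow_pos hp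
    simp at h1
    omega
  exact Nat.mul_le_mul (Nat.pow_le_pow_right hp hμ) (Nat.pow_le_pow_right hL0 (by omega))

/-- One residue class. -/
theorem class_gap (hp2 : p ≠ 2) (G : (ι → ZMod p) → ι → MvPolynomial ι ℤ_[p])
    (Ω : Set (ι → ℤ_[p])) (hΩ : IsClosed Ω) (hst : ∀ x ∈ Ω, pw G x ∈ Ω)
    (H : Set (MvPolynomial ι ℤ_[p]))
    (hH : ∀ β ∈ Ω, ∀ k : ℕ, 0 < k → ∃ h ∈ H, ∃ n, eval ((pw G)^[k * n] β) h ≠ 0)
    (x0 : ι → ℤ_[p]) (k : ℕ) (hk0 : 0 < k) (hk : red ((pw G)^[k] x0) = red x0) :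
    ∃ K0 : ℕ, 0 < K0 ∧ ∀ K : ℕ, 0 < K → K0 ∣ K → ∃ μ : ℕ, ∀ x ∈ Ω, red x = red x0 →
      GapP p μ {n | ∀ h ∈ H, eval ((pw G)^[K * n] x) h = 0} := by
  obtain ⟨Φ, hΦ, hit⟩ := localise G x0 k hk
  obtain ⟨c, hc, hidem⟩ := exists_idem Φ hΦ
  refine ⟨k * c, Nat.mul_pos hk0 hc, fun K hK hdvd => ?_⟩
  obtain ⟨q, rfl⟩ := hdvd
  have hq : 0 < q := Nat.pos_of_mul_pos_left hK
  set m := c * q with hm
  have hm0 : 0 < m := Nat.mul_pos hc hq
  have hstn : ∀ n, ∀ x ∈ Ω, (pw G)^[n] x ∈ Ω := by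
    intro n
    induction n with
    | zero => exact fun x hx => hx
    | succ n ih =>
      intro x hx
      rw [Function.iterate_succ_apply']
      exact hst _ (ih x hx)
  have hsq : ∀ (h : MvPolynomial ι ℤ_[p]) (u : ι → ℤ_[p]) (n : ℕ), sq Φ m (resc x0 h) u n =
      eval ((pw G)^[k * c * q * n] (fun i => x0 i + p * u i)) h := by
    intro h u n
    have e1 : k * c * q * n = k * (m * n) := by rw [hm]; ring
    rw [e1, hit]
    unfold sq
    rw [eval_resc]
  set Ω' : Set (ι → ℤ_[p]) := {u | (fun i => x0 i + p * u i) ∈ Ω} with hΩ'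
  have hcont : Continuous fun u : ι → ℤ_[p] => (fun i => x0 i + (p : ℤ_[p]) * u i) :=
    continuous_pi fun i => continuous_const.add (continuous_const.mul (continuous_apply i))
  obtain ⟨μ, hμ⟩ := local_gap hp2 Φ m (hidem m hm0 (dvd_mul_right _ _)) Ω'
    (hΩ.preimage hcont) (by
      intro u hu
      change (fun i => x0 i + p * (pt Φ)^[m] u i) ∈ Ω
      rw [← hit]
      exact hstn _ _ hu) (resc x0 '' H) (by
      intro β hβ
      obtain ⟨h, hh, n, hn⟩ := hH _ hβ (k * c * q) (Nat.mul_pos (Nat.mul_pos hk0 hc) hq)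
      exact ⟨resc x0 h, ⟨h, hh, rfl⟩, n, by rwa [hsq]⟩)
  refine ⟨μ, fun x hx hred => ?_⟩
  obtain ⟨u, rfl⟩ := exists_of_red hred
  intro A hA hcard X L hX hL
  refine hμ u hx A ?_ hcard X L hX hL
  rintro n hn _ ⟨h, hh, rfl⟩
  rw [hsq]
  exact hA n hn h hh

omit [Fintype ι] in
theorem exists_lift (c : ι → ZMod p) : ∃ x : ι → ℤ_[p], red x = c := by
  have h : ∀ i, ∃ y : ℤ_[p], (PadicInt.toZMod y : ZMod p) = c i :=
    fun i => ZMod.ringHom_surjective _ (c i)
  choose x hx using h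
  exact ⟨x, funext hx⟩

theorem ev_per {X : Type} [Finite X] (f : X → X) :
    ∃ a : ℕ, ∀ x, ∀ n, a ≤ n → ∃ m, 0 < m ∧ f^[m] (f^[n] x) = f^[n] x := by
  classical
  have := Fintype.ofFinite X
  have h1 : ∀ x, ∃ M m : ℕ, 0 < m ∧ ∀ n, M ≤ n → f^[m] (f^[n] x) = f^[n] x := by
    intro x
    obtain ⟨i, j, hij, h⟩ := Finite.exists_ne_map_eq_of_infinite fun n : ℕ => f^[n] x
    wlog hlt : i < j generalizing i j
    · exact this j i hij.symm h.symm (lt_of_le_of_ne (not_lt.1 hlt) hij.symm)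
    refine ⟨i, j - i, by omega, fun n hn => ?_⟩
    obtain ⟨l, rfl⟩ := Nat.exists_eq_add_of_le hn
    rw [← Function.iterate_add_apply, Nat.add_comm i l, ← Nat.add_assoc, Nat.add_comm (j - i) l,
      Nat.add_assoc, Nat.sub_add_cancel hlt.le, Function.iterate_add_apply,
      Function.iterate_add_apply _ l i, h]
  choose M m hm h using h1
  refine ⟨∑ x, M x, fun x n hn => ⟨m x, hm x, h x n (le_trans ?_ hn)⟩⟩
  exact Finset.single_le_sum (f := M) (fun _ _ => Nat.zero_le _) (Finset.mem_univ x)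

/-- **The uniform gap theorem for piecewise polynomial maps.** -/
theorem glob_gap (hp2 : p ≠ 2) (G : (ι → ZMod p) → ι → MvPolynomial ι ℤ_[p])
    (Ω : Set (ι → ℤ_[p])) (hΩ : IsClosed Ω) (hst : ∀ x ∈ Ω, pw G x ∈ Ω)
    (H : Set (MvPolynomial ι ℤ_[p]))
    (hH : ∀ β ∈ Ω, ∀ k : ℕ, 0 < k → ∃ h ∈ H, ∃ n, eval ((pw G)^[k * n] β) h ≠ 0) :
    ∃ a K μ : ℕ, 0 < K ∧ 0 < μ ∧ ∀ x ∈ Ω, ∀ t, a ≤ t →
      GapP p μ {n | ∀ h ∈ H, eval ((pw G)^[t + K * n] x) h = 0} := by
  classical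
  choose lift hlift using exists_lift (p := p) (ι := ι)
  set fb : (ι → ZMod p) → (ι → ZMod p) := fun c => red (pw G (lift c)) with hfb
  have hfb1 : ∀ x, red (pw G x) = fb (red x) := fun x => red_pw_congr G (hlift _).symm
  have hfbn : ∀ n x, red ((pw G)^[n] x) = fb^[n] (red x) := by
    intro n
    induction n with
    | zero => exact fun x => rfl
    | succ n ih =>
      intro x
      rw [Function.iterate_succ_apply', hfb1, ih, Function.iterate_succ_apply']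
  obtain ⟨a, ha⟩ := ev_per fb
  have hcl : ∀ c : ι → ZMod p, ∃ K0 : ℕ, 0 < K0 ∧ ∀ K : ℕ, 0 < K → K0 ∣ K → ∃ μ : ℕ,
      ∀ x ∈ Ω, red x = c → (∃ k, 0 < k ∧ fb^[k] c = c) →
        GapP p μ {n | ∀ h ∈ H, eval ((pw G)^[K * n] x) h = 0} := by
    intro c
    by_cases hc : ∃ k, 0 < k ∧ fb^[k] c = c
    · obtain ⟨k, hk, hkc⟩ := hc
      obtain ⟨K0, hK0, h⟩ := class_gap hp2 G Ω hΩ hst H hH (lift c) k hk (by
        rw [hfbn, hlift, hkc])
      refine ⟨K0, hK0, fun K hK hdvd => ?_⟩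
      obtain ⟨μ, hμ⟩ := h K hK hdvd
      exact ⟨μ, fun x hx hxc _ => hμ x hx (by rw [hxc, hlift])⟩
    · exact ⟨1, one_pos, fun K _ _ => ⟨0, fun x _ _ h => absurd h hc⟩⟩
  choose K0 hK0 hcl using hcl
  set K := ∏ c, K0 c with hK
  have hKpos : 0 < K := Finset.prod_pos fun c _ => hK0 c
  choose μ hμ using fun c => hcl c K hKpos (Finset.dvd_prod_of_mem K0 (Finset.mem_univ c))
  have hstn : ∀ n, ∀ x ∈ Ω, (pw G)^[n] x ∈ Ω := by
    intro n
    induction n with
    | zero => exact fun x hx => hx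
    | succ n ih =>
      intro x hx
      rw [Function.iterate_succ_apply']
      exact hst _ (ih x hx)
  refine ⟨a, K, (∑ c, μ c) + 1, hKpos, Nat.succ_pos _, fun x hx t ht => ?_⟩
  have h1 := hμ (red ((pw G)^[t] x)) ((pw G)^[t] x) (hstn t x hx) rfl (by
    obtain ⟨m, hm, h⟩ := ha (red x) t ht
    refine ⟨m, hm, ?_⟩
    rw [hfbn, h])
  have h2 : {n | ∀ h ∈ H, eval ((pw G)^[t + K * n] x) h = 0} =
      {n | ∀ h ∈ H, eval ((pw G)^[K * n] ((pw G)^[t] x)) h = 0} := by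
    ext n
    simp only [Set.mem_ofPred_eq]
    rw [← Function.iterate_add_apply, add_comm t]
  rw [h2]
  refine h1.mono hp.1.pos ?_
  have h3 : μ (red ((pw G)^[t] x)) ≤ ∑ c, μ c :=
    Finset.single_le_sum (f := μ) (fun _ _ => Nat.zero_le _) (Finset.mem_univ _)
  omega

end Pool.Agent.Q170.GP
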