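import Pool.Agent.Q170.GP.Seq
import Pool.Agent.Q170.GP.Glob

/-!
# A uniform bound for the number of zeros
-/

set_option autoImplicit false

open Polynomial

namespace Pool.Agent.Q170.GP

variable {p : ℕ} [hp : Fact p.Prime]

/-- The number of zeros. -/
theorem count_seq (hp2 : p ≠ 2) (g : ℕ → ℤ_[p])
    (hg : ∀ i n, (p : ℤ_[p]) ^ i ∣ (fwdDiff 1)^[i] g n) (μ : ℕ)
    (hμ : ∃ n, ¬ (p : ℤ_[p]) ^ μ ∣ g n) (A : Finset ℕ) (hA : ∀ n ∈ A, g n = 0) :
    A.card ≤ 2 * μ := by
  by_contra hc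
  push Not at hc
  obtain ⟨L, hL⟩ : ∃ L : ℕ, ∀ n ∈ A, n ≤ L := ⟨A.sup id, fun n hn => Finset.le_sup (f := id) hn⟩
  obtain ⟨t, ht⟩ : ∃ t : ℕ, p ^ μ * L ^ (2 * μ) < p ^ t := by
    obtain ⟨t, ht⟩ := pow_unbounded_of_one_lt (p ^ μ * L ^ (2 * μ)) hp.1.one_lt
    exact ⟨t, ht⟩
  refine absurd ?_ (not_lt.2 ht.le)
  classical
  choose e he hdiv using fun i => exists_coeff hp2 i _ (hg i 0)
  -- Newton's formula
  have hnewton : ∀ n I : ℕ, n < I → g n = ∑ k ∈ Finset.range I, (n.descFactorial k : ℤ_[p]) * e k := by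
    intro n I hnI
    have h1 := shift_eq_sum_fwdDiff_iter (1 : ℕ) g n 0
    rw [zero_add, smul_eq_mul, mul_one] at h1
    rw [h1]
    have h2 : Finset.range (n + 1) ⊆ Finset.range I := Finset.range_subset_range.2 hnI
    rw [← Finset.sum_subset h2]
    · apply Finset.sum_congr rfl
      intro k _
      rw [he k, nsmul_eq_mul, ← mul_assoc, Nat.descFactorial_eq_factorial_mul_choose]
      push_cast
      ring
    · intro k _ hk
      rw [Finset.mem_range, not_lt] at hk
      rw [Nat.descFactorial_eq_zero_iff_lt.2 (by omega), Nat.cast_zero, zero_mul]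
  -- the index
  have hex : ∃ k, ¬ (p : ℤ_[p]) ^ μ ∣ e k := by
    by_contra hcon
    push Not at hcon
    obtain ⟨n, hn⟩ := hμ
    apply hn
    rw [hnewton n (n + 1) (Nat.lt_succ_self n)]
    exact Finset.dvd_sum fun k _ => Dvd.dvd.mul_left (hcon k) _
  have hbd : ∀ k, ¬ (p : ℤ_[p]) ^ μ ∣ e k → k ≤ 2 * μ := by
    intro k hk
    by_contra hcon
    push Not at hcon
    exact hk ((pow_dvd_pow _ (by omega)).trans (hdiv k))
  obtain ⟨k0, hk0⟩ := hex
  set m := Nat.findGreatest (fun k => ¬ (p : ℤ_[p]) ^ μ ∣ e k) (2 * μ) with hm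
  have hm1 : ¬ (p : ℤ_[p]) ^ μ ∣ e m := Nat.findGreatest_spec (P := fun k => ¬ (p : ℤ_[p]) ^ μ ∣ e k)
    (hbd k0 hk0) hk0
  have hm2 : ∀ k, m < k → (p : ℤ_[p]) ^ μ ∣ e k := by
    intro k hk
    by_contra hcon
    exact Nat.findGreatest_is_greatest hk (hbd k hcon) hcon
  have hm3 : m ≤ 2 * μ := Nat.findGreatest_le _
  have hq : ∀ k, ∃ c, m < k → e k = (p : ℤ_[p]) ^ μ * c := by
    intro k
    by_cases hk : m < k
    · obtain ⟨c, hc⟩ := hm2 k hk
      exact ⟨c, fun _ => hc⟩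
    · exact ⟨0, fun h => absurd h hk⟩
  choose q hq using hq
  set Q1 : ℤ_[p][X] := ∑ k ∈ Finset.range (m + 1), C (e k) * descPochhammer ℤ_[p] k with hQ1
  set Q2 : ℤ_[p][X] := ∑ k ∈ Finset.Ico (m + 1) (L + m + 2), C (q k) * descPochhammer ℤ_[p] k with hQ2
  have hdeg : Q1.natDegree ≤ m := by
    refine natDegree_sum_le_of_forall_le _ _ fun k hk => ?_
    rw [Finset.mem_range] at hk
    refine (natDegree_C_mul_le _ _).trans ?_
    rw [descPochhammer_natDegree]
    omega
  have hlead : Q1.coeff m = e m := by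
    rw [hQ1, finsetSum_coeff, Finset.sum_range_succ, Finset.sum_eq_zero, zero_add, coeff_C_mul]
    · have h1 := (monic_descPochhammer ℤ_[p] m).coeff_natDegree
      rw [descPochhammer_natDegree] at h1
      rw [h1, mul_one]
    · intro k hk
      rw [Finset.mem_range] at hk
      rw [coeff_C_mul, coeff_eq_zero_of_natDegree_lt, mul_zero]
      rwa [descPochhammer_natDegree]
  have heval : ∀ a, a ≤ L → (Q1 + C ((p : ℤ_[p]) ^ μ) * Q2).eval (a : ℤ_[p]) = g a := by
    intro a ha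
    rw [hnewton a (L + m + 2) (by omega), ← Finset.sum_range_add_sum_Ico _ (show m + 1 ≤ L + m + 2 by omega)]
    rw [eval_add, eval_mul, eval_C, hQ1, hQ2, eval_finsetSum, eval_finsetSum, Finset.mul_sum]
    congr 1
    · apply Finset.sum_congr rfl
      intro k _
      rw [eval_mul, eval_C, descPochhammer_eval_eq_descFactorial, mul_comm]
    · apply Finset.sum_congr rfl
      intro k hk
      rw [Finset.mem_Ico] at hk
      rw [eval_mul, eval_C, descPochhammer_eval_eq_descFactorial, hq k (by omega)]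
      ring
  have h1 := strassmann μ m Q1 Q2 hdeg (by rwa [hlead]) A (by omega) L t hL (by
    intro a ha
    rw [heval a (hL a ha), hA a ha]
    exact dvd_zero _)
  refine lt_of_lt_of_le h1 (Nat.mul_le_mul_left _ ?_)
  rcases Nat.eq_zero_or_pos L with hL0 | hL0
  · have hμ0 : μ ≠ 0 := by
      rintro rfl
      obtain ⟨n, hn⟩ := hμ
      exact hn (by rw [pow_zero]; exact one_dvd _)
    subst hL0
    have h4 : A ⊆ {0} := fun a ha => by
      rw [Finset.mem_singleton]
      exact Nat.le_zero.1 (hL a ha)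
    have := Finset.card_le_card h4
    rw [Finset.card_singleton] at this
    omega
  · exact Nat.pow_le_pow_right hL0 hm3

end Pool.Agent.Q170.GP
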