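import Pool.Agent.Q170.GP.MatGap

/-!
# Points of bounded degree
-/

set_option autoImplicit false

open MvPolynomial Filter Topology

namespace Pool.Agent.Q170.GP

open Pool.Agent.H936R2 (pt pt_map eval_scale iterate_scale)

theorem Sparse.mono {M M' : ℕ} {b b' C C' : ℝ} {S : Set ℕ} (h : Sparse M b C S) (hM : M ≤ M')
    (hb0 : 0 ≤ b') (hb : b' ≤ b) (hC : C ≤ C') : Sparse M' b' C' S := by
  intro X
  refine le_trans (Set.encard_le_encard ?_) ((h X).trans (by exact_mod_cast hM))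
  rintro n ⟨h1, h2, h3⟩
  refine ⟨h1, h2, lt_of_le_of_lt ?_ (lt_of_lt_of_le h3 (pow_le_pow_left₀ hb0 hb X))⟩
  exact mul_le_mul_of_nonneg_right hC (Nat.cast_nonneg n)

/-- The data of an endomorphism of projective space modulo a large prime number. -/
theorem exists_model' {N : ℕ} (F : Fin (N + 1) → MvPolynomial (Fin (N + 1)) ℂ)
    (hF0 : ∀ x : Fin (N + 1) → ℂ, (∀ i, eval x (F i) = 0) → x = 0)
    (T : Finset (MvPolynomial (Fin (N + 1)) ℂ)) (s : Finset ℂ) (B : ℕ) :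
    ∃ (p : ℕ) (_ : Fact p.Prime), B < p ∧ ∃ (θ : ℚ_[p] →+* ℂ)
      (Fp : Fin (N + 1) → MvPolynomial (Fin (N + 1)) ℤ_[p]), (∀ i, map (tht θ) (Fp i) = F i) ∧
      (∀ z ∈ s, ∃ y : ℤ_[p], tht θ y = z) ∧
      (∀ g ∈ T, ∃ h : MvPolynomial (Fin (N + 1)) ℤ_[p], map (tht θ) h = g) ∧
      ∃ (e : Fin (N + 1) → ℕ) (A : Fin (N + 1) → Fin (N + 1) → MvPolynomial (Fin (N + 1)) ℤ_[p]),
        ∀ i, (X i : MvPolynomial (Fin (N + 1)) ℤ_[p]) ^ e i = ∑ j, A i j * Fp j := by
  classical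
  have hcert : ∀ i : Fin (N + 1), ∃ (e : ℕ) (A : Fin (N + 1) → MvPolynomial (Fin (N + 1)) ℂ),
      (X i : MvPolynomial (Fin (N + 1)) ℂ) ^ e = ∑ j, A j * F j := by
    intro i
    obtain ⟨e, he⟩ := exists_power (Set.range F) (X i) (by
      intro x hx
      rw [eval_X, hF0 x fun j => hx _ ⟨j, rfl⟩]
      rfl)
    obtain ⟨A, hA⟩ := exists_cert F _ he
    exact ⟨e, A, hA⟩
  choose e A hA using hcert
  set s' : Finset ℂ := s ∪ (Finset.univ.biUnion fun i => coefs (F i)) ∪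
    (Finset.univ.biUnion fun q : Fin (N + 1) × Fin (N + 1) => coefs (A q.1 q.2)) ∪
    (T.biUnion fun g => coefs g) with hs'
  obtain ⟨p, hp, hB, θ, hθ⟩ := exists_place s' B
  have hθ' : ∀ z ∈ s', ∃ y : ℤ_[p], tht θ y = z := hθ
  have hFc : ∀ i, ∃ Q : MvPolynomial (Fin (N + 1)) ℤ_[p], map (tht θ) Q = F i := fun i =>
    exists_lift_poly (tht θ) _ fun z hz => hθ' z (by
      simp only [hs', Finset.mem_union, Finset.mem_biUnion]
      exact Or.inl (Or.inl (Or.inr ⟨i, Finset.mem_univ _, hz⟩)))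
  choose Fp hFp using hFc
  have hAc : ∀ i j, ∃ Q : MvPolynomial (Fin (N + 1)) ℤ_[p], map (tht θ) Q = A i j := fun i j =>
    exists_lift_poly (tht θ) _ fun z hz => hθ' z (by
      simp only [hs', Finset.mem_union, Finset.mem_biUnion]
      exact Or.inl (Or.inr ⟨(i, j), Finset.mem_univ _, hz⟩))
  choose Ap hAp using hAc
  refine ⟨p, hp, hB, θ, Fp, hFp, fun z hz => hθ' z (by
      simp only [hs', Finset.mem_union]
      exact Or.inl (Or.inl (Or.inl hz))), fun g hg => ?_, e, Ap, fun i => ?_⟩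
  · exact exists_lift_poly (tht θ) _ fun z hz => hθ' z (by
      simp only [hs', Finset.mem_union, Finset.mem_biUnion]
      exact Or.inr ⟨g, hg, hz⟩)
  · apply map_injective (tht θ) (tht_injective θ)
    rw [map_pow, map_X, hA i, map_sum]
    refine Finset.sum_congr rfl fun j _ => ?_
    rw [map_mul, hAp, hFp]

section integral

variable {p : ℕ} [hp : Fact p.Prime]

/-- The quotients by a suitable coordinate are integral. -/
theorem exists_integral (θ : ℚ_[p] →+* ℂ) {n : ℕ} (α : Fin n → ℂ) (hα : α ≠ 0)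
    (halg : ∀ i, ∃ P : Polynomial ℚ_[p], P.Monic ∧ P.eval₂ θ (α i) = 0) :
    ∃ i0, α i0 ≠ 0 ∧ ∀ i, (tht θ).IsIntegralElem (α i / α i0) := by
  classical
  let _ : Algebra ℚ_[p] ℂ := θ.toAlgebra
  have hint : ∀ i, IsIntegral ℚ_[p] (α i) := halg
  set E : IntermediateField ℚ_[p] ℂ := algebraicClosure ℚ_[p] ℂ with hE
  have hal : Algebra.IsAlgebraic ℚ_[p] E := algebraicClosure.isAlgebraic ℚ_[p] ℂ
  have hmem : ∀ i, α i ∈ E := fun i => (mem_algebraicClosure_iff).2 (hint i).isAlgebraic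
  set ν : MulAlgebraNorm ℚ_[p] E := spectralMulAlgNorm ℚ_[p] E with hν
  set a : Fin n → E := fun i => ⟨α i, hmem i⟩ with ha
  obtain ⟨i1, hi1⟩ : ∃ i, α i ≠ 0 := Function.ne_iff.1 hα
  obtain ⟨i0, -, hmax⟩ := Finset.exists_max_image (Finset.univ : Finset (Fin n))
    (fun i => ν (a i)) ⟨i1, Finset.mem_univ _⟩
  have hpos : ∀ x : E, x ≠ 0 → 0 < ν x := fun x hx => map_pos_of_ne_zero ν hx
  have hi0 : a i0 ≠ 0 := by
    intro h0
    have h1 := hmax i1 (Finset.mem_univ _)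
    rw [h0, map_zero] at h1
    have h2 : a i1 ≠ 0 := fun h => hi1 (congrArg Subtype.val h)
    exact absurd h1 (not_le.2 (hpos _ h2))
  refine ⟨i0, fun h => hi0 (Subtype.ext h), fun i => ?_⟩
  have h1 : ν (a i / a i0) ≤ 1 := by
    have h2 : ν (a i) = ν (a i / a i0) * ν (a i0) := by
      rw [← map_mul, div_mul_cancel₀ _ hi0]
    have h3 := hmax i (Finset.mem_univ _)
    have h4 := hpos _ hi0
    by_contra hcon
    push Not at hcon
    nlinarith
  set w : E := a i / a i0 with hw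
  have hwint : IsIntegral ℚ_[p] w := (hal.isAlgebraic w).isIntegral
  have h5 : ∀ k, ‖(minpoly ℚ_[p] w).coeff k‖ ≤ 1 :=
    (spectralValue_le_one_iff (minpoly.monic hwint)).1 h1
  have h6 : minpoly ℚ_[p] w ∈ Polynomial.lifts (PadicInt.Coe.ringHom (p := p)) := by
    rw [Polynomial.lifts_iff_coeff_lifts]
    intro k
    exact ⟨⟨_, h5 k⟩, rfl⟩
  obtain ⟨Q, hQ1, -, hQ3⟩ := Polynomial.lifts_and_natDegree_eq_and_monic h6 (minpoly.monic hwint)
  refine ⟨Q, hQ3, ?_⟩
  have h7 : Polynomial.eval₂ (tht θ) (α i / α i0) Q =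
      Polynomial.eval₂ θ (α i / α i0) (minpoly ℚ_[p] w) := by
    rw [← hQ1, Polynomial.eval₂_map]
    rfl
  rw [h7]
  have h8 := congrArg Subtype.val (minpoly.aeval ℚ_[p] w)
  have h9 : ((Polynomial.aeval w (minpoly ℚ_[p] w) : E) : ℂ) =
      Polynomial.aeval (w : ℂ) (minpoly ℚ_[p] w) := by
    exact (Polynomial.aeval_algebraMap_apply ℂ w (minpoly ℚ_[p] w)).symm
  rw [h9] at h8
  exact h8

/-- Integral coordinates become commuting matrices. -/
theorem exists_matrices (θ : ℚ_[p] →+* ℂ) {n : ℕ} (w : Fin n → ℂ)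
    (hw : ∀ i, (tht θ).IsIntegralElem (w i)) (i0 : Fin n) (hi0 : w i0 = 1) (L : Subring ℂ)
    (hL : ∀ i, w i ∈ L) (D : ℕ) (u : Fin D → ℂ)
    (hu : ∀ x ∈ L, ∃ c : Fin D → ℚ_[p], x = ∑ j, θ (c j) * u j) :
    ∃ d, 0 < d ∧ d ≤ D ∧ ∃ B : Fin n → Matrix (Fin d) (Fin d) ℤ_[p], ent B ∈ OmM p n d ∧
      ∀ (F : Fin n → MvPolynomial (Fin n) ℤ_[p]) (m : ℕ) (h : MvPolynomial (Fin n) ℤ_[p]),
        evM (RingHom.id _) h ((stp F)^[m] B) = 0 ↔
          eval ((pt fun i => map (tht θ) (F i))^[m] w) (map (tht θ) h) = 0 := by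
  classical
  let _ : Algebra ℚ_[p] ℂ := θ.toAlgebra
  let _ : Algebra ℤ_[p] ℂ := (tht θ).toAlgebra
  have htower : IsScalarTower ℤ_[p] ℚ_[p] ℂ := IsScalarTower.of_algebraMap_eq fun x => rfl
  have hint : ∀ i, IsIntegral ℤ_[p] (w i) := hw
  set 𝒜 : Subalgebra ℤ_[p] ℂ := Algebra.adjoin ℤ_[p] (Set.range w) with h𝒜
  have hfg : 𝒜.toSubmodule.FG := fg_adjoin_of_finite (Set.finite_range w) (by
    rintro _ ⟨i, rfl⟩
    exact hint i)
  have hfin : Module.Finite ℤ_[p] 𝒜 := Module.Finite.iff_fg.2 hfg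
  have htf : Module.IsTorsionFree ℤ_[p] 𝒜 := Module.isTorsionFree_iff_smul_eq_zero.2 (by
    intro r x h0
    have h1 := congrArg Subtype.val h0
    have h2 : tht θ r * (x : ℂ) = 0 := h1
    rcases mul_eq_zero.1 h2 with h3 | h3
    · exact Or.inl (tht_injective θ (by rw [h3, map_zero]))
    · exact Or.inr (Subtype.ext h3))
  have hfree : Module.Free ℤ_[p] 𝒜 := Module.free_of_finite_type_torsion_free'
  set bas := Module.finBasis ℤ_[p] 𝒜 with hbas
  set d : ℕ := Module.finrank ℤ_[p] 𝒜 with hd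
  have hd0 : 0 < d := Module.finrank_pos
  have hli : LinearIndependent ℚ_[p] fun j => ((bas j : 𝒜) : ℂ) := by
    rw [← LinearIndependent.iff_fractionRing ℤ_[p] ℚ_[p]]
    exact bas.linearIndependent.map' 𝒜.val.toLinearMap (by
      rw [LinearMap.ker_eq_bot]
      exact Subtype.coe_injective)
  have hsub : ∀ x ∈ 𝒜, x ∈ Submodule.span ℚ_[p] (Set.range u) := by
    have h1 : 𝒜 ≤ (Algebra.adjoin ℚ_[p] (L : Set ℂ)).restrictScalars ℤ_[p] := by
      refine Algebra.adjoin_le ?_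
      rintro _ ⟨i, rfl⟩
      exact Algebra.subset_adjoin (hL i)
    intro x hx
    have h2 : x ∈ Subalgebra.toSubmodule (Algebra.adjoin ℚ_[p] (L : Set ℂ)) := h1 hx
    rw [Algebra.adjoin_eq_span] at h2
    have h3 : Submonoid.closure (L : Set ℂ) = L.toSubmonoid := Submonoid.closure_eq L.toSubmonoid
    rw [h3] at h2
    have h4 : Submodule.span ℚ_[p] ((L.toSubmonoid : Submonoid ℂ) : Set ℂ) ≤
        Submodule.span ℚ_[p] (Set.range u) := by
      rw [Submodule.span_le]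
      intro y hy
      obtain ⟨c, rfl⟩ := hu y hy
      exact Submodule.sum_mem _ fun j _ =>
        Submodule.smul_mem _ (c j) (Submodule.subset_span ⟨j, rfl⟩)
    exact h4 h2
  have hdD : d ≤ D := by
    have h1 := linearIndependent_le_span' (fun j => ((bas j : 𝒜) : ℂ)) hli (Set.range u) (by
      rintro _ ⟨j, rfl⟩
      exact hsub _ (bas j).2)
    have h2 : Fintype.card (Set.range u) ≤ D := by
      have h3 := Fintype.card_range_le u
      rwa [Fintype.card_fin] at h3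
    rw [Cardinal.mk_fin] at h1
    exact (by exact_mod_cast h1 : d ≤ Fintype.card (Set.range u)).trans h2
  have hmem : ∀ i, w i ∈ 𝒜 := fun i => Algebra.subset_adjoin ⟨i, rfl⟩
  set a : Fin n → 𝒜 := fun i => ⟨w i, hmem i⟩ with ha
  set g : ℤ_[p] →+* 𝒜 := algebraMap ℤ_[p] 𝒜 with hg
  set ψ : 𝒜 →+* Matrix (Fin d) (Fin d) ℤ_[p] := (Algebra.leftMulMatrix bas).toRingHom with hψ
  have hψi : Function.Injective ψ := Algebra.leftMulMatrix_injective bas
  have hψg : ∀ r, ψ (g r) = Matrix.scalar (Fin d) r := fun r =>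
    (Algebra.leftMulMatrix bas).commutes r
  have hval : ∀ (x : Fin n → 𝒜) (P : MvPolynomial (Fin n) ℤ_[p]),
      ((eval₂ g x P : 𝒜) : ℂ) = eval (fun i => (x i : ℂ)) (map (tht θ) P) := by
    intro x P
    rw [eval_map]
    exact eval₂_comp_left 𝒜.val.toRingHom g x P
  refine ⟨d, hd0, hdD, fun i => ψ (a i), ?_, fun F m h => ?_⟩
  · refine ⟨ent fun i => ψ (if i = i0 then 1 else 0), ?_, ?_, ?_, ?_⟩
    · intro i j
      change ψ (a i) * ψ (a j) = ψ (a j) * ψ (a i)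
      rw [← map_mul, ← map_mul, mul_comm]
    · intro i j
      change ψ (a i) * ψ (if j = i0 then 1 else 0) = ψ (if j = i0 then 1 else 0) * ψ (a i)
      rw [← map_mul, ← map_mul, mul_comm]
    · intro i j
      change ψ (if i = i0 then 1 else 0) * ψ (if j = i0 then 1 else 0) =
        ψ (if j = i0 then 1 else 0) * ψ (if i = i0 then 1 else 0)
      rw [← map_mul, ← map_mul, mul_comm]
    · change ∑ i, ψ (if i = i0 then 1 else 0) * ψ (a i) = 1
      rw [Finset.sum_eq_single i0]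
      · rw [if_pos rfl, map_one, one_mul, ← map_one ψ]
        congr 1
        exact Subtype.ext hi0
      · intro i _ hi
        rw [if_neg hi, map_zero, zero_mul]
      · intro hi
        exact absurd (Finset.mem_univ _) hi
  · rw [stp_hom g ψ hψg F a m, evM_hom (RingHom.id _) g ψ hψg]
    have hit : ∀ k, (fun i => (((fun (y : Fin n → 𝒜) (j : Fin n) => eval₂ g y (F j))^[k] a i : 𝒜) :
        ℂ)) = (pt fun i => map (tht θ) (F i))^[k] w := by
      intro k
      induction k with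
      | zero => rfl
      | succ k ih =>
        rw [Function.iterate_succ_apply', Function.iterate_succ_apply', ← ih]
        funext i
        exact hval _ (F i)
    rw [← hit m, ← hval]
    constructor
    · intro h0
      rw [hψi (h0.trans (map_zero ψ).symm)]
      rfl
    · intro h0
      rw [show eval₂ g _ h = (0 : 𝒜) from Subtype.ext h0, map_zero]

/-- The matrices of a point of bounded degree. -/
theorem deg_point (θ : ℚ_[p] →+* ℂ) {n : ℕ} (K : Subfield ℂ) (hK : K ≤ θ.fieldRange)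
    (L : IntermediateField K ℂ) [FiniteDimensional K L] (α : Fin n → ℂ) (hα : α ≠ 0)
    (hαL : ∀ i, α i ∈ L) :
    ∃ i0, α i0 ≠ 0 ∧ ∃ d, 0 < d ∧ d ≤ Module.finrank K L ∧
      ∃ B : Fin n → Matrix (Fin d) (Fin d) ℤ_[p], ent B ∈ OmM p n d ∧
      ∀ (F : Fin n → MvPolynomial (Fin n) ℤ_[p]) (m : ℕ) (h : MvPolynomial (Fin n) ℤ_[p]),
        evM (RingHom.id _) h ((stp F)^[m] B) = 0 ↔
          eval ((pt fun i => map (tht θ) (F i))^[m] fun i => α i / α i0) (map (tht θ) h) = 0 := by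
  classical
  have hφ : ∀ z : K, ∃ y : ℚ_[p], θ y = z := fun z => hK z.2
  have halg : ∀ i, ∃ P : Polynomial ℚ_[p], P.Monic ∧ P.eval₂ θ (α i) = 0 := by
    intro i
    have h1 : IsIntegral K (⟨α i, hαL i⟩ : L) := IsIntegral.of_finite K _
    obtain ⟨P, hP1, hP2⟩ := h1
    have h2 : P.map (algebraMap K ℂ) ∈ Polynomial.lifts θ := by
      rw [Polynomial.lifts_iff_coeff_lifts]
      intro k
      rw [Polynomial.coeff_map]
      obtain ⟨y, hy⟩ := hφ (P.coeff k)
      exact ⟨y, hy⟩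
    obtain ⟨Q, hQ1, -, hQ3⟩ := Polynomial.lifts_and_natDegree_eq_and_monic h2 (hP1.map _)
    refine ⟨Q, hQ3, ?_⟩
    rw [← Polynomial.eval_map, hQ1, Polynomial.eval_map]
    have h3 := congrArg (algebraMap L ℂ) hP2
    rw [Polynomial.hom_eval₂, map_zero] at h3
    exact h3
  choose φ hφ using hφ
  set bas := Module.finBasis K L with hbas
  have hspan : ∀ x ∈ L.toSubring, ∃ c : Fin (Module.finrank K L) → ℚ_[p],
      x = ∑ j, θ (c j) * (bas j : ℂ) := by
    intro x hx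
    have h1 := bas.sum_repr ⟨x, hx⟩
    refine ⟨fun j => φ (bas.repr ⟨x, hx⟩ j), ?_⟩
    have h2 := congrArg (algebraMap L ℂ) h1
    rw [map_sum] at h2
    have h3 : x = algebraMap L ℂ ⟨x, hx⟩ := rfl
    conv_lhs => rw [h3, ← h2]
    refine Finset.sum_congr rfl fun j _ => ?_
    rw [hφ]
    rfl
  obtain ⟨i0, hi0, hint⟩ := exists_integral θ α hα halg
  obtain ⟨d1, hd1, hd2, B, hB1, hB2⟩ := exists_matrices θ (fun i => α i / α i0) hint i0
    (div_self hi0) L.toSubring (fun i => L.div_mem (hαL i) (hαL i0)) _ (fun j => (bas j : ℂ)) hspan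
  exact ⟨i0, hi0, d1, hd1, hd2, B, hB1, hB2⟩

end integral

/-- **The gap theorem for points of bounded degree.** -/
theorem proj_gap_deg {N d : ℕ} (F : Fin (N + 1) → MvPolynomial (Fin (N + 1)) ℂ)
    (hF : ∀ i, (F i).IsHomogeneous d)
    (hF0 : ∀ x : Fin (N + 1) → ℂ, (∀ i, eval x (F i) = 0) → x = 0)
    (S : Set (MvPolynomial (Fin (N + 1)) ℂ)) (hS : ∀ g ∈ S, ∃ e : ℕ, g.IsHomogeneous e)
    (hV : ∀ x : Fin (N + 1) → ℂ, x ≠ 0 → ∀ k : ℕ, 0 < k →
      ∃ n, ∃ g ∈ S, eval ((pt F)^[k * n] x) g ≠ 0) (s : Finset ℂ) (D : ℕ) :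
    ∃ (M : ℕ) (b C : ℝ), 1 < b ∧ 0 < C ∧
      ∀ L : IntermediateField (Subfield.closure (s : Set ℂ)) ℂ,
      FiniteDimensional (Subfield.closure (s : Set ℂ)) L →
      Module.finrank (Subfield.closure (s : Set ℂ)) L ≤ D →
      ∀ α : Fin (N + 1) → ℂ, α ≠ 0 → (∀ i, α i ∈ L) →
      Sparse M b C {n | ∀ g ∈ S, eval ((pt F)^[n] α) g = 0} := by
  classical
  obtain ⟨S', hS1, hS2⟩ := exists_finite_sub S
  obtain ⟨p, hp, hB, θ, Fp, hFp, hs, hT, e, A, hA⟩ := exists_model' F hF0 S' s 2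
  set H : Set (MvPolynomial (Fin (N + 1)) ℤ_[p]) := {h | map (tht θ) h ∈ S'} with hH
  have hFp' : (fun i => map (tht θ) (Fp i)) = F := funext hFp
  have hHS : ∀ x : Fin (N + 1) → ℂ, (∀ h ∈ H, eval x (map (tht θ) h) = 0) →
      ∀ g ∈ S, eval x g = 0 := by
    intro x hx
    refine hS2 x fun g hg => ?_
    obtain ⟨h, hh⟩ := hT g hg
    rw [← hh]
    exact hx h (by rw [hH, Set.mem_ofPred_eq, hh]; exact hg)
  have key : ∀ d1 : ℕ, ∃ (M : ℕ) (b C : ℝ), 1 < b ∧ 0 < C ∧ (0 < d1 →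
      ∀ B : Fin (N + 1) → Matrix (Fin d1) (Fin d1) ℤ_[p], ent B ∈ OmM p (N + 1) d1 →
        Sparse M b C {m | ∀ h ∈ H, evM (RingHom.id _) h ((stp Fp)^[m] B) = 0}) := by
    intro d1
    rcases Nat.eq_zero_or_pos d1 with h0 | h0
    · exact ⟨0, 2, 1, by norm_num, by norm_num, fun h => absurd h (by omega)⟩
    · obtain ⟨M, b, C, hb, hC, h⟩ := mat_gap (by omega) θ h0 Fp e A hA H (by
        intro x hx k hk
        obtain ⟨m, g, hg, hne⟩ := hV x hx k hk
        refine ⟨m, ?_⟩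
        by_contra hcon
        push Not at hcon
        rw [hFp'] at hcon
        exact hne (hHS _ hcon g hg))
      exact ⟨M, b, C, hb, hC, fun _ => h⟩
  choose M b C hb hC hkey using key
  obtain ⟨b0, hb0, hb1⟩ : ∃ b0 : ℝ, 1 < b0 ∧ ∀ j ∈ Finset.range (D + 1), b0 ≤ b j := by
    refine ⟨(Finset.range (D + 1)).inf' ⟨0, by simp⟩ b, ?_, fun j hj => Finset.inf'_le _ hj⟩
    rw [Finset.lt_inf'_iff]
    exact fun j _ => hb j
  have hC0 : ∀ j ∈ Finset.range (D + 1), C j ≤ ∑ i ∈ Finset.range (D + 1), C i := fun j hj =>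
    Finset.single_le_sum (f := C) (fun i _ => (hC i).le) hj
  have hM0 : ∀ j ∈ Finset.range (D + 1), M j ≤ ∑ i ∈ Finset.range (D + 1), M i := fun j hj =>
    Finset.single_le_sum (f := M) (fun i _ => Nat.zero_le _) hj
  refine ⟨∑ i ∈ Finset.range (D + 1), M i, b0, ∑ i ∈ Finset.range (D + 1), C i, hb0, ?_,
    fun L hfin hDL α hα hαL => ?_⟩
  · exact lt_of_lt_of_le (hC 0) (hC0 0 (by simp))
  have hle : Subfield.closure (s : Set ℂ) ≤ θ.fieldRange := by
    rw [Subfield.closure_le]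
    intro z hz
    obtain ⟨y, hy⟩ := hs z hz
    exact ⟨(y : ℚ_[p]), hy⟩
  obtain ⟨i0, hi0, d1, hd1, hd2, B, hB1, hB2⟩ := deg_point θ _ hle L α hα hαL
  have hd3 : d1 ∈ Finset.range (D + 1) := by
    rw [Finset.mem_range]
    omega
  have hret : {n | ∀ g ∈ S, eval ((pt F)^[n] α) g = 0} =
      {m | ∀ h ∈ H, evM (RingHom.id _) h ((stp Fp)^[m] B) = 0} := by
    have hαx : α = fun i => α i0 * (α i / α i0) := by
      funext i
      field_simp
    ext n
    have hg0 : ∀ g ∈ S, (eval ((pt F)^[n] α) g = 0 ↔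
        eval ((pt F)^[n] fun i => α i / α i0) g = 0) := by
      intro g hg
      obtain ⟨e, he⟩ := hS g hg
      conv_lhs => rw [hαx]
      rw [iterate_scale F d hF, eval_scale g e he, mul_eq_zero]
      constructor
      · rintro (h | h)
        · exact absurd h (pow_ne_zero _ (pow_ne_zero _ hi0))
        · exact h
      · exact Or.inr
    simp only [Set.mem_ofPred_eq]
    constructor
    · intro h q hq
      rw [hB2 Fp n q, hFp']
      exact (hg0 _ (hS1 hq)).1 (h _ (hS1 hq))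
    · intro h g hg
      rw [hg0 g hg]
      refine hHS _ (fun q hq => ?_) g hg
      have h1 := (hB2 Fp n q).1 (h q hq)
      rwa [hFp'] at h1
  rw [hret]
  exact (hkey d1 hd1 B hB1).mono (hM0 d1 hd3) (by linarith) (hb1 d1 hd3) (hC0 d1 hd3)

end Pool.Agent.Q170.GP
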