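import Pool.Agent.Q170.GP.AR

/-!
# Return sets of all orbits of a piecewise polynomial map
-/

set_option autoImplicit false

open MvPolynomial Filter Topology

namespace Pool.Agent.Q170.GP

open Pool.Agent.H936R2 (pt)

variable {p : ℕ} [hp : Fact p.Prime] {ι : Type} [Fintype ι]

/-- On the residue class of `x0` an iterate is the identity modulo `p` on the polynomial functions. -/
def Nice (G : (ι → ZMod p) → ι → MvPolynomial ι ℤ_[p]) (Ω : Set (ι → ℤ_[p]))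
    (x0 : ι → ℤ_[p]) : Prop :=
  ∃ K : ℕ, 0 < K ∧ red ((pw G)^[K] x0) = red x0 ∧
    ∀ P : MvPolynomial ι ℤ_[p], ∃ P' : MvPolynomial ι ℤ_[p], ∀ u v : ι → ℤ_[p],
      (fun i => x0 i + p * u i) ∈ Ω →
      (pw G)^[K] (fun i => x0 i + p * u i) = (fun i => x0 i + p * v i) →
      eval v P = eval u P + p * eval u P'

/-- A nice residue class. -/
theorem class_nice (hp2 : p ≠ 2) (G : (ι → ZMod p) → ι → MvPolynomial ι ℤ_[p])
    (Ω : Set (ι → ℤ_[p])) (hst : ∀ x ∈ Ω, pw G x ∈ Ω)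
    (H : Set (MvPolynomial ι ℤ_[p])) (x0 : ι → ℤ_[p]) (hN : Nice G Ω x0) :
    ∃ K0 : ℕ, 0 < K0 ∧ ∀ K : ℕ, 0 < K → K0 ∣ K → ∃ μ : ℕ, ∀ x ∈ Ω, red x = red x0 →
      (∀ n, ∀ h ∈ H, eval ((pw G)^[K * n] x) h = 0) ∨
        ∀ A : Finset ℕ, (∀ n ∈ A, ∀ h ∈ H, eval ((pw G)^[K * n] x) h = 0) → A.card ≤ μ := by
  classical
  obtain ⟨K0, hK0, hred, hN⟩ := hN
  obtain ⟨Φ, -, hit⟩ := localise G x0 K0 hred
  refine ⟨K0, hK0, fun K hK hdvd => ?_⟩
  obtain ⟨q, rfl⟩ := hdvd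
  have hstn : ∀ n, ∀ x ∈ Ω, (pw G)^[n] x ∈ Ω := by
    intro n
    induction n with
    | zero => exact fun x hx => hx
    | succ n ih =>
      intro x hx
      rw [Function.iterate_succ_apply']
      exact hst _ (ih x hx)
  set Cs : Set (ι → ℤ_[p]) := {u | (fun i => x0 i + p * u i) ∈ Ω} with hCs
  have hstab : ∀ u ∈ Cs, ∀ n, (pt Φ)^[n] u ∈ Cs := by
    intro u hu n
    change (fun i => x0 i + p * (pt Φ)^[n] u i) ∈ Ω
    rw [← hit]
    exact hstn _ _ hu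
  set J : Ideal (MvPolynomial ι ℤ_[p]) := ⨅ u ∈ Cs, RingHom.ker (eval u) with hJ
  have hmem : ∀ P, P ∈ J ↔ ∀ u ∈ Cs, eval u P = 0 := by
    intro P
    simp only [hJ, Submodule.mem_iInf, RingHom.mem_ker]
  set τ : MvPolynomial ι ℤ_[p] →+* MvPolynomial ι ℤ_[p] := (bind₁ Φ).toRingHom with hτ
  have hτe : ∀ P u, eval u (τ P) = eval (pt Φ u) P := fun P u => eval_bind Φ u P
  have hle : J ≤ J.comap τ := by
    intro P hP
    rw [Ideal.mem_comap, hmem]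
    intro u hu
    rw [hτe]
    exact (hmem P).1 hP _ (hstab u hu 1)
  set T : MvPolynomial ι ℤ_[p] ⧸ J →+* MvPolynomial ι ℤ_[p] ⧸ J := Ideal.quotientMap J τ hle with hT
  have hTmk : ∀ P, T (Ideal.Quotient.mk J P) = Ideal.Quotient.mk J (τ P) := fun P =>
    Ideal.quotientMap_mk
  have hT1 : ∀ a, (p : MvPolynomial ι ℤ_[p] ⧸ J) ∣ T a - a := by
    intro a
    obtain ⟨P, rfl⟩ := Ideal.Quotient.mk_surjective a
    obtain ⟨P', hP'⟩ := hN P
    refine ⟨Ideal.Quotient.mk J P', ?_⟩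
    have h1 : (p : MvPolynomial ι ℤ_[p] ⧸ J) = Ideal.Quotient.mk J (C (p : ℤ_[p])) := by
      rw [map_natCast C, map_natCast]
    rw [hTmk, h1, ← map_mul, ← map_sub, Ideal.Quotient.eq, hmem]
    intro u hu
    have h2 := hP' u (pt Φ u) hu (by
      have h3 := hit 1 u
      rwa [mul_one, Function.iterate_one] at h3)
    rw [map_sub, map_sub, hτe, h2, eval_mul, eval_C]
    ring
  have hTq : ∀ a, (p : MvPolynomial ι ℤ_[p] ⧸ J) ∣ (T ^ q) a - a := by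
    intro a
    rw [RingHom.coe_pow]
    clear hK
    induction q with
    | zero => simp
    | succ q ih =>
      rw [Function.iterate_succ_apply']
      have h1 := (hT1 (T^[q] a)).add ih
      rwa [sub_add_sub_cancel] at h1
  obtain ⟨c, hc⟩ := uniform_count hp2 (T ^ q) hTq
    ((fun h => Ideal.Quotient.mk J (resc x0 h)) '' H)
  refine ⟨c, fun x hx hred => ?_⟩
  obtain ⟨u, rfl⟩ := exists_of_red hred
  have hu : u ∈ Cs := hx
  set φ : MvPolynomial ι ℤ_[p] ⧸ J →+* ℤ_[p] :=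
    Ideal.Quotient.lift J (eval u) (fun P hP => (hmem P).1 hP u hu) with hφ
  have hφm : ∀ P, φ (Ideal.Quotient.mk J P) = eval u P := fun P => Ideal.Quotient.lift_mk _ _ _
  have hTn : ∀ n P, T^[n] (Ideal.Quotient.mk J P) = Ideal.Quotient.mk J (τ^[n] P) := by
    intro n
    induction n with
    | zero => exact fun P => rfl
    | succ n ih =>
      intro P
      rw [Function.iterate_succ_apply', ih, hTmk, Function.iterate_succ_apply']
  have hτn : ∀ n P, eval u (τ^[n] P) = eval ((pt Φ)^[n] u) P := fun n P =>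
    eval_bind_iter Φ n u P
  have hval : ∀ h n, φ ((T ^ q)^[n] (Ideal.Quotient.mk J (resc x0 h))) =
      eval ((pw G)^[K0 * q * n] fun i => x0 i + p * u i) h := by
    intro h n
    rw [RingHom.coe_pow, ← Function.iterate_mul, hTn, hφm, hτn, eval_resc, mul_assoc, hit]
  rcases hc φ with h | h
  · refine Or.inl fun n g hg => ?_
    rw [← hval]
    exact h _ ⟨g, hg, rfl⟩ n
  · refine Or.inr fun A hA => h A ?_
    rintro n hn _ ⟨g, hg, rfl⟩
    rw [hval]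
    exact hA n hn g hg

/-- One residue class without points whose orbit stays. -/
theorem class_gap' (hp2 : p ≠ 2) (G : (ι → ZMod p) → ι → MvPolynomial ι ℤ_[p])
    (Ω : Set (ι → ℤ_[p])) (hΩ : IsClosed Ω) (hst : ∀ x ∈ Ω, pw G x ∈ Ω)
    (H : Set (MvPolynomial ι ℤ_[p])) (x0 : ι → ℤ_[p])
    (hH : ∀ β ∈ Ω, red β = red x0 → ∀ k : ℕ, 0 < k → ∃ h ∈ H, ∃ n, eval ((pw G)^[k * n] β) h ≠ 0)
    (k : ℕ) (hk0 : 0 < k) (hk : red ((pw G)^[k] x0) = red x0) :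
    ∃ K0 : ℕ, 0 < K0 ∧ ∀ K : ℕ, 0 < K → K0 ∣ K → ∃ μ : ℕ, ∀ x ∈ Ω, red x = red x0 →
      GapP p μ {n | ∀ h ∈ H, eval ((pw G)^[K * n] x) h = 0} := by
  obtain ⟨Φ, hΦ, hit⟩ := localise G x0 k hk
  obtain ⟨c, hc, hidem⟩ := exists_idem Φ hΦ
  refine ⟨k * c, Nat.mul_pos hk0 hc, fun K hK hdvd => ?_⟩
  obtain ⟨q, rfl⟩ := hdvd
  have hq : 0 < q := Nat.pos_of_mul_pos_left hK
  set m := c * q with hm
  have hm0 : 0 < m := Nat.mul_pos hc hq
  have hstn : ∀ n, ∀ x ∈ Ω, (pw G)^[n] x ∈ Ω := by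
    intro n
    induction n with
    | zero => exact fun x hx => hx
    | succ n ih =>
      intro x hx
      rw [Function.iterate_succ_apply']
      exact hst _ (ih x hx)
  have hsq : ∀ (h : MvPolynomial ι ℤ_[p]) (u : ι → ℤ_[p]) (n : ℕ), sq Φ m (resc x0 h) u n =
      eval ((pw G)^[k * c * q * n] (fun i => x0 i + p * u i)) h := by
    intro h u n
    have e1 : k * c * q * n = k * (m * n) := by rw [hm]; ring
    rw [e1, hit]
    unfold sq
    rw [eval_resc]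
  set Ω' : Set (ι → ℤ_[p]) := {u | (fun i => x0 i + p * u i) ∈ Ω} with hΩ'
  have hcont : Continuous fun u : ι → ℤ_[p] => (fun i => x0 i + (p : ℤ_[p]) * u i) :=
    continuous_pi fun i => continuous_const.add (continuous_const.mul (continuous_apply i))
  obtain ⟨μ, hμ⟩ := local_gap hp2 Φ m (hidem m hm0 (dvd_mul_right _ _)) Ω'
    (hΩ.preimage hcont) (by
      intro u hu
      change (fun i => x0 i + p * (pt Φ)^[m] u i) ∈ Ω
      rw [← hit]
      exact hstn _ _ hu) (resc x0 '' H) (by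
      intro β hβ
      obtain ⟨h, hh, n, hn⟩ := hH _ hβ (red_add x0 β) (k * c * q)
        (Nat.mul_pos (Nat.mul_pos hk0 hc) hq)
      exact ⟨resc x0 h, ⟨h, hh, rfl⟩, n, by rwa [hsq]⟩)
  refine ⟨μ, fun x hx hred => ?_⟩
  obtain ⟨u, rfl⟩ := exists_of_red hred
  intro A hA hcard X L hX hL
  refine hμ u hx A ?_ hcard X L hX hL
  rintro n hn _ ⟨h, hh, rfl⟩
  rw [hsq]
  exact hA n hn h hh

/-- From residue classes to all points. -/
theorem glob_core (G : (ι → ZMod p) → ι → MvPolynomial ι ℤ_[p])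
    (Ω : Set (ι → ℤ_[p])) (hst : ∀ x ∈ Ω, pw G x ∈ Ω) (H : Set (MvPolynomial ι ℤ_[p]))
    (Pr : ℕ → Set ℕ → Prop) (hmono : ∀ μ μ' S, μ ≤ μ' → Pr μ S → Pr μ' S)
    (hcl : ∀ x0 ∈ Ω, (∃ k, 0 < k ∧ red ((pw G)^[k] x0) = red x0) →
      ∃ K0 : ℕ, 0 < K0 ∧ ∀ K : ℕ, 0 < K → K0 ∣ K → ∃ μ : ℕ, ∀ x ∈ Ω, red x = red x0 →
        Pr μ {n | ∀ h ∈ H, eval ((pw G)^[K * n] x) h = 0}) :
    ∃ a K μ : ℕ, 0 < K ∧ 0 < μ ∧ ∀ x ∈ Ω, ∀ t, a ≤ t →
      Pr μ {n | ∀ h ∈ H, eval ((pw G)^[t + K * n] x) h = 0} := by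
  classical
  choose lift hlift using exists_lift (p := p) (ι := ι)
  set fb : (ι → ZMod p) → (ι → ZMod p) := fun c => red (pw G (lift c)) with hfb
  have hfb1 : ∀ x, red (pw G x) = fb (red x) := fun x => red_pw_congr G (hlift _).symm
  have hfbn : ∀ n x, red ((pw G)^[n] x) = fb^[n] (red x) := by
    intro n
    induction n with
    | zero => exact fun x => rfl
    | succ n ih =>
      intro x
      rw [Function.iterate_succ_apply', hfb1, ih, Function.iterate_succ_apply']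
  obtain ⟨a, ha⟩ := ev_per fb
  have hcl' : ∀ c : ι → ZMod p, ∃ K0 : ℕ, 0 < K0 ∧ ∀ K : ℕ, 0 < K → K0 ∣ K → ∃ μ : ℕ,
      ∀ x ∈ Ω, red x = c → (∃ k, 0 < k ∧ fb^[k] c = c) →
        Pr μ {n | ∀ h ∈ H, eval ((pw G)^[K * n] x) h = 0} := by
    intro c
    by_cases hc : ∃ x0 ∈ Ω, red x0 = c ∧ ∃ k, 0 < k ∧ fb^[k] c = c
    · obtain ⟨x0, hx0, hx0c, k, hk, hkc⟩ := hc
      obtain ⟨K0, hK0, h⟩ := hcl x0 hx0 ⟨k, hk, by rw [hfbn, hx0c, hkc]⟩
      refine ⟨K0, hK0, fun K hK hdvd => ?_⟩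
      obtain ⟨μ, hμ⟩ := h K hK hdvd
      exact ⟨μ, fun x hx hxc _ => hμ x hx (by rw [hxc, hx0c])⟩
    · exact ⟨1, one_pos, fun K _ _ => ⟨0, fun x hx hxc h => absurd ⟨x, hx, hxc, h⟩ hc⟩⟩
  choose K0 hK0 hcl' using hcl'
  set K := ∏ c, K0 c with hK
  have hKpos : 0 < K := Finset.prod_pos fun c _ => hK0 c
  choose μ hμ using fun c => hcl' c K hKpos (Finset.dvd_prod_of_mem K0 (Finset.mem_univ c))
  have hstn : ∀ n, ∀ x ∈ Ω, (pw G)^[n] x ∈ Ω := by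
    intro n
    induction n with
    | zero => exact fun x hx => hx
    | succ n ih =>
      intro x hx
      rw [Function.iterate_succ_apply']
      exact hst _ (ih x hx)
  refine ⟨a, K, (∑ c, μ c) + 1, hKpos, Nat.succ_pos _, fun x hx t ht => ?_⟩
  have h1 := hμ (red ((pw G)^[t] x)) ((pw G)^[t] x) (hstn t x hx) rfl (by
    obtain ⟨m, hm, h⟩ := ha (red x) t ht
    refine ⟨m, hm, ?_⟩
    rw [hfbn, h])
  have h2 : {n | ∀ h ∈ H, eval ((pw G)^[t + K * n] x) h = 0} =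
      {n | ∀ h ∈ H, eval ((pw G)^[K * n] ((pw G)^[t] x)) h = 0} := by
    ext n
    simp only [Set.mem_ofPred_eq]
    rw [← Function.iterate_add_apply, add_comm t]
  rw [h2]
  refine hmono _ _ _ ?_ h1
  have h3 : μ (red ((pw G)^[t] x)) ≤ ∑ c, μ c :=
    Finset.single_le_sum (f := μ) (fun _ _ => Nat.zero_le _) (Finset.mem_univ _)
  omega

/-- **Uniform return sets of piecewise polynomial maps**: the classes with staying points are nice. -/
theorem glob_dml (hp2 : p ≠ 2) (G : (ι → ZMod p) → ι → MvPolynomial ι ℤ_[p])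
    (Ω : Set (ι → ℤ_[p])) (hΩ : IsClosed Ω) (hst : ∀ x ∈ Ω, pw G x ∈ Ω)
    (H : Set (MvPolynomial ι ℤ_[p]))
    (hN : ∀ β ∈ Ω, (∃ k, 0 < k ∧ ∀ h ∈ H, ∀ n, eval ((pw G)^[k * n] β) h = 0) →
      ∀ x0 ∈ Ω, red x0 = red β → (∃ k, 0 < k ∧ red ((pw G)^[k] x0) = red x0) → Nice G Ω x0) :
    ∃ a K μ : ℕ, 0 < K ∧ 0 < μ ∧ ∀ x ∈ Ω, ∀ t, a ≤ t →
      (∀ n, ∀ h ∈ H, eval ((pw G)^[t + K * n] x) h = 0) ∨
        GapP p μ {n | ∀ h ∈ H, eval ((pw G)^[t + K * n] x) h = 0} := by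
  obtain ⟨a, K, μ, hK, hμ, h⟩ := glob_core G Ω hst H (fun μ S => (∀ n, n ∈ S) ∨ GapP p μ S) (by
      rintro μ μ' S hle (h | h)
      · exact Or.inl h
      · exact Or.inr (h.mono hp.1.pos hle)) (by
      intro x0 hx0 hper
      by_cases hstay : ∃ β ∈ Ω, red x0 = red β ∧
          ∃ k, 0 < k ∧ ∀ h ∈ H, ∀ n, eval ((pw G)^[k * n] β) h = 0
      · obtain ⟨β, hβ, hred, hk⟩ := hstay
        obtain ⟨K0, hK0, h⟩ := class_nice hp2 G Ω hst H x0 (hN β hβ hk x0 hx0 hred hper)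
        refine ⟨K0, hK0, fun K hK hdvd => ?_⟩
        obtain ⟨μ, hμ⟩ := h K hK hdvd
        refine ⟨μ, fun x hx hxr => ?_⟩
        rcases hμ x hx hxr with h | h
        · exact Or.inl h
        · refine Or.inr fun A hA hc => ?_
          have := h A hA
          omega
      · obtain ⟨k, hk, hkr⟩ := hper
        obtain ⟨K0, hK0, h⟩ := class_gap' hp2 G Ω hΩ hst H x0 (by
          intro β hβ hred k hk
          by_contra hcon
          push Not at hcon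
          exact hstay ⟨β, hβ, hred.symm, k, hk, hcon⟩) k hk hkr
        refine ⟨K0, hK0, fun K hK hdvd => ?_⟩
        obtain ⟨μ, hμ⟩ := h K hK hdvd
        exact ⟨μ, fun x hx hxr => Or.inr (hμ x hx hxr)⟩)
  exact ⟨a, K, μ, hK, hμ, h⟩

/-- **Uniform return sets of piecewise polynomial maps**: all classes are nice. -/
theorem glob_nice (hp2 : p ≠ 2) (G : (ι → ZMod p) → ι → MvPolynomial ι ℤ_[p])
    (Ω : Set (ι → ℤ_[p])) (hst : ∀ x ∈ Ω, pw G x ∈ Ω) (H : Set (MvPolynomial ι ℤ_[p]))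
    (hN : ∀ x0 ∈ Ω, (∃ k, 0 < k ∧ red ((pw G)^[k] x0) = red x0) → Nice G Ω x0) :
    ∃ a K μ : ℕ, 0 < K ∧ 0 < μ ∧ ∀ x ∈ Ω, ∀ t, a ≤ t →
      (∀ n, ∀ h ∈ H, eval ((pw G)^[t + K * n] x) h = 0) ∨
        ∀ A : Finset ℕ, (∀ n ∈ A, ∀ h ∈ H, eval ((pw G)^[t + K * n] x) h = 0) → A.card ≤ μ := by
  obtain ⟨a, K, μ, hK, hμ, h⟩ := glob_core G Ω hst H
    (fun μ S => (∀ n, n ∈ S) ∨ ∀ A : Finset ℕ, (∀ n ∈ A, n ∈ S) → A.card ≤ μ) (by
      rintro μ μ' S hle (h | h)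
      · exact Or.inl h
      · exact Or.inr fun A hA => (h A hA).trans hle) (by
      intro x0 hx0 hper
      exact class_nice hp2 G Ω hst H x0 (hN x0 hx0 hper))
  exact ⟨a, K, μ, hK, hμ, h⟩

end Pool.Agent.Q170.GP
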