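import Pool.Agent.Q170.GP.Gap

/-!
# Orbits which are attracted by étale orbits
-/

set_option autoImplicit false

open MvPolynomial Filter Topology

namespace Pool.Agent.Q170.GP

open Pool.Agent.H936R2 (pt jac itP itA itP_eval itP_expand)

section alg

variable {k ι : Type} [Field k] [Fintype ι] [DecidableEq ι]

/-- The substitution of an invertible affine map is injective. -/
theorem bind_injective (b : ι → k) (A : Matrix ι ι k) (hA : IsUnit A.det) :
    Function.Injective (bind₁ fun i => C (b i) + ∑ j, C (A i j) * X j :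
      MvPolynomial ι k → MvPolynomial ι k) := by
  set Ψ : ι → MvPolynomial ι k := fun i => ∑ j, C (A⁻¹ i j) * (X j - C (b j)) with hΨ
  have h1 : ∀ i, bind₁ Ψ (C (b i) + ∑ j, C (A i j) * X j) = X i := by
    intro i
    simp only [map_add, map_sum, map_mul, bind₁_C_right, bind₁_X_right, hΨ, Finset.mul_sum]
    rw [Finset.sum_comm]
    have h2 : ∀ l, ∑ j, C (A i j) * (C (A⁻¹ j l) * (X l - C (b l))) =
        C ((A * A⁻¹) i l) * (X l - C (b l) : MvPolynomial ι k) := by
      intro l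
      rw [Matrix.mul_apply, map_sum, Finset.sum_mul]
      refine Finset.sum_congr rfl fun j _ => ?_
      rw [C_mul]
      ring
    rw [Finset.sum_congr rfl fun l _ => h2 l, Matrix.mul_nonsing_inv A hA]
    rw [Finset.sum_eq_single i]
    · rw [Matrix.one_apply_eq, C_1, one_mul]
      ring
    · intro l _ hl
      rw [Matrix.one_apply_ne (Ne.symm hl), C_0, zero_mul]
    · intro h
      exact absurd (Finset.mem_univ i) h
  have h3 : Function.LeftInverse (bind₁ Ψ)
      (bind₁ fun i => C (b i) + ∑ j, C (A i j) * X j :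
      MvPolynomial ι k → MvPolynomial ι k) := by
    intro P
    rw [bind₁_bind₁]
    have h4 : (fun i => bind₁ Ψ (C (b i) + ∑ j, C (A i j) * X j)) = X := _root_.funext h1
    rw [h4]
    exact AlgHom.congr_fun bind₁_X_left P
  exact h3.injective

end alg

variable {p : ℕ} [hp : Fact p.Prime] {ι : Type} [Fintype ι] [DecidableEq ι]

/-- For an invertible affine map modulo `p` the idempotent iterate is the identity modulo `p`. -/
theorem idem_id (Φ : ι → MvPolynomial ι ℤ_[p]) (b : ι → ℤ_[p]) (A : Matrix ι ι ℤ_[p])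
    (hA : IsUnit A.det) (r : ι → MvPolynomial ι ℤ_[p])
    (hΦ : ∀ i, Φ i = C (b i) + ∑ j, C (A i j) * X j + C (p : ℤ_[p]) * r i) (m : ℕ)
    (hm : Idem Φ m) (P : MvPolynomial ι ℤ_[p]) :
    ∃ P', (bind₁ Φ)^[m] P = P + C (p : ℤ_[p]) * P' := by
  set φ : ℤ_[p] →+* ZMod p := PadicInt.toZMod with hφ
  have hpz : φ (p : ℤ_[p]) = 0 := by
    rw [map_natCast]
    exact ZMod.natCast_self p
  have hmap : (fun i => map φ (Φ i)) = fun i => C (φ (b i)) + ∑ j, C ((A.map φ) i j) * X j := by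
    funext i
    rw [hΦ i]
    simp only [map_add, map_sum, map_mul, map_C, map_X, hpz, C_0, zero_mul, add_zero,
      Matrix.map_apply]
  have hdet : IsUnit (A.map φ).det := by
    rw [← RingHom.mapMatrix_apply, ← RingHom.map_det]
    exact hA.map φ
  have hinj : Function.Injective (bind₁ (fun i => map φ (Φ i)) :
      MvPolynomial ι (ZMod p) → MvPolynomial ι (ZMod p)) := by
    rw [hmap]
    exact bind_injective _ _ hdet
  have hit : ∀ k P, map φ ((bind₁ Φ)^[k] P) = (bind₁ fun i => map φ (Φ i))^[k] (map φ P) := by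
    intro k
    induction k with
    | zero => intro P; rfl
    | succ k ih =>
      intro P
      rw [Function.iterate_succ_apply', map_bind₁, ih, Function.iterate_succ_apply']
  obtain ⟨P', hP'⟩ := hm P
  have h1 : (bind₁ fun i => map φ (Φ i))^[m] ((bind₁ fun i => map φ (Φ i))^[m] (map φ P)) =
      (bind₁ fun i => map φ (Φ i))^[m] (map φ P) := by
    rw [← Function.iterate_add_apply, ← hit, ← hit, hP', map_add, map_mul, map_C, hpz, C_0,
      zero_mul, add_zero]
  have h2 := hinj.iterate m h1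
  obtain ⟨Q, hQ⟩ := dvd_of_map_eq_zero ((bind₁ Φ)^[m] P - P) (by
    rw [map_sub, hit, h2, sub_self])
  exact ⟨Q, by rw [← hQ]; ring⟩

omit [Fintype ι] [DecidableEq ι] in
/-- All differences are divisible. -/
theorem diff_all (Φ : ι → MvPolynomial ι ℤ_[p]) (m : ℕ)
    (hm : ∀ P : MvPolynomial ι ℤ_[p], ∃ P', (bind₁ Φ)^[m] P = P + C (p : ℤ_[p]) * P') (i : ℕ) :
    ∀ P : MvPolynomial ι ℤ_[p], ∃ P', ∀ (u : ι → ℤ_[p]) (n : ℕ),
      (fwdDiff 1)^[i] (sq Φ m P u) n = (p : ℤ_[p]) ^ i * sq Φ m P' u n := by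
  induction i with
  | zero => exact fun P => ⟨P, fun u n => by simp⟩
  | succ i ih =>
    intro P
    obtain ⟨Q, hQ⟩ := ih P
    obtain ⟨Q', hQ'⟩ := hm Q
    refine ⟨Q', fun u n => ?_⟩
    rw [Function.iterate_succ_apply']
    unfold fwdDiff
    have e3 := hQ u (n + 1)
    have e4 := hQ u n
    unfold fwdDiff at e3 e4
    rw [e3, e4]
    have h1 := sq_op Φ m Q u n 1
    rw [mul_one] at h1
    rw [← h1, hQ']
    unfold sq
    rw [eval_add, eval_mul, eval_C, pow_succ]
    ring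

/-- Sequences with divisible differences are continuous. -/
theorem dvd_shift' (g : ℕ → ℤ_[p]) (hg : ∀ i n, (p : ℤ_[p]) ^ i ∣ (fwdDiff 1)^[i] g n)
    (n r : ℕ) : (p : ℤ_[p]) ^ r ∣ g (n + p ^ r) - g n := by
  have h1 := shift_eq_sum_fwdDiff_iter (1 : ℕ) g (p ^ r) n
  rw [smul_eq_mul, mul_one] at h1
  rw [h1, Finset.sum_range_succ']
  rw [Nat.choose_zero_right, one_smul, Function.iterate_zero, id_eq, add_sub_cancel_right]
  refine Finset.dvd_sum fun l hl => ?_
  rw [Finset.mem_range] at hl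
  rw [nsmul_eq_mul]
  obtain ⟨v, w, hw, hvw⟩ := Nat.exists_eq_pow_mul_and_not_dvd (Nat.succ_ne_zero l) p hp.1.ne_one
  have hw0 : 0 < w := Nat.pos_of_ne_zero fun h0 => hw (by rw [h0]; exact dvd_zero _)
  have h2 : p ^ (r - v) ∣ (p ^ r).choose (l + 1) := by
    refine dvd_choose r (l + 1) v ?_ (Nat.succ_pos l) hl
    rw [show l + 1 = p ^ v * w from hvw, pow_succ]
    intro hcon
    exact hw (Nat.dvd_of_mul_dvd_mul_left (Nat.pow_pos hp.1.pos) hcon)
  have h3 : v ≤ l := by
    have h4 : v < p ^ v := Nat.lt_pow_self hp.1.one_lt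
    have h5 : p ^ v ≤ l + 1 := by
      rw [show l + 1 = p ^ v * w from hvw]
      exact Nat.le_mul_of_pos_right _ hw0
    omega
  have h6 : (p : ℤ_[p]) ^ (r - v) ∣ (((p ^ r).choose (l + 1) : ℕ) : ℤ_[p]) := by
    obtain ⟨q, hq⟩ := h2
    rw [hq]
    push_cast
    exact dvd_mul_right _ _
  have h7 := mul_dvd_mul h6 (hg (l + 1) n)
  rw [← pow_add] at h7
  exact (pow_dvd_pow _ (by omega)).trans h7

theorem eq_zero_of_dvd (z : ℤ_[p]) (h : ∀ r : ℕ, (p : ℤ_[p]) ^ r ∣ z) : z = 0 := by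
  by_contra hne
  obtain ⟨k, hk⟩ : ∃ k : ℕ, (p : ℝ) ^ (-(k : ℤ)) < ‖z‖ :=
    PadicInt.exists_pow_neg_lt p (norm_pos_iff.2 hne)
  have h4 := h k
  rw [← Ideal.mem_span_singleton, ← PadicInt.norm_le_pow_iff_mem_span_pow] at h4
  exact absurd hk (not_lt.2 h4)

omit [Fintype ι] [DecidableEq ι] in
/-- In the étale case the orbit is its own limit. -/
theorem eq_limit (Φ : ι → MvPolynomial ι ℤ_[p]) (m : ℕ)
    (hm : ∀ P : MvPolynomial ι ℤ_[p], ∃ P', (bind₁ Φ)^[m] P = P + C (p : ℤ_[p]) * P')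
    (u β : ι → ℤ_[p]) (h1 : ∀ P n, (p : ℤ_[p]) ^ n ∣ sq Φ m P u n - sq Φ m P β n) : u = β := by
  have hall : ∀ (w : ι → ℤ_[p]) P i n, (p : ℤ_[p]) ^ i ∣ (fwdDiff 1)^[i] (sq Φ m P w) n := by
    intro w P i n
    obtain ⟨P', hP'⟩ := diff_all Φ m hm i P
    rw [hP']
    exact dvd_mul_right _ _
  funext i
  have h2 : ∀ w : ι → ℤ_[p], sq Φ m (X i) w 0 = w i := by
    intro w
    unfold sq
    rw [mul_zero, Function.iterate_zero, id_eq, eval_X]
  have h3 : sq Φ m (X i) u 0 - sq Φ m (X i) β 0 = 0 := by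
    apply eq_zero_of_dvd
    intro r
    have e1 := dvd_shift' _ (hall u (X i)) 0 r
    have e2 := dvd_shift' _ (hall β (X i)) 0 r
    have e3 := h1 (X i) (0 + p ^ r)
    have e4 : (p : ℤ_[p]) ^ r ∣ sq Φ m (X i) u (0 + p ^ r) - sq Φ m (X i) β (0 + p ^ r) :=
      (pow_dvd_pow _ (by
        rw [zero_add]
        exact (Nat.lt_pow_self hp.1.one_lt).le)).trans e3
    have e5 := (e4.sub e1).add e2
    have e6 : sq Φ m (X i) u (0 + p ^ r) - sq Φ m (X i) β (0 + p ^ r) -
        (sq Φ m (X i) u (0 + p ^ r) - sq Φ m (X i) u 0) +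
        (sq Φ m (X i) β (0 + p ^ r) - sq Φ m (X i) β 0) =
        sq Φ m (X i) u 0 - sq Φ m (X i) β 0 := by ring
    rwa [e6] at e5
  rw [h2, h2] at h3
  exact sub_eq_zero.1 h3

theorem det_itA (F : ι → MvPolynomial ι ℤ_[p]) (y : ι → ℤ_[p]) (k : ℕ)
    (h : ∀ i, i < k → IsUnit (jac F ((pt F)^[i] y)).det) : IsUnit (itA F y k).det := by
  induction k with
  | zero =>
    rw [itA, Matrix.det_one]
    exact isUnit_one
  | succ k ih =>
    rw [itA, Matrix.det_mul]
    exact (h k (Nat.lt_succ_self k)).mul (ih fun i hi => h i (by omega))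

/-- The map in the coordinate `u` of the residue class `x0 + p u`, with its linear part. -/
theorem localise' (F : ι → MvPolynomial ι ℤ_[p]) (x0 : ι → ℤ_[p]) (k : ℕ)
    (hk : red ((pt F)^[k] x0) = red x0) :
    ∃ (Φ : ι → MvPolynomial ι ℤ_[p]) (b : ι → ℤ_[p]) (r : ι → MvPolynomial ι ℤ_[p]),
      (∀ i, Φ i = C (b i) + ∑ j, C (itA F x0 k i j) * X j + C (p : ℤ_[p]) * r i) ∧
      ∀ (n : ℕ) (u : ι → ℤ_[p]),
      (pt F)^[k * n] (fun i => x0 i + p * u i) = fun i => x0 i + p * (pt Φ)^[n] u i := by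
  obtain ⟨r, hr⟩ := itP_expand F (p : ℤ_[p]) x0 k
  have hb : ∀ i, ∃ b : ℤ_[p], (pt F)^[k] x0 i - x0 i = p * b := fun i =>
    (toZMod_eq_iff _ _).1 (congrFun hk i)
  choose b hb using hb
  refine ⟨fun i => C (b i) + ∑ j, C (itA F x0 k i j) * X j + C (p : ℤ_[p]) * r i, b, r,
    fun i => rfl, fun n => ?_⟩
  induction n with
  | zero => intro u; rfl
  | succ n ih =>
    intro u
    rw [mul_add, mul_one, Function.iterate_add_apply]
    have h2 : (pt F)^[k] (fun i => x0 i + p * u i) = fun i => x0 i + p * pt (fun i =>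
        C (b i) + ∑ j, C (itA F x0 k i j) * X j + C (p : ℤ_[p]) * r i) u i := by
      funext i
      rw [← itP_eval F (p : ℤ_[p]) x0 k u i, hr i]
      have h3 : (pt F)^[k] x0 i = x0 i + p * b i := by rw [← hb]; ring
      rw [h3]
      simp only [pt, map_add, map_mul, map_sum, eval_C, eval_X, map_pow]
      ring
    rw [h2, ih, Function.iterate_succ_apply]

/-- Units modulo `p`. -/
theorem isUnit_jac_congr (F : ι → MvPolynomial ι ℤ_[p]) {x y : ι → ℤ_[p]} (h : red x = red y)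
    (hx : IsUnit (jac F x).det) : IsUnit (jac F y).det := by
  have h1 : ∀ z : ℤ_[p], ¬ IsUnit z ↔ (PadicInt.toZMod z : ZMod p) = 0 := by
    intro z
    rw [← RingHom.mem_ker, PadicInt.ker_toZMod, IsLocalRing.mem_maximalIdeal, mem_nonunits_iff]
  have h2 : ∀ y : ι → ℤ_[p], (PadicInt.toZMod (jac F y).det : ZMod p) =
      (Matrix.of fun i j => eval (red y) (map PadicInt.toZMod (pderiv j (F i)))).det := by
    intro y
    rw [RingHom.map_det, RingHom.mapMatrix_apply]
    congr 1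
    ext i j
    rw [Matrix.map_apply, Matrix.of_apply]
    exact red_eval _ _
  by_contra hcon
  rw [h1, h2, ← h, ← h2, ← h1] at hcon
  exact hcon hx

/-- **The return set of one orbit.** -/
theorem orbit_dml (hp2 : p ≠ 2) (F : ι → MvPolynomial ι ℤ_[p]) (Ω : Set (ι → ℤ_[p]))
    (hΩ : IsClosed Ω) (hst : ∀ x ∈ Ω, pt F x ∈ Ω) (H : Set (MvPolynomial ι ℤ_[p]))
    (hE : ∀ β ∈ Ω, ∀ k : ℕ, 0 < k → (∀ h ∈ H, ∀ n, eval ((pt F)^[k * n] β) h = 0) →
      ∀ i, IsUnit (jac F ((pt F)^[i] β)).det) (x : ι → ℤ_[p]) (hx : x ∈ Ω) :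
    ∃ a K μ : ℕ, 0 < K ∧ 0 < μ ∧ ∀ j, j < K →
      (∀ n, ∀ h ∈ H, eval ((pt F)^[a + j + K * n] x) h = 0) ∨
        GapP p μ {n | ∀ h ∈ H, eval ((pt F)^[a + j + K * n] x) h = 0} := by
  classical
  have hstn : ∀ n, ∀ x ∈ Ω, (pt F)^[n] x ∈ Ω := by
    intro n
    induction n with
    | zero => exact fun x hx => hx
    | succ n ih =>
      intro x hx
      rw [Function.iterate_succ_apply']
      exact hst _ (ih x hx)
  -- the classes modulo `p`
  choose lift hlift using exists_lift (p := p) (ι := ι)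
  set fb : (ι → ZMod p) → (ι → ZMod p) := fun c => red (pt F (lift c)) with hfb
  have hfb1 : ∀ x, red (pt F x) = fb (red x) := fun x => red_pt_congr F (hlift _).symm
  have hfbn : ∀ n x, red ((pt F)^[n] x) = fb^[n] (red x) := by
    intro n
    induction n with
    | zero => exact fun x => rfl
    | succ n ih =>
      intro x
      rw [Function.iterate_succ_apply', hfb1, ih, Function.iterate_succ_apply']
  obtain ⟨a, k, hk, hak⟩ : ∃ a k : ℕ, 0 < k ∧ ∀ n, a ≤ n → fb^[k] (fb^[n] (red x)) = fb^[n] (red x) := by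
    obtain ⟨i, j, hij, h⟩ := Finite.exists_ne_map_eq_of_infinite fun n : ℕ => fb^[n] (red x)
    wlog hlt : i < j generalizing i j
    · exact this j i hij.symm h.symm (lt_of_le_of_ne (not_lt.1 hlt) hij.symm)
    refine ⟨i, j - i, by omega, fun n hn => ?_⟩
    obtain ⟨l, rfl⟩ := Nat.exists_eq_add_of_le hn
    rw [← Function.iterate_add_apply, Nat.add_comm i l, ← Nat.add_assoc, Nat.add_comm (j - i) l,
      Nat.add_assoc, Nat.sub_add_cancel hlt.le, Function.iterate_add_apply,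
      Function.iterate_add_apply _ l i, h]
  have hper : ∀ t, a ≤ t → red ((pt F)^[k] ((pt F)^[t] x)) = red ((pt F)^[t] x) := by
    intro t ht
    rw [hfbn, hfbn, hak t ht]
  have hloc : ∀ t0 : ℕ, ∃ (Φ : ι → MvPolynomial ι ℤ_[p]) (c : ℕ), 0 < c ∧ (a ≤ t0 →
      (∀ m : ℕ, 0 < m → c ∣ m → Idem Φ m) ∧
      (∀ (n : ℕ) (u : ι → ℤ_[p]), (pt F)^[k * n] (fun i => (pt F)^[t0] x i + p * u i) =
        fun i => (pt F)^[t0] x i + p * (pt Φ)^[n] u i) ∧
      ((∀ i, IsUnit (jac F ((pt F)^[i] ((pt F)^[t0] x))).det) → ∀ m, Idem Φ m →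
        ∀ P : MvPolynomial ι ℤ_[p], ∃ P', (bind₁ Φ)^[m] P = P + C (p : ℤ_[p]) * P')) := by
    intro t0
    by_cases ht : a ≤ t0
    · obtain ⟨Φ, b, r, hΦ, hit⟩ := localise' F ((pt F)^[t0] x) k (hper t0 ht)
      obtain ⟨c, hc, hidem⟩ := exists_idem Φ fun i => ⟨b i, fun j => itA F _ k i j, r i, hΦ i⟩
      refine ⟨Φ, c, hc, fun _ => ⟨hidem, hit, fun hu m hm => ?_⟩⟩
      exact idem_id Φ b _ (det_itA F _ k fun i _ => hu i) r hΦ m hm
    · exact ⟨X, 1, one_pos, fun h => absurd h ht⟩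
  choose Φ c hc hloc using hloc
  set m := ∏ t0 ∈ Finset.Ico a (a + k), c t0 with hm
  have hm0 : 0 < m := Finset.prod_pos fun t0 _ => hc t0
  set K := k * m with hK
  -- one class
  have hone : ∀ t, a ≤ t → ∃ μ : ℕ,
      (∀ n, ∀ h ∈ H, eval ((pt F)^[t + K * n] x) h = 0) ∨
        GapP p μ {n | ∀ h ∈ H, eval ((pt F)^[t + K * n] x) h = 0} := by
    intro t ht
    set t0 := a + (t - a) % k with ht0
    have ht0a : a ≤ t0 := Nat.le_add_right _ _
    have ht0k : t0 < a + k := by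
      have := Nat.mod_lt (t - a) hk
      omega
    obtain ⟨q, hq⟩ : ∃ q, t = t0 + k * q := ⟨(t - a) / k, by
      have := Nat.div_add_mod (t - a) k
      omega⟩
    obtain ⟨hidem, hit, het⟩ := hloc t0 ht0a
    have hIm : Idem (Φ t0) m := hidem m hm0
      (Finset.dvd_prod_of_mem c (Finset.mem_Ico.2 ⟨ht0a, ht0k⟩))
    have hred : red ((pt F)^[t] x) = red ((pt F)^[t0] x) := by
      have h3 : ∀ q, red ((pt F)^[t0 + k * q] x) = red ((pt F)^[t0] x) := by
        intro q
        induction q with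
        | zero => rw [mul_zero, add_zero]
        | succ q ih =>
          have e1 : t0 + k * (q + 1) = k + (t0 + k * q) := by ring
          rw [e1, Function.iterate_add_apply, hper (t0 + k * q) (by omega), ih]
      rw [hq]
      exact h3 q
    set x0 := (pt F)^[t0] x with hx0
    obtain ⟨u, hu⟩ := exists_of_red hred
    have hsq : ∀ (h : MvPolynomial ι ℤ_[p]) (v : ι → ℤ_[p]) (n : ℕ),
        sq (Φ t0) m (resc x0 h) v n = eval ((pt F)^[K * n] (fun i => x0 i + p * v i)) h := by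
      intro h v n
      have e1 : K * n = k * (m * n) := by rw [hK]; ring
      rw [e1, hit]
      unfold sq
      rw [eval_resc]
    set Ω' : Set (ι → ℤ_[p]) := {v | (fun i => x0 i + p * v i) ∈ Ω} with hΩ'
    have hcont : Continuous fun v : ι → ℤ_[p] => (fun i => x0 i + (p : ℤ_[p]) * v i) :=
      continuous_pi fun i => continuous_const.add (continuous_const.mul (continuous_apply i))
    obtain ⟨β, hβ, hβ1, hβ2⟩ := exists_limit (Φ t0) m hIm u Ω' (hΩ.preimage hcont) (by
      intro r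
      change (fun i => x0 i + p * (pt (Φ t0))^[m * r] u i) ∈ Ω
      rw [← hit, ← hu]
      exact hstn _ _ (hstn _ _ hx))
    have hval : ∀ n (h : MvPolynomial ι ℤ_[p]),
        eval ((pt F)^[t + K * n] x) h = sq (Φ t0) m (resc x0 h) u n := by
      intro n h
      rw [hsq, ← hu, ← Function.iterate_add_apply, add_comm t]
    by_cases hcase : ∀ h ∈ H, ∀ n, sq (Φ t0) m (resc x0 h) β n = 0
    · refine ⟨0, Or.inl fun n h hh => ?_⟩
      have h1 := hE (fun i => x0 i + p * β i) hβ K (Nat.mul_pos hk hm0) (fun h hh n => by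
        rw [← hsq]
        exact hcase h hh n)
      have h2 : ∀ i, IsUnit (jac F ((pt F)^[i] x0)).det := by
        intro i
        refine isUnit_jac_congr F ?_ (h1 i)
        have h3 : ∀ i, red ((pt F)^[i] (fun i => x0 i + p * β i)) = red ((pt F)^[i] x0) := by
          intro i
          rw [hfbn, hfbn, red_add]
        exact h3 i
      have h3 := eq_limit (Φ t0) m (het h2 m hIm) u β hβ1
      rw [hval, h3]
      exact hcase h hh n
    · push Not at hcase
      obtain ⟨h, hh, n, hn⟩ := hcase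
      obtain ⟨μ, hμ⟩ : ∃ μ : ℕ, ¬ (p : ℤ_[p]) ^ μ ∣ sq (Φ t0) m (resc x0 h) β n := by
        by_contra hcon
        push Not at hcon
        exact hn (eq_zero_of_dvd _ hcon)
      refine ⟨μ, Or.inr fun A hA hc X L hX hL => ?_⟩
      exact gap_seq hp2 (sq (Φ t0) m (resc x0 h) β) (sq (Φ t0) m (resc x0 h) u) (hβ1 _) (hβ2 _) μ
        ⟨n, hμ⟩ A (fun n hn => by
          rw [← hval]
          exact hA n hn h hh) hc X L hX hL
  choose! μ hμ using hone
  refine ⟨a, K, (∑ j ∈ Finset.range K, μ (a + j)) + 1, Nat.mul_pos hk hm0, Nat.succ_pos _,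
    fun j hj => ?_⟩
  rcases hμ (a + j) (Nat.le_add_right _ _) with h | h
  · exact Or.inl h
  · refine Or.inr (h.mono hp.1.pos ?_)
    have h3 : μ (a + j) ≤ ∑ j ∈ Finset.range K, μ (a + j) :=
      Finset.single_le_sum (f := fun j => μ (a + j)) (fun _ _ => Nat.zero_le _)
        (Finset.mem_range.2 hj)
    omega

end Pool.Agent.Q170.GP
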