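import Pool.Agent.Q170.GP.Glob

/-!
# Sparse sets of numbers
-/

set_option autoImplicit false

open Filter Topology

namespace Pool.Agent.Q170.GP

/-- The set `S` has at most `M` elements between `X` and `b ^ X / C`, for every `X`. -/
def Sparse (M : ℕ) (b C : ℝ) (S : Set ℕ) : Prop :=
  ∀ X : ℕ, {n : ℕ | n ∈ S ∧ X ≤ n ∧ C * n < b ^ X}.encard ≤ M

/-- Iterated exponentials: `1, 2, 4, 16, 65536, ...`. -/
def tower : ℕ → ℕ
  | 0 => 1
  | j + 1 => 2 ^ tower j

/-- From the gap property in the classes to sparseness. -/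
theorem sparse_of_gap (p a K μ : ℕ) (hp : 2 ≤ p) (hK : 0 < K) (hμ : 0 < μ) :
    ∃ b C : ℝ, 1 < b ∧ 0 < C ∧ ∀ S : Set ℕ, (∀ j, j < K → GapP p μ {n | a + j + K * n ∈ S}) →
      Sparse (a + K * (2 * μ)) b C S := by
  classical
  have hp0 : (0 : ℝ) < p := by exact_mod_cast (by omega : 0 < p)
  have hp1 : (1 : ℝ) < p := by exact_mod_cast (by omega : 1 < p)
  have hN : 2 * μ * K ≠ 0 := by positivity
  have hN' : 2 * μ ≠ 0 := by positivity
  set b : ℝ := (p : ℝ) ^ (((2 * μ * K : ℕ) : ℝ)⁻¹) with hb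
  set C : ℝ := ((p : ℝ) ^ (μ + 1 + a)) ^ (((2 * μ : ℕ) : ℝ)⁻¹) with hC
  have hb1 : b ^ (2 * μ * K) = p := Real.rpow_inv_natCast_pow hp0.le hN
  have hC1 : C ^ (2 * μ) = (p : ℝ) ^ (μ + 1 + a) := Real.rpow_inv_natCast_pow (by positivity) hN'
  have hbpos : 0 < b := Real.rpow_pos_of_pos hp0 _
  have hb2 : 1 < b := by
    refine Real.one_lt_rpow hp1 ?_
    have : (0 : ℝ) < ((2 * μ * K : ℕ) : ℝ) := by exact_mod_cast Nat.pos_of_ne_zero hN
    positivity
  have hC2 : 0 < C := Real.rpow_pos_of_pos (by positivity) _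
  refine ⟨b, C, hb2, hC2, fun S hS X => ?_⟩
  by_contra hcon
  push Not at hcon
  set T : Set ℕ := {n : ℕ | n ∈ S ∧ X ≤ n ∧ C * n < b ^ X} with hT
  have hfin : T.Finite := by
    refine (Set.finite_lt_nat (⌈b ^ X / C⌉₊)).subset fun n hn => ?_
    have h1 : (n : ℝ) < b ^ X / C := by
      rw [lt_div_iff₀ hC2, mul_comm]
      exact hn.2.2
    exact_mod_cast h1.trans_le (Nat.le_ceil _)
  set A0 := hfin.toFinset with hA0
  have hA0mem : ∀ n, n ∈ A0 ↔ n ∈ S ∧ X ≤ n ∧ C * n < b ^ X := by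
    intro n
    rw [hA0, Set.Finite.mem_toFinset]
    exact Iff.rfl
  have hcard : a + K * (2 * μ) < A0.card := by
    have h1 : T.encard = A0.card := by
      rw [hA0, ← Set.encard_coe_eq_coe_finsetCard, Set.Finite.coe_toFinset]
    rw [h1] at hcon
    exact_mod_cast hcon
  set A1 := A0.filter (fun n => a ≤ n) with hA1
  have hcard1 : K * (2 * μ) < A1.card := by
    have h1 : A0.card ≤ a + A1.card := by
      have h0 := Finset.card_filter_add_card_filter_not (s := A0) (p := fun n => a ≤ n)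
      have h2 : (A0.filter (fun n => ¬ a ≤ n)).card ≤ a := by
        have h3 : A0.filter (fun n => ¬ a ≤ n) ⊆ Finset.range a := by
          intro n hn
          rw [Finset.mem_filter] at hn
          rw [Finset.mem_range]
          omega
        have := Finset.card_le_card h3
        rwa [Finset.card_range] at this
      rw [← h0, add_comm]
      exact Nat.add_le_add_right h2 _
    omega
  obtain ⟨j, hj, hjc⟩ := Finset.exists_lt_card_fiber_of_mul_lt_card_of_maps_to
    (s := A1) (t := Finset.range K) (f := fun n => (n - a) % K) (n := 2 * μ)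
    (fun n _ => Finset.mem_range.2 (Nat.mod_lt _ hK)) (by rwa [Finset.card_range])
  set A2 := A1.filter (fun n => (n - a) % K = j) with hA2
  have hA2mem : ∀ n ∈ A2, n ∈ S ∧ X ≤ n ∧ C * n < b ^ X ∧ n = a + j + K * ((n - a) / K) := by
    intro n hn
    rw [hA2, Finset.mem_filter, hA1, Finset.mem_filter, hA0mem] at hn
    obtain ⟨⟨⟨h1, h2, h3⟩, h4⟩, h5⟩ := hn
    refine ⟨h1, h2, h3, ?_⟩
    have h6 := Nat.div_add_mod (n - a) K
    omega
  set A := A2.image (fun n => (n - a) / K) with hA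
  have hAc : A.card = A2.card := by
    apply Finset.card_image_of_injOn
    intro n hn n' hn' h
    have h1 := (hA2mem n hn).2.2.2
    have h2 := (hA2mem n' hn').2.2.2
    dsimp only at h
    rw [h1, h2, h]
  obtain ⟨L, hL1, hL2⟩ : ∃ L ∈ A0, ∀ n ∈ A0, n ≤ L := by
    have hne : A0.Nonempty := Finset.card_pos.1 (by omega)
    exact ⟨A0.max' hne, Finset.max'_mem _ _, fun n hn => Finset.le_max' _ _ hn⟩
  have hA2sub : ∀ n ∈ A2, n ∈ A0 := fun n hn =>
    (Finset.mem_filter.1 (Finset.mem_filter.1 hn).1).1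
  have h1 := hS j (Finset.mem_range.1 hj) A (by
    intro n hn
    rw [hA, Finset.mem_image] at hn
    obtain ⟨n', hn', rfl⟩ := hn
    have h2 := hA2mem n' hn'
    rw [Set.mem_ofPred_eq, ← h2.2.2.2]
    exact h2.1) (by rw [hAc]; exact hjc) ((X - a) / K) L (by
    intro n hn
    rw [hA, Finset.mem_image] at hn
    obtain ⟨n', hn', rfl⟩ := hn
    exact Nat.div_le_div_right (Nat.sub_le_sub_right (hA2mem n' hn').2.1 _)) (by
    intro n hn
    rw [hA, Finset.mem_image] at hn
    obtain ⟨n', hn', rfl⟩ := hn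
    exact ((Nat.div_le_self _ _).trans (Nat.sub_le _ _)).trans (hL2 n' (hA2sub n' hn')))
  set X' := (X - a) / K with hX'
  have hXle : X ≤ K * (X' + 1 + a) := by
    have h2 : K * X' + (X - a) % K = X - a := Nat.div_add_mod (X - a) K
    have h3 := Nat.mod_lt (X - a) hK
    have h4 : a ≤ K * a := Nat.le_mul_of_pos_left _ hK
    have h5 : K * (X' + 1 + a) = K * X' + K + K * a := by ring
    rw [h5]
    omega
  have hLX : C * L < b ^ X := ((hA0mem L).1 hL1).2.2
  have h2 : (C * L) ^ (2 * μ) < (b ^ X) ^ (2 * μ) :=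
    pow_lt_pow_left₀ hLX (by positivity) hN'
  have h3 : (b ^ X) ^ (2 * μ) ≤ (p : ℝ) ^ (X' + 1 + a) := by
    calc (b ^ X) ^ (2 * μ) = b ^ (X * (2 * μ)) := by rw [← pow_mul]
      _ ≤ b ^ (K * (X' + 1 + a) * (2 * μ)) :=
        pow_le_pow_right₀ hb2.le (Nat.mul_le_mul_right _ hXle)
      _ = (b ^ (2 * μ * K)) ^ (X' + 1 + a) := by
        rw [← pow_mul]
        congr 1
        ring
      _ = _ := by rw [hb1]
  rw [mul_pow, hC1] at h2
  have h4 : (p : ℝ) ^ (μ + 1 + a) * (L : ℝ) ^ (2 * μ) < (p : ℝ) ^ (X' + 1 + a) := h2.trans_le h3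
  have h5 : ((p ^ μ * L ^ (2 * μ) : ℕ) : ℝ) * (p : ℝ) ^ (1 + a) < (p : ℝ) ^ X' * (p : ℝ) ^ (1 + a) := by
    push_cast
    calc (p : ℝ) ^ μ * (L : ℝ) ^ (2 * μ) * (p : ℝ) ^ (1 + a)
        = (p : ℝ) ^ (μ + 1 + a) * (L : ℝ) ^ (2 * μ) := by ring
      _ < (p : ℝ) ^ (X' + 1 + a) := h4
      _ = _ := by ring
  have h6 := lt_of_mul_lt_mul_right h5 (by positivity)
  have h7 : p ^ μ * L ^ (2 * μ) < p ^ X' := by exact_mod_cast h6
  omega

theorem lt_tower (j : ℕ) : j < tower j := by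
  induction j with
  | zero => exact one_pos
  | succ j ih =>
    have h1 : tower j < 2 ^ tower j := Nat.lt_two_pow_self
    change j + 1 < 2 ^ tower j
    omega

theorem tower_mono : Monotone tower :=
  monotone_nat_of_le_succ fun j => (Nat.lt_two_pow_self).le

/-- The number of elements grows like the iterated logarithm. -/
theorem tower_count (M : ℕ) (b C : ℝ) (hb : 1 < b) (hC : 0 < C) :
    ∃ D : ℕ, ∀ S : Set ℕ, Sparse M b C S → ∀ j, {n : ℕ | n ∈ S ∧ n < tower j}.encard ≤ D * (j + 1) := by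
  obtain ⟨D1, hD1⟩ : ∃ D1 : ℕ, 2 ≤ b ^ D1 := by
    obtain ⟨D1, h⟩ := pow_unbounded_of_one_lt 2 hb
    exact ⟨D1, h.le⟩
  obtain ⟨c, hc⟩ : ∃ c : ℕ, C < 2 ^ c := pow_unbounded_of_one_lt C one_lt_two
  -- exponential growth
  obtain ⟨X0, hX0⟩ : ∃ X0 : ℕ, ∀ X : ℕ, X0 ≤ X → C * ((D1 * (X + c) : ℕ) : ℝ) ≤ b ^ X := by
    have h1 : Tendsto (fun X : ℕ => (X : ℝ) ^ 1 / b ^ X) atTop (𝓝 0) :=
      tendsto_pow_const_div_const_pow_of_one_lt 1 hb
    have h2 : Tendsto (fun X : ℕ => (1 : ℝ) / b ^ X) atTop (𝓝 0) := by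
      have := tendsto_pow_const_div_const_pow_of_one_lt 0 hb
      simpa using this
    have h3 : Tendsto (fun X : ℕ => C * D1 * ((X : ℝ) ^ 1 / b ^ X) + C * D1 * c * (1 / b ^ X)) atTop
        (𝓝 (C * D1 * 0 + C * D1 * c * 0)) := (h1.const_mul _).add (h2.const_mul _)
    rw [mul_zero, mul_zero, add_zero] at h3
    have h4 := h3.eventually (gt_mem_nhds (show (0 : ℝ) < 1 by norm_num))
    obtain ⟨X0, h5⟩ := eventually_atTop.1 h4
    refine ⟨X0, fun X hX => ?_⟩
    have h6 := h5 X hX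
    have hbX : 0 < b ^ X := by positivity
    have h7 : C * D1 * ((X : ℝ) ^ 1 / b ^ X) + C * D1 * c * (1 / b ^ X) =
        C * ((D1 * (X + c) : ℕ) : ℝ) / b ^ X := by
      push_cast
      field_simp
    rw [h7, div_lt_one hbX] at h6
    exact h6.le
  refine ⟨tower X0 + 2 * M, fun S hS j' => ?_⟩
  have hstep : ∀ X, X0 ≤ X → {n : ℕ | n ∈ S ∧ X ≤ n ∧ n < 2 ^ X}.encard ≤ 2 * M := by
    intro X hX
    have hsub : {n : ℕ | n ∈ S ∧ X ≤ n ∧ n < 2 ^ X} ⊆
        {n : ℕ | n ∈ S ∧ X ≤ n ∧ C * n < b ^ X} ∪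
          {n : ℕ | n ∈ S ∧ D1 * (X + c) ≤ n ∧ C * n < b ^ (D1 * (X + c))} := by
      rintro n ⟨h1, h2, h3⟩
      rcases lt_or_ge n (D1 * (X + c)) with h4 | h4
      · left
        refine ⟨h1, h2, lt_of_lt_of_le ?_ (hX0 X hX)⟩
        exact mul_lt_mul_of_pos_left (by exact_mod_cast h4) hC
      · right
        refine ⟨h1, h4, ?_⟩
        have h5 : (n : ℝ) < 2 ^ X := by exact_mod_cast h3
        calc C * n < C * 2 ^ X := mul_lt_mul_of_pos_left h5 hC
          _ ≤ 2 ^ c * 2 ^ X := mul_le_mul_of_nonneg_right hc.le (by positivity)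
          _ = 2 ^ (X + c) := by rw [← pow_add, add_comm]
          _ ≤ (b ^ D1) ^ (X + c) := pow_le_pow_left₀ (by norm_num) hD1 _
          _ = b ^ (D1 * (X + c)) := by rw [← pow_mul]
    refine (Set.encard_le_encard hsub).trans ((Set.encard_union_le _ _).trans ?_)
    rw [two_mul]
    exact add_le_add (hS X) (hS _)
  have hall : ∀ j, {n : ℕ | n ∈ S ∧ n < tower j}.encard ≤ (tower X0 + 2 * M * j : ℕ) := by
    intro j
    rcases le_total j X0 with h | h
    · have h1 : {n : ℕ | n ∈ S ∧ n < tower j} ⊆ ↑(Finset.range (tower X0)) := by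
        rintro n ⟨-, h2⟩
        exact_mod_cast Finset.mem_range.2 (h2.trans_le (tower_mono h))
      refine (Set.encard_le_encard h1).trans ?_
      rw [Set.encard_coe_eq_coe_finsetCard, Finset.card_range]
      exact_mod_cast Nat.le_add_right _ _
    · induction j, h using Nat.le_induction with
      | base =>
        have h1 : {n : ℕ | n ∈ S ∧ n < tower X0} ⊆ ↑(Finset.range (tower X0)) := by
          rintro n ⟨-, h2⟩
          exact_mod_cast Finset.mem_range.2 h2
        refine (Set.encard_le_encard h1).trans ?_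
        rw [Set.encard_coe_eq_coe_finsetCard, Finset.card_range]
        exact_mod_cast Nat.le_add_right _ _
      | succ j hj ih =>
        have hsub : {n : ℕ | n ∈ S ∧ n < tower (j + 1)} ⊆ {n : ℕ | n ∈ S ∧ n < tower j} ∪
            {n : ℕ | n ∈ S ∧ tower j ≤ n ∧ n < 2 ^ tower j} := by
          rintro n ⟨h1, h2⟩
          rcases lt_or_ge n (tower j) with h3 | h3
          · exact Or.inl ⟨h1, h3⟩
          · exact Or.inr ⟨h1, h3, h2⟩
        refine (Set.encard_le_encard hsub).trans ((Set.encard_union_le _ _).trans ?_)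
        have h1 := hstep (tower j) (hj.trans (lt_tower j).le)
        refine (add_le_add ih h1).trans ?_
        have h2 : tower X0 + 2 * M * (j + 1) = tower X0 + 2 * M * j + 2 * M := by ring
        rw [h2]
        push_cast
        exact le_refl _
  refine (hall j').trans ?_
  have h1 : tower X0 + 2 * M * j' ≤ (tower X0 + 2 * M) * (j' + 1) := by
    have : (tower X0 + 2 * M) * (j' + 1) = tower X0 + 2 * M * j' + (tower X0 * j' + 2 * M) := by
      ring
    omega
  exact_mod_cast h1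

end Pool.Agent.Q170.GP
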