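import Pool.Agent.Q170.GP.Seq
import Pool.Agent.H936R2.Poly

/-!
# Iteration of polynomial maps on a residue class

Let `Φ` be a polynomial self-map of `ℤ_p^ι` which is affine modulo `p`. Some iterate of the
substitution operator `P ↦ P ∘ Φ` is idempotent modulo `p`. Therefore the orbits are, up to
`O(p ^ n)`, analytic functions of the number `n` of the iterations.
-/

set_option autoImplicit false

open MvPolynomial Filter Topology

namespace Pool.Agent.Q170.GP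

open Pool.Agent.H936R2 (pt)

section alg

variable {R : Type} [CommRing R] {ι : Type}

theorem eval_bind (Φ : ι → MvPolynomial ι R) (u : ι → R) (P : MvPolynomial ι R) :
    eval u (bind₁ Φ P) = eval (pt Φ u) P := by
  rw [← coe_aeval_eq_eval, ← coe_aeval_eq_eval]
  change (aeval u) ((aeval Φ) P) = _
  rw [← AlgHom.comp_apply, comp_aeval]
  rfl

theorem eval_bind_iter (Φ : ι → MvPolynomial ι R) (k : ℕ) (u : ι → R) (P : MvPolynomial ι R) :
    eval u ((bind₁ Φ)^[k] P) = eval ((pt Φ)^[k] u) P := by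
  induction k generalizing u with
  | zero => rfl
  | succ k ih =>
    rw [Function.iterate_succ_apply', eval_bind, ih, Function.iterate_succ_apply]

theorem bind_iter_eq (Φ : ι → MvPolynomial ι R) (k : ℕ) (P : MvPolynomial ι R) :
    (bind₁ Φ)^[k] P = bind₁ (fun i => (bind₁ Φ)^[k] (X i)) P := by
  induction k with
  | zero =>
    simp only [Function.iterate_zero, id_eq]
    exact (AlgHom.congr_fun bind₁_X_left P).symm
  | succ k ih =>
    rw [Function.iterate_succ_apply', ih, bind₁_bind₁]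
    congr 2
    funext i
    rw [Function.iterate_succ_apply']

theorem bind_iter_sub (Φ : ι → MvPolynomial ι R) (k : ℕ) (P Q : MvPolynomial ι R) :
    (bind₁ Φ)^[k] (P - Q) = (bind₁ Φ)^[k] P - (bind₁ Φ)^[k] Q := by
  rw [bind_iter_eq, bind_iter_eq Φ k P, bind_iter_eq Φ k Q, map_sub]

/-- Polynomials of degree at most one, over a finite ring: a finite set. -/
def affSet (R ι : Type) [CommRing R] [Fintype ι] : Set (MvPolynomial ι R) :=
  Set.range fun q : R × (ι → R) => C q.1 + ∑ j, C (q.2 j) * X j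

theorem affSet_finite [Fintype ι] [Finite R] : (affSet R ι).Finite := Set.finite_range _

theorem bind_affSet [Fintype ι] (Φ : ι → MvPolynomial ι R) (hΦ : ∀ i, Φ i ∈ affSet R ι)
    (P : MvPolynomial ι R) (hP : P ∈ affSet R ι) : bind₁ Φ P ∈ affSet R ι := by
  choose q hq using hΦ
  obtain ⟨⟨b, a⟩, rfl⟩ := hP
  refine ⟨⟨b + ∑ j, a j * (q j).1, fun l => ∑ j, a j * (q j).2 l⟩, ?_⟩
  simp only [map_add, map_sum, map_mul, bind₁_C_right, bind₁_X_right]
  have h1 : ∀ j, Φ j = C (q j).1 + ∑ l, C ((q j).2 l) * X l := fun j => (hq j).symm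
  simp only [h1, mul_add, Finset.sum_add_distrib, Finset.mul_sum, Finset.sum_mul]
  rw [add_assoc]
  congr 2
  rw [Finset.sum_comm]
  refine Finset.sum_congr rfl fun l _ => Finset.sum_congr rfl fun j _ => ?_
  ring

/-- The substitution operator of an affine map over a finite ring has idempotent iterates. -/
theorem exists_idem_aff [Fintype ι] [Finite R] (Φ : ι → MvPolynomial ι R)
    (hΦ : ∀ i, Φ i ∈ affSet R ι) : ∃ c : ℕ, 0 < c ∧ ∀ m : ℕ, 0 < m → c ∣ m →
      ∀ P : MvPolynomial ι R, (bind₁ Φ)^[m + m] P = (bind₁ Φ)^[m] P := by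
  have hfin : Finite (affSet R ι) := affSet_finite.to_subtype
  have hmem : ∀ k i, (bind₁ Φ)^[k] (X i) ∈ affSet R ι := by
    intro k i
    induction k with
    | zero =>
      classical
      refine ⟨⟨0, fun j => if j = i then 1 else 0⟩, ?_⟩
      simp
    | succ k ih =>
      rw [Function.iterate_succ_apply']
      exact bind_affSet Φ hΦ _ ih
  obtain ⟨a, b, hab, h⟩ := Finite.exists_ne_map_eq_of_infinite
    fun k : ℕ => (fun i => (⟨(bind₁ Φ)^[k] (X i), hmem k i⟩ : affSet R ι))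
  wlog hlt : a < b generalizing a b
  · exact this b a hab.symm h.symm (lt_of_le_of_ne (not_lt.1 hlt) hab.symm)
  have h1 : ∀ P : MvPolynomial ι R, (bind₁ Φ)^[b] P = (bind₁ Φ)^[a] P := by
    intro P
    rw [bind_iter_eq, bind_iter_eq Φ a]
    congr 2
    funext i
    exact (congrArg Subtype.val (congrFun h i)).symm
  set c := b - a with hc
  have h2 : ∀ q : ℕ, ∀ P : MvPolynomial ι R, (bind₁ Φ)^[a + c * q] P = (bind₁ Φ)^[a] P := by
    intro q
    induction q with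
    | zero => intro P; rw [mul_zero, add_zero]
    | succ q ih =>
      intro P
      have e1 : a + c * (q + 1) = c * q + b := by
        rw [mul_add, mul_one]
        omega
      rw [e1, Function.iterate_add_apply, h1, ← Function.iterate_add_apply, add_comm (c * q) a, ih]
  refine ⟨c * (a + 1), Nat.mul_pos (by omega) (Nat.succ_pos _), fun m hm hdvd P => ?_⟩
  obtain ⟨q, rfl⟩ := hdvd
  have hle : a ≤ c * (a + 1) * q := by
    have hq : 1 ≤ q := by
      rcases Nat.eq_zero_or_pos q with h0 | h0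
      · rw [h0, mul_zero] at hm
        exact absurd hm (lt_irrefl _)
      · exact h0
    calc a ≤ 1 * (a + 1) * 1 := by omega
      _ ≤ c * (a + 1) * q := Nat.mul_le_mul (Nat.mul_le_mul_right _ (by omega)) hq
  obtain ⟨r, hr⟩ := Nat.exists_eq_add_of_le hle
  set m := c * (a + 1) * q with hmdef
  have e2 : m + m = r + (a + c * ((a + 1) * q)) := by
    rw [hmdef] at hr ⊢
    rw [mul_assoc] at hr ⊢
    omega
  rw [e2, Function.iterate_add_apply, h2, ← Function.iterate_add_apply, add_comm r a, ← hr]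

end alg

variable {p : ℕ} [hp : Fact p.Prime] {ι : Type} [Fintype ι]

/-- Polynomials which are affine modulo `p`. -/
def AffMod (Φ : ι → MvPolynomial ι ℤ_[p]) : Prop :=
  ∀ i, ∃ (b : ℤ_[p]) (a : ι → ℤ_[p]) (r : MvPolynomial ι ℤ_[p]),
    Φ i = C b + ∑ j, C (a j) * X j + C (p : ℤ_[p]) * r

omit [Fintype ι] in
theorem dvd_of_map_eq_zero (P : MvPolynomial ι ℤ_[p])
    (h : map (PadicInt.toZMod : ℤ_[p] →+* ZMod p) P = 0) :
    ∃ P' : MvPolynomial ι ℤ_[p], P = C (p : ℤ_[p]) * P' := by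
  have h1 : C (p : ℤ_[p]) ∣ P := by
    rw [C_dvd_iff_dvd_coeff]
    intro κ
    have h2 : PadicInt.toZMod (coeff κ P) = 0 := by
      rw [← coeff_map, h, coeff_zero]
    have h3 : coeff κ P ∈ RingHom.ker (PadicInt.toZMod : ℤ_[p] →+* ZMod p) := h2
    rw [PadicInt.ker_toZMod, PadicInt.maximalIdeal_eq_span_p, Ideal.mem_span_singleton] at h3
    exact h3
  exact h1

/-- An iterate of the substitution operator is idempotent modulo `p`. -/
theorem exists_idem (Φ : ι → MvPolynomial ι ℤ_[p]) (hΦ : AffMod Φ) :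
    ∃ c : ℕ, 0 < c ∧ ∀ m : ℕ, 0 < m → c ∣ m → ∀ P : MvPolynomial ι ℤ_[p],
      ∃ P', (bind₁ Φ)^[m + m] P = (bind₁ Φ)^[m] P + C (p : ℤ_[p]) * P' := by
  set φ : ℤ_[p] →+* ZMod p := PadicInt.toZMod with hφ
  have haff : ∀ i, map φ (Φ i) ∈ affSet (ZMod p) ι := by
    intro i
    obtain ⟨b, a, r, h⟩ := hΦ i
    refine ⟨⟨φ b, fun j => φ (a j)⟩, ?_⟩
    rw [h]
    simp only [map_add, map_sum, map_mul, map_C, map_X]
    have h1 : φ (p : ℤ_[p]) = 0 := by
      rw [map_natCast]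
      exact ZMod.natCast_self p
    rw [h1, C_0, zero_mul, add_zero]
  obtain ⟨c, hc, h⟩ := exists_idem_aff (fun i => map φ (Φ i)) haff
  refine ⟨c, hc, fun m hm hdvd P => ?_⟩
  have hit : ∀ k P, map φ ((bind₁ Φ)^[k] P) = (bind₁ fun i => map φ (Φ i))^[k] (map φ P) := by
    intro k
    induction k with
    | zero => intro P; rfl
    | succ k ih =>
      intro P
      rw [Function.iterate_succ_apply', map_bind₁, ih, Function.iterate_succ_apply']
  obtain ⟨P', hP'⟩ := dvd_of_map_eq_zero ((bind₁ Φ)^[m + m] P - (bind₁ Φ)^[m] P) (by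
    rw [map_sub, hit, hit, h m hm hdvd, sub_self])
  exact ⟨P', by rw [← hP']; ring⟩

/-! ### The sequences -/

/-- The values of `P` along the orbit of `u` under the `m`-th iterate of `Φ`. -/
noncomputable def sq (Φ : ι → MvPolynomial ι ℤ_[p]) (m : ℕ) (P : MvPolynomial ι ℤ_[p])
    (u : ι → ℤ_[p]) (n : ℕ) : ℤ_[p] := eval ((pt Φ)^[m * n] u) P

/-- The substitution operator is idempotent modulo `p`. -/
def Idem (Φ : ι → MvPolynomial ι ℤ_[p]) (m : ℕ) : Prop :=
  ∀ P : MvPolynomial ι ℤ_[p],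
    ∃ P', (bind₁ Φ)^[m + m] P = (bind₁ Φ)^[m] P + C (p : ℤ_[p]) * P'

omit [Fintype ι] in
theorem sq_shift (Φ : ι → MvPolynomial ι ℤ_[p]) (m : ℕ) (P : MvPolynomial ι ℤ_[p])
    (u : ι → ℤ_[p]) (n r : ℕ) : sq Φ m P ((pt Φ)^[m * r] u) n = sq Φ m P u (n + r) := by
  unfold sq
  rw [← Function.iterate_add_apply, mul_add]

omit [Fintype ι] in
theorem sq_op (Φ : ι → MvPolynomial ι ℤ_[p]) (m : ℕ) (P : MvPolynomial ι ℤ_[p])
    (u : ι → ℤ_[p]) (n r : ℕ) : sq Φ m ((bind₁ Φ)^[m * r] P) u n = sq Φ m P u (n + r) := by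
  unfold sq
  rw [eval_bind_iter, ← Function.iterate_add_apply, mul_add, add_comm]

omit [Fintype ι] in
/-- The differences from `i` on are divisible by `p ^ i`. -/
theorem exists_diff (Φ : ι → MvPolynomial ι ℤ_[p]) (m : ℕ) (hm : Idem Φ m) (i : ℕ) :
    ∀ P : MvPolynomial ι ℤ_[p], ∃ P', ∀ (u : ι → ℤ_[p]) (n : ℕ),
      (fwdDiff 1)^[i] (sq Φ m P u) (n + i) = (p : ℤ_[p]) ^ i * sq Φ m P' u n := by
  induction i with
  | zero => exact fun P => ⟨P, fun u n => by simp⟩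
  | succ i ih =>
    intro P
    obtain ⟨Q, hQ⟩ := ih P
    obtain ⟨Q', hQ'⟩ := hm Q
    refine ⟨Q', fun u n => ?_⟩
    rw [Function.iterate_succ_apply']
    unfold fwdDiff
    have e1 : n + (i + 1) + 1 = n + 2 + i := by ring
    have e2 : n + (i + 1) = n + 1 + i := by ring
    have e3 := hQ u (n + 2)
    have e4 := hQ u (n + 1)
    unfold fwdDiff at e3 e4
    rw [e1, e2, e3, e4]
    have h1 := sq_op Φ m Q u n 2
    have h2 := sq_op Φ m Q u n 1
    rw [mul_one] at h2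
    rw [mul_two] at h1
    rw [← h1, ← h2, hQ']
    unfold sq
    rw [eval_add, eval_mul, eval_C, pow_succ]
    ring

theorem fwdDiff_dvd {f : ℕ → ℤ_[p]} {c : ℤ_[p]} {n : ℕ} (h : ∀ l, c ∣ f (n + l)) (j : ℕ) :
    ∀ l, c ∣ (fwdDiff 1)^[j] f (n + l) := by
  induction j with
  | zero => exact h
  | succ j ih =>
    intro l
    rw [Function.iterate_succ_apply']
    exact dvd_sub (ih (l + 1)) (ih l)

omit [Fintype ι] in
theorem dvd_min (Φ : ι → MvPolynomial ι ℤ_[p]) (m : ℕ) (hm : Idem Φ m) (P : MvPolynomial ι ℤ_[p])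
    (u : ι → ℤ_[p]) (i n : ℕ) :
    (p : ℤ_[p]) ^ min i n ∣ (fwdDiff 1)^[i] (sq Φ m P u) n := by
  rcases le_total i n with h | h
  · rw [min_eq_left h]
    obtain ⟨P', hP'⟩ := exists_diff Φ m hm i P
    obtain ⟨l, rfl⟩ := Nat.exists_eq_add_of_le h
    rw [add_comm i l, hP']
    exact dvd_mul_right _ _
  · rw [min_eq_right h]
    obtain ⟨P', hP'⟩ := exists_diff Φ m hm n P
    obtain ⟨j, rfl⟩ := Nat.exists_eq_add_of_le h
    rw [add_comm n j, Function.iterate_add_apply]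
    refine fwdDiff_dvd (fun l => ?_) j 0
    rw [add_comm n l, hP']
    exact dvd_mul_right _ _

/-- A binomial coefficient. -/
theorem dvd_choose (r l b : ℕ) (hb : ¬ p ^ (b + 1) ∣ l) (hl : 0 < l) (hlr : l ≤ p ^ r) :
    p ^ (r - b) ∣ (p ^ r).choose l := by
  have h1 : p ^ r ∣ l * (p ^ r).choose l := by
    obtain ⟨l', rfl⟩ := Nat.exists_eq_succ_of_ne_zero hl.ne'
    obtain ⟨q, hq⟩ := Nat.exists_eq_succ_of_ne_zero (pow_ne_zero r hp.1.ne_zero : p ^ r ≠ 0)
    have h2 := Nat.add_one_mul_choose_eq q l'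
    rw [hq]
    rw [mul_comm (l'.succ)]
    exact ⟨_, h2.symm⟩
  obtain ⟨v, w, hw, hvw⟩ := Nat.exists_eq_pow_mul_and_not_dvd hl.ne' p hp.1.ne_one
  have hv : v ≤ b := by
    by_contra hcon
    push Not at hcon
    apply hb
    rw [hvw]
    exact Dvd.dvd.mul_right (pow_dvd_pow _ hcon) _
  rcases le_or_gt r b with hrb | hrb
  · rw [Nat.sub_eq_zero_of_le hrb, pow_zero]
    exact one_dvd _
  · rw [hvw, mul_assoc] at h1
    have h2 : p ^ v * p ^ (r - v) ∣ p ^ v * (w * (p ^ r).choose (p ^ v * w)) := by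
      rw [← pow_add, Nat.add_sub_cancel' (by omega)]
      exact h1
    have h3 := Nat.dvd_of_mul_dvd_mul_left (Nat.pow_pos hp.1.pos) h2
    have h4 : Nat.Coprime (p ^ (r - v)) w :=
      Nat.Coprime.pow_left _ ((Nat.Prime.coprime_iff_not_dvd hp.1).2 hw)
    rw [hvw]
    exact (pow_dvd_pow _ (by omega)).trans (h4.dvd_of_dvd_mul_left h3)

omit [Fintype ι] in
/-- The values at `n + p ^ r` and `n` are near. -/
theorem dvd_shift (Φ : ι → MvPolynomial ι ℤ_[p]) (m : ℕ) (hm : Idem Φ m)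
    (P : MvPolynomial ι ℤ_[p]) (u : ι → ℤ_[p]) (n r : ℕ) :
    (p : ℤ_[p]) ^ min r n ∣ sq Φ m P u (n + p ^ r) - sq Φ m P u n := by
  have h1 := shift_eq_sum_fwdDiff_iter (1 : ℕ) (sq Φ m P u) (p ^ r) n
  rw [smul_eq_mul, mul_one] at h1
  rw [h1, Finset.sum_range_succ']
  rw [Nat.choose_zero_right, one_smul, Function.iterate_zero, id_eq, add_sub_cancel_right]
  refine Finset.dvd_sum fun l hl => ?_
  rw [Finset.mem_range] at hl
  rw [nsmul_eq_mul]
  obtain ⟨v, w, hw, hvw⟩ := Nat.exists_eq_pow_mul_and_not_dvd (Nat.succ_ne_zero l) p hp.1.ne_one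
  have hw0 : 0 < w := Nat.pos_of_ne_zero fun h0 => hw (by rw [h0]; exact dvd_zero _)
  have h2 : p ^ (r - v) ∣ (p ^ r).choose (l + 1) := by
    refine dvd_choose r (l + 1) v ?_ (Nat.succ_pos l) hl
    rw [show l + 1 = p ^ v * w from hvw, pow_succ]
    intro hcon
    exact hw (Nat.dvd_of_mul_dvd_mul_left (Nat.pow_pos hp.1.pos) hcon)
  have h3 : v ≤ l := by
    have h4 : v < p ^ v := Nat.lt_pow_self hp.1.one_lt
    have h5 : p ^ v ≤ l + 1 := by
      rw [show l + 1 = p ^ v * w from hvw]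
      exact Nat.le_mul_of_pos_right _ hw0
    omega
  have h6 : (p : ℤ_[p]) ^ (r - v) ∣ (((p ^ r).choose (l + 1) : ℕ) : ℤ_[p]) := by
    obtain ⟨q, hq⟩ := h2
    rw [hq]
    push_cast
    exact dvd_mul_right _ _
  have h7 := mul_dvd_mul h6 (dvd_min Φ m hm P u (l + 1) n)
  rw [← pow_add] at h7
  exact (pow_dvd_pow _ (by omega)).trans h7

theorem isClosed_dvd (k : ℕ) : IsClosed {z : ℤ_[p] | (p : ℤ_[p]) ^ k ∣ z} := by
  have h : {z : ℤ_[p] | (p : ℤ_[p]) ^ k ∣ z} = {z : ℤ_[p] | ‖z‖ ≤ (p : ℝ) ^ (-(k : ℤ))} := by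
    ext z
    rw [Set.mem_ofPred_eq, Set.mem_ofPred_eq, PadicInt.norm_le_pow_iff_mem_span_pow,
      Ideal.mem_span_singleton]
  rw [h]
  exact isClosed_le continuous_norm continuous_const

omit [Fintype ι] in
theorem continuous_pt (Φ : ι → MvPolynomial ι ℤ_[p]) : Continuous (pt Φ) :=
  continuous_pi fun i => MvPolynomial.continuous_eval (Φ i)

omit [Fintype ι] in
theorem continuous_sq (Φ : ι → MvPolynomial ι ℤ_[p]) (m : ℕ) (P : MvPolynomial ι ℤ_[p]) (n : ℕ) :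
    Continuous fun u : ι → ℤ_[p] => sq Φ m P u n :=
  (MvPolynomial.continuous_eval P).comp ((continuous_pt Φ).iterate _)

omit [Fintype ι] in
theorem continuous_diff (Φ : ι → MvPolynomial ι ℤ_[p]) (m : ℕ) (P : MvPolynomial ι ℤ_[p])
    (i : ℕ) : ∀ n : ℕ, Continuous fun u : ι → ℤ_[p] => (fwdDiff 1)^[i] (sq Φ m P u) n := by
  induction i with
  | zero => exact fun n => continuous_sq Φ m P n
  | succ i ih =>
    intro n
    simp only [Function.iterate_succ_apply']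
    exact (ih (n + 1)).sub (ih n)

omit [Fintype ι] in
/-- **The limit orbit.** -/
theorem exists_limit (Φ : ι → MvPolynomial ι ℤ_[p]) (m : ℕ) (hm : Idem Φ m) (u : ι → ℤ_[p])
    (Ω : Set (ι → ℤ_[p])) (hΩ : IsClosed Ω) (hu : ∀ r, (pt Φ)^[m * r] u ∈ Ω) :
    ∃ β ∈ Ω, (∀ P n, (p : ℤ_[p]) ^ n ∣ sq Φ m P u n - sq Φ m P β n) ∧
      ∀ P i n, (p : ℤ_[p]) ^ i ∣ (fwdDiff 1)^[i] (sq Φ m P β) n := by
  set w : ℕ → ι → ℤ_[p] := fun r => (pt Φ)^[m * p ^ r] u with hw
  set F : Ultrafilter (ι → ℤ_[p]) := (hyperfilter ℕ).map w with hF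
  set β := F.lim with hβ
  have hlim : Tendsto w (hyperfilter ℕ : Filter ℕ) (𝓝 β) := F.le_nhds_lim
  have hev : ∀ N : ℕ, ∀ᶠ r in (hyperfilter ℕ : Filter ℕ), N ≤ r := by
    intro N
    have h1 : ∀ᶠ r in atTop, N ≤ r := eventually_ge_atTop N
    exact h1.filter_mono (by
      rw [← Nat.cofinite_eq_atTop]
      exact hyperfilter_le_cofinite)
  refine ⟨β, hΩ.mem_of_tendsto hlim (Eventually.of_forall fun r => hu _), ?_, ?_⟩
  · intro P n
    have h1 : Tendsto (fun r => sq Φ m P u n - sq Φ m P (w r) n) (hyperfilter ℕ : Filter ℕ)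
        (𝓝 (sq Φ m P u n - sq Φ m P β n)) :=
      (continuous_const.sub (continuous_sq Φ m P n)).continuousAt.tendsto.comp hlim
    refine (isClosed_dvd n).mem_of_tendsto h1 ?_
    filter_upwards [hev n] with r hr
    rw [hw, sq_shift, ← neg_sub, dvd_neg]
    have h2 := dvd_shift Φ m hm P u n r
    rwa [min_eq_right hr] at h2
  · intro P i n
    have h1 : Tendsto (fun r => (fwdDiff 1)^[i] (sq Φ m P (w r)) n) (hyperfilter ℕ : Filter ℕ)
        (𝓝 ((fwdDiff 1)^[i] (sq Φ m P β) n)) :=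
      (continuous_diff Φ m P i n).continuousAt.tendsto.comp hlim
    refine (isClosed_dvd i).mem_of_tendsto h1 ?_
    filter_upwards [hev i] with r hr
    have h2 : sq Φ m P (w r) = fun n => sq Φ m P u (n + p ^ r) := by
      funext n
      rw [hw, sq_shift]
    rw [h2, fwdDiff_iter_comp_add]
    have h3 := dvd_min Φ m hm P u i (n + p ^ r)
    rwa [min_eq_left] at h3
    have h4 : r < p ^ r := Nat.lt_pow_self hp.1.one_lt
    omega

omit [Fintype ι] in
/-- A common bound by compactness. -/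
theorem exists_mu {J : Type} (Λ : Set (ι → ℤ_[p])) (hΛ : IsClosed Λ)
    (q : J → (ι → ℤ_[p]) → ℤ_[p]) (hq : ∀ j, Continuous (q j))
    (h : ∀ β ∈ Λ, ∃ j, q j β ≠ 0) : ∃ μ : ℕ, ∀ β ∈ Λ, ∃ j, ¬ (p : ℤ_[p]) ^ μ ∣ q j β := by
  by_contra hcon
  push Not at hcon
  choose b hb hdvd using hcon
  set F : Ultrafilter (ι → ℤ_[p]) := (hyperfilter ℕ).map b with hF
  have hlim : Tendsto b (hyperfilter ℕ : Filter ℕ) (𝓝 F.lim) := F.le_nhds_lim
  have hmem : F.lim ∈ Λ := hΛ.mem_of_tendsto hlim (Eventually.of_forall hb)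
  obtain ⟨j, hj⟩ := h _ hmem
  apply hj
  have h1 : Tendsto (fun r => q j (b r)) (hyperfilter ℕ : Filter ℕ) (𝓝 (q j F.lim)) :=
    (hq j).continuousAt.tendsto.comp hlim
  have h2 : ∀ k : ℕ, (p : ℤ_[p]) ^ k ∣ q j F.lim := by
    intro k
    refine (isClosed_dvd k).mem_of_tendsto h1 ?_
    have h3 : ∀ᶠ r in (hyperfilter ℕ : Filter ℕ), k ≤ r := by
      have h1 : ∀ᶠ r in atTop, k ≤ r := eventually_ge_atTop k
      exact h1.filter_mono (by
        rw [← Nat.cofinite_eq_atTop]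
        exact hyperfilter_le_cofinite)
    filter_upwards [h3] with r hr
    exact (pow_dvd_pow _ hr).trans (hdvd r j)
  by_contra hne
  obtain ⟨k, hk⟩ : ∃ k : ℕ, (p : ℝ) ^ (-(k : ℤ)) < ‖q j F.lim‖ :=
    PadicInt.exists_pow_neg_lt p (norm_pos_iff.2 hne)
  have h4 := h2 k
  rw [← Ideal.mem_span_singleton, ← PadicInt.norm_le_pow_iff_mem_span_pow] at h4
  exact absurd hk (not_lt.2 h4)

/-- **The gap lemma on a residue class**, uniform in the starting point. -/
theorem local_gap (hp2 : p ≠ 2) (Φ : ι → MvPolynomial ι ℤ_[p]) (m : ℕ) (hm : Idem Φ m)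
    (Ω : Set (ι → ℤ_[p])) (hΩ : IsClosed Ω) (hst : ∀ u ∈ Ω, (pt Φ)^[m] u ∈ Ω)
    (H : Set (MvPolynomial ι ℤ_[p])) (hH : ∀ β ∈ Ω, ∃ h ∈ H, ∃ n, sq Φ m h β n ≠ 0) :
    ∃ μ : ℕ, ∀ u ∈ Ω, ∀ A : Finset ℕ, (∀ n ∈ A, ∀ h ∈ H, sq Φ m h u n = 0) → 2 * μ < A.card →
      ∀ X L : ℕ, (∀ n ∈ A, X ≤ n) → (∀ n ∈ A, n ≤ L) → p ^ X < p ^ μ * L ^ (2 * μ) := by
  obtain ⟨μ, hμ⟩ := exists_mu (J := H × ℕ) Ω hΩ (fun j β => sq Φ m j.1 β j.2)
    (fun j => continuous_sq Φ m _ _) (by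
      intro β hβ
      obtain ⟨h, hh, n, hn⟩ := hH β hβ
      exact ⟨(⟨h, hh⟩, n), hn⟩)
  refine ⟨μ, fun u hu A hA hc X L hX hL => ?_⟩
  have hst' : ∀ r, (pt Φ)^[m * r] u ∈ Ω := by
    intro r
    induction r with
    | zero => exact hu
    | succ r ih =>
      rw [mul_add, mul_one, add_comm, Function.iterate_add_apply]
      exact hst _ ih
  obtain ⟨β, hβ, h1, h2⟩ := exists_limit Φ m hm u Ω hΩ hst'
  obtain ⟨⟨⟨h, hh⟩, n⟩, hn⟩ := hμ β hβ
  exact gap_seq hp2 (sq Φ m h β) (sq Φ m h u) (h1 h) (h2 h) μ ⟨n, hn⟩ A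
    (fun n hn => hA n hn h hh) hc X L hX hL

end Pool.Agent.Q170.GP
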