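import Pool.Agent.Q170.GP.Proj

/-!
# Polynomials of commuting matrices
-/

set_option autoImplicit false

open MvPolynomial Filter Topology

namespace Pool.Agent.Q170.GP

open Pool.Agent.H936R2 (pt)

section alg

variable {R : Type} [CommRing R] {n d : ℕ}

/-- The value of a polynomial at matrices (the products are taken in the order of the variables). -/
noncomputable def evM {S : Type} [CommRing S] (f : R →+* S) (P : MvPolynomial (Fin n) R)
    (A : Fin n → Matrix (Fin d) (Fin d) S) : Matrix (Fin d) (Fin d) S :=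
  ∑ m ∈ P.support, f (coeff m P) • (List.ofFn fun i => A i ^ m i).prod

theorem evM_map {S S' : Type} [CommRing S] [CommRing S'] (f : R →+* S) (φ : S →+* S')
    (P : MvPolynomial (Fin n) R) (A : Fin n → Matrix (Fin d) (Fin d) S) :
    φ.mapMatrix (evM f P A) = evM (φ.comp f) P fun i => φ.mapMatrix (A i) := by
  unfold evM
  rw [map_sum]
  refine Finset.sum_congr rfl fun m _ => ?_
  have h1 : ∀ (c : S) (M : Matrix (Fin d) (Fin d) S),
      φ.mapMatrix (c • M) = φ c • φ.mapMatrix M := by
    intro c M
    ext i j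
    simp
  rw [h1, map_list_prod, List.map_ofFn]
  congr 3
  funext i
  simp only [Function.comp_apply, map_pow]

theorem evM_hom {S 𝒜 : Type} [CommRing S] [CommRing 𝒜] (f : R →+* S) (g : R →+* 𝒜)
    (ψ : 𝒜 →+* Matrix (Fin d) (Fin d) S) (hψ : ∀ r, ψ (g r) = Matrix.scalar (Fin d) (f r))
    (P : MvPolynomial (Fin n) R) (a : Fin n → 𝒜) :
    evM f P (fun i => ψ (a i)) = ψ (eval₂ g a P) := by
  unfold evM
  rw [eval₂_eq', map_sum]
  refine Finset.sum_congr rfl fun m _ => ?_
  rw [map_mul, hψ, ← List.prod_ofFn, map_list_prod, List.map_ofFn]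
  rw [Matrix.scalar_apply, ← Matrix.smul_one_eq_diagonal, smul_mul_assoc, one_mul]
  congr 3
  funext i
  simp only [Function.comp_apply, map_pow]

theorem pow_vec {S : Type} [CommRing S] (M : Matrix (Fin d) (Fin d) S) (c : S) (u : Fin d → S)
    (h : M.mulVec u = c • u) (k : ℕ) : (M ^ k).mulVec u = c ^ k • u := by
  induction k with
  | zero => rw [pow_zero, Matrix.one_mulVec, pow_zero, one_smul]
  | succ k ih => rw [pow_succ, ← Matrix.mulVec_mulVec, h, Matrix.mulVec_smul, ih, smul_smul,
      pow_succ, mul_comm]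

theorem list_vec {S : Type} [CommRing S] (u : Fin d → S) (l : List (Matrix (Fin d) (Fin d) S × S))
    (h : ∀ q ∈ l, q.1.mulVec u = q.2 • u) :
    ((l.map Prod.fst).prod).mulVec u = ((l.map Prod.snd).prod) • u := by
  induction l with
  | nil => simp
  | cons q l ih =>
    rw [List.map_cons, List.map_cons, List.prod_cons, List.prod_cons, ← Matrix.mulVec_mulVec,
      ih fun q hq => h q (List.mem_cons_of_mem _ hq), Matrix.mulVec_smul, h q List.mem_cons_self,
      smul_smul, mul_comm]

theorem evM_vec {S : Type} [CommRing S] (f : R →+* S) (P : MvPolynomial (Fin n) R)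
    (A : Fin n → Matrix (Fin d) (Fin d) S) (lam : Fin n → S) (u : Fin d → S)
    (h : ∀ i, (A i).mulVec u = lam i • u) : (evM f P A).mulVec u = eval₂ f lam P • u := by
  unfold evM
  rw [eval₂_eq', Matrix.sum_mulVec, Finset.sum_smul]
  refine Finset.sum_congr rfl fun m _ => ?_
  have h1 := list_vec u (List.ofFn fun i => (A i ^ m i, lam i ^ m i)) (by
    intro q hq
    obtain ⟨i, rfl⟩ := (List.mem_ofFn).1 hq
    exact pow_vec _ _ _ (h i) _)
  rw [List.map_ofFn, List.map_ofFn] at h1
  rw [Matrix.smul_mulVec, ← List.prod_ofFn, ← smul_smul]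
  congr 1

end alg

/-- The matrices with the given entries. -/
def mat {R : Type} {n d : ℕ} (x : Fin n × Fin d × Fin d → R) : Fin n → Matrix (Fin d) (Fin d) R :=
  fun i => Matrix.of fun a b => x (i, a, b)

/-- The entries of the matrices. -/
def ent {R : Type} {n d : ℕ} (A : Fin n → Matrix (Fin d) (Fin d) R) : Fin n × Fin d × Fin d → R :=
  fun q => A q.1 q.2.1 q.2.2

theorem mat_ent {R : Type} {n d : ℕ} (A : Fin n → Matrix (Fin d) (Fin d) R) : mat (ent A) = A := rfl

theorem ent_mat {R : Type} {n d : ℕ} (x : Fin n × Fin d × Fin d → R) : ent (mat x) = x := rfl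

/-- The generic matrices. -/
noncomputable def gen (R : Type) [CommRing R] (n d : ℕ) :
    Fin n → Matrix (Fin d) (Fin d) (MvPolynomial (Fin n × Fin d × Fin d) R) :=
  mat X

/-- The map on matrices. -/
noncomputable def stp {R : Type} [CommRing R] {n d : ℕ} (F : Fin n → MvPolynomial (Fin n) R)
    (A : Fin n → Matrix (Fin d) (Fin d) R) : Fin n → Matrix (Fin d) (Fin d) R :=
  fun i => evM (RingHom.id R) (F i) A

/-- The map on the entries. -/
noncomputable def big {R : Type} [CommRing R] {n : ℕ} (d : ℕ) (F : Fin n → MvPolynomial (Fin n) R) :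
    Fin n × Fin d × Fin d → MvPolynomial (Fin n × Fin d × Fin d) R :=
  ent fun i => evM C (F i) (gen R n d)

theorem eval_gen {R : Type} [CommRing R] {n d : ℕ} (P : MvPolynomial (Fin n) R)
    (x : Fin n × Fin d × Fin d → R) (a b : Fin d) :
    eval x (evM C P (gen R n d) a b) = evM (RingHom.id R) P (mat x) a b := by
  have h1 := evM_map (C : R →+* MvPolynomial (Fin n × Fin d × Fin d) R) (eval x) P (gen R n d)
  have h2 : (eval x).comp (C : R →+* MvPolynomial (Fin n × Fin d × Fin d) R) = RingHom.id R := by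
    ext r
    simp
  have h3 : (fun i => (eval x).mapMatrix (gen R n d i)) = mat x := by
    funext i
    ext a b
    simp [gen, mat]
  rw [h2, h3] at h1
  rw [← h1]
  rfl

theorem pt_big {R : Type} [CommRing R] {n d : ℕ} (F : Fin n → MvPolynomial (Fin n) R)
    (x : Fin n × Fin d × Fin d → R) : pt (big d F) x = ent (stp F (mat x)) := by
  funext q
  exact eval_gen (F q.1) x q.2.1 q.2.2

theorem pt_big_iter {R : Type} [CommRing R] {n d : ℕ} (F : Fin n → MvPolynomial (Fin n) R)
    (A : Fin n → Matrix (Fin d) (Fin d) R) (k : ℕ) :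
    (pt (big d F))^[k] (ent A) = ent ((stp F)^[k] A) := by
  induction k with
  | zero => rfl
  | succ k ih => rw [Function.iterate_succ_apply', ih, pt_big, mat_ent,
      Function.iterate_succ_apply']

/-- The values at the elements of a commutative ring of matrices. -/
theorem stp_hom {R 𝒜 : Type} [CommRing R] [CommRing 𝒜] {n d : ℕ} (g : R →+* 𝒜)
    (ψ : 𝒜 →+* Matrix (Fin d) (Fin d) R) (hψ : ∀ r, ψ (g r) = Matrix.scalar (Fin d) r)
    (F : Fin n → MvPolynomial (Fin n) R) (a : Fin n → 𝒜) (k : ℕ) :
    (stp F)^[k] (fun i => ψ (a i)) =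
      fun i => ψ ((fun (y : Fin n → 𝒜) (j : Fin n) => eval₂ g y (F j))^[k] a i) := by
  induction k with
  | zero => rfl
  | succ k ih =>
    rw [Function.iterate_succ_apply', ih, Function.iterate_succ_apply']
    funext i
    exact evM_hom (RingHom.id R) g ψ hψ (F i) _

/-- A common eigenvector of commuting matrices. -/
theorem exists_eigen {n d : ℕ} (hd : 0 < d) (A : Fin n → Matrix (Fin d) (Fin d) ℂ)
    (hA : ∀ i j, A i * A j = A j * A i) :
    ∃ (lam : Fin n → ℂ) (u : Fin d → ℂ), u ≠ 0 ∧ ∀ i, (A i).mulVec u = lam i • u := by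
  have key : ∀ t : Finset (Fin n), ∃ (lam : Fin n → ℂ) (u : Fin d → ℂ), u ≠ 0 ∧
      ∀ i ∈ t, (A i).mulVec u = lam i • u := by
    classical
    intro t
    induction t using Finset.induction_on with
    | empty => exact ⟨0, fun _ => 1, fun h => one_ne_zero (congrFun h ⟨0, hd⟩), by simp⟩
    | insert j t hj ih =>
      obtain ⟨lam, u, hu, h⟩ := ih
      set U : Submodule ℂ (Fin d → ℂ) :=
        { carrier := {w | ∀ i ∈ t, (A i).mulVec w = lam i • w}
          add_mem' := fun {w w'} hw hw' i hi => by
            rw [Matrix.mulVec_add, hw i hi, hw' i hi, smul_add]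
          zero_mem' := fun i _ => by rw [Matrix.mulVec_zero, smul_zero]
          smul_mem' := fun c w hw i hi => by
            rw [Matrix.mulVec_smul, hw i hi, smul_comm] } with hU
      have hmap : ∀ w ∈ U, (A j).mulVecLin w ∈ U := by
        intro w hw i hi
        rw [Matrix.mulVecLin_apply, Matrix.mulVec_mulVec, hA, ← Matrix.mulVec_mulVec, hw i hi,
          Matrix.mulVec_smul]
      have hne : Nontrivial U := ⟨⟨⟨u, h⟩, 0, fun h0 => hu (congrArg Subtype.val h0)⟩⟩
      obtain ⟨c, hc⟩ := Module.End.exists_eigenvalue (((A j).mulVecLin).restrict hmap)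
      obtain ⟨w, hw⟩ := hc.exists_hasEigenvector
      refine ⟨Function.update lam j c, w, fun h0 => hw.2 (Subtype.ext h0), fun i hi => ?_⟩
      rcases Finset.mem_insert.1 hi with rfl | hi
      · rw [Function.update_self]
        exact congrArg Subtype.val hw.apply_eq_smul
      · have hij : i ≠ j := fun h => hj (by rw [← h]; exact hi)
        rw [Function.update_of_ne hij]
        exact w.2 i hi
  obtain ⟨lam, u, hu, h⟩ := key Finset.univ
  exact ⟨lam, u, hu, fun i => h i (Finset.mem_univ i)⟩

end Pool.Agent.Q170.GP
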