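import Pool.Agent.Q170.GP.Mat

/-!
# The gap theorem for commuting matrices
-/

set_option autoImplicit false

open MvPolynomial Filter Topology

namespace Pool.Agent.Q170.GP

open Pool.Agent.H936R2 (pt)

theorem exists_comm_ring {R : Type} [CommRing R] {d : ℕ} (T : Set (Matrix (Fin d) (Fin d) R))
    (hT : ∀ a ∈ T, ∀ b ∈ T, a * b = b * a) :
    ∃ (𝒜 : Type) (_ : CommRing 𝒜) (g : R →+* 𝒜) (ψ : 𝒜 →+* Matrix (Fin d) (Fin d) R),
      Function.Injective ψ ∧ (∀ r, ψ (g r) = Matrix.scalar (Fin d) r) ∧ ∀ a ∈ T, ∃ b, ψ b = a := by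
  let _ : CommRing (Algebra.adjoin R T) := Algebra.adjoinCommRingOfComm R hT
  refine ⟨Algebra.adjoin R T, inferInstance,
    (algebraMap R (Algebra.adjoin R T) : R →+* Algebra.adjoin R T),
    (Algebra.adjoin R T).val.toRingHom, Subtype.coe_injective, fun r => ?_, fun a ha => ?_⟩
  · rfl
  · exact ⟨⟨a, Algebra.subset_adjoin ha⟩, rfl⟩

variable {p : ℕ} [hp : Fact p.Prime] {n d : ℕ}

/-- `x` gives commuting matrices which generate the unit ideal, with coefficients `c`. -/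
def Good (x c : Fin n × Fin d × Fin d → ℤ_[p]) : Prop :=
  (∀ i j, mat x i * mat x j = mat x j * mat x i) ∧ (∀ i j, mat x i * mat c j = mat c j * mat x i) ∧
    (∀ i j, mat c i * mat c j = mat c j * mat c i) ∧ ∑ i, mat c i * mat x i = 1

/-- Commuting matrices which generate the unit ideal. -/
def OmM (p : ℕ) [Fact p.Prime] (n d : ℕ) : Set (Fin n × Fin d × Fin d → ℤ_[p]) :=
  {x | ∃ c, Good x c}

theorem isClosed_omM : IsClosed (OmM p n d) := by
  have hm : ∀ i : Fin n, Continuous fun x : Fin n × Fin d × Fin d → ℤ_[p] => mat x i :=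
    fun i => continuous_matrix fun a b => continuous_apply _
  have h1 : IsClosed {q : (Fin n × Fin d × Fin d → ℤ_[p]) × (Fin n × Fin d × Fin d → ℤ_[p]) |
      Good q.1 q.2} := by
    have hm1 : ∀ i : Fin n, Continuous fun q : (Fin n × Fin d × Fin d → ℤ_[p]) ×
        (Fin n × Fin d × Fin d → ℤ_[p]) => mat q.1 i := fun i => (hm i).comp continuous_fst
    have hm2 : ∀ i : Fin n, Continuous fun q : (Fin n × Fin d × Fin d → ℤ_[p]) ×
        (Fin n × Fin d × Fin d → ℤ_[p]) => mat q.2 i := fun i => (hm i).comp continuous_snd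
    have e : {q : (Fin n × Fin d × Fin d → ℤ_[p]) × (Fin n × Fin d × Fin d → ℤ_[p]) |
        Good q.1 q.2} = (⋂ i, ⋂ j, {q | mat q.1 i * mat q.1 j = mat q.1 j * mat q.1 i}) ∩
        ((⋂ i, ⋂ j, {q | mat q.1 i * mat q.2 j = mat q.2 j * mat q.1 i}) ∩
        ((⋂ i, ⋂ j, {q | mat q.2 i * mat q.2 j = mat q.2 j * mat q.2 i}) ∩
        {q | ∑ i, mat q.2 i * mat q.1 i = 1})) := by
      ext q
      simp only [Set.mem_inter_iff, Set.mem_iInter, Set.mem_ofPred_eq]
      exact Iff.rfl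
    rw [e]
    refine IsClosed.inter ?_ (IsClosed.inter ?_ (IsClosed.inter ?_ ?_))
    · exact isClosed_iInter fun i => isClosed_iInter fun j =>
        isClosed_eq ((hm1 i).matrix_mul (hm1 j)) ((hm1 j).matrix_mul (hm1 i))
    · exact isClosed_iInter fun i => isClosed_iInter fun j =>
        isClosed_eq ((hm1 i).matrix_mul (hm2 j)) ((hm2 j).matrix_mul (hm1 i))
    · exact isClosed_iInter fun i => isClosed_iInter fun j =>
        isClosed_eq ((hm2 i).matrix_mul (hm2 j)) ((hm2 j).matrix_mul (hm2 i))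
    · exact isClosed_eq (continuous_finsetSum _ fun i _ => (hm2 i).matrix_mul (hm1 i))
        continuous_const
  have h2 : OmM p n d = Prod.fst '' {q : (Fin n × Fin d × Fin d → ℤ_[p]) ×
      (Fin n × Fin d × Fin d → ℤ_[p]) | Good q.1 q.2} := by
    ext x
    constructor
    · rintro ⟨c, hc⟩
      exact ⟨(x, c), hc, rfl⟩
    · rintro ⟨⟨x', c⟩, hc, rfl⟩
      exact ⟨c, hc⟩
  rw [h2]
  exact (h1.isCompact.image continuous_fst).isClosed

/-- The set is mapped to itself. -/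
theorem omM_stable (F : Fin n → MvPolynomial (Fin n) ℤ_[p]) (e : Fin n → ℕ)
    (A : Fin n → Fin n → MvPolynomial (Fin n) ℤ_[p])
    (hA : ∀ i, (X i : MvPolynomial (Fin n) ℤ_[p]) ^ e i = ∑ j, A i j * F j)
    (x : Fin n × Fin d × Fin d → ℤ_[p]) (hx : x ∈ OmM p n d) : pt (big d F) x ∈ OmM p n d := by
  classical
  obtain ⟨c, h1, h2, h3, h4⟩ := hx
  obtain ⟨𝒜, hring, g, ψ, hinj, hg, hT⟩ := exists_comm_ring
    (Set.range (mat x) ∪ Set.range (mat c)) (by
      rintro _ (⟨i, rfl⟩ | ⟨i, rfl⟩) _ (⟨j, rfl⟩ | ⟨j, rfl⟩)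
      · exact h1 i j
      · exact h2 i j
      · exact (h2 j i).symm
      · exact h3 i j)
  choose b hb using fun i => hT (mat x i) (Or.inl ⟨i, rfl⟩)
  choose c' hc' using fun i => hT (mat c i) (Or.inr ⟨i, rfl⟩)
  have h5 : ∑ i, c' i * b i = 1 := by
    apply hinj
    rw [map_sum, map_one, ← h4]
    refine Finset.sum_congr rfl fun i _ => ?_
    rw [map_mul, hb, hc']
  set f : Fin n → 𝒜 := fun j => eval₂ g b (F j) with hf
  have h6 : Ideal.span (Set.range b) = ⊤ := by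
    rw [Ideal.eq_top_iff_one, ← h5]
    exact Ideal.sum_mem _ fun i _ => Ideal.mul_mem_left _ _ (Ideal.subset_span ⟨i, rfl⟩)
  have h7 := Ideal.span_pow_eq_top _ h6 (∑ i, e i)
  have h8 : ∀ i, b i ^ e i ∈ Ideal.span (Set.range f) := by
    intro i
    have h9 := congrArg (eval₂ g b) (hA i)
    rw [eval₂_pow, eval₂_X] at h9
    rw [h9, ← coe_eval₂Hom, map_sum]
    refine Ideal.sum_mem _ fun j _ => ?_
    rw [map_mul]
    exact Ideal.mul_mem_left _ _ (Ideal.subset_span ⟨j, rfl⟩)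
  have h9 : (1 : 𝒜) ∈ Ideal.span (Set.range f) := by
    have h10 : Ideal.span ((fun x => x ^ ∑ i, e i) '' Set.range b) ≤ Ideal.span (Set.range f) := by
      rw [Ideal.span_le]
      rintro _ ⟨_, ⟨i, rfl⟩, rfl⟩
      have h11 : e i ≤ ∑ i, e i :=
        Finset.single_le_sum (f := e) (fun _ _ => Nat.zero_le _) (Finset.mem_univ i)
      obtain ⟨k, hk⟩ := Nat.exists_eq_add_of_le h11
      change b i ^ ∑ i, e i ∈ Ideal.span (Set.range f)
      rw [hk, pow_add]
      exact Ideal.mul_mem_right _ _ (h8 i)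
    rw [h7] at h10
    exact h10 Submodule.mem_top
  obtain ⟨c'', hc''⟩ := Ideal.mem_span_range_iff_exists_fun.1 h9
  have h12 : stp F (mat x) = fun i => ψ (f i) := by
    have h13 := stp_hom g ψ hg F b 1
    rw [Function.iterate_one, Function.iterate_one] at h13
    rw [← h13]
    congr 1
    funext i
    exact (hb i).symm
  rw [pt_big, h12]
  refine ⟨ent fun i => ψ (c'' i), ?_, ?_, ?_, ?_⟩
  · intro i j
    change ψ (f i) * ψ (f j) = ψ (f j) * ψ (f i)
    rw [← map_mul, ← map_mul, mul_comm]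
  · intro i j
    change ψ (f i) * ψ (c'' j) = ψ (c'' j) * ψ (f i)
    rw [← map_mul, ← map_mul, mul_comm]
  · intro i j
    change ψ (c'' i) * ψ (c'' j) = ψ (c'' j) * ψ (c'' i)
    rw [← map_mul, ← map_mul, mul_comm]
  · change ∑ i, ψ (c'' i) * ψ (f i) = 1
    rw [← map_one ψ, ← hc'', map_sum]
    exact Finset.sum_congr rfl fun i _ => (map_mul _ _ _).symm

/-- A complex point with the same relations. -/
theorem omM_point (θ : ℚ_[p] →+* ℂ) (hd : 0 < d) (F : Fin n → MvPolynomial (Fin n) ℤ_[p])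
    (x : Fin n × Fin d × Fin d → ℤ_[p]) (hx : x ∈ OmM p n d) :
    ∃ lam : Fin n → ℂ, lam ≠ 0 ∧ ∀ (k : ℕ) (P : MvPolynomial (Fin n) ℤ_[p]),
      evM (RingHom.id _) P ((stp F)^[k] (mat x)) = 0 →
        eval ((pt fun i => map (tht θ) (F i))^[k] lam) (map (tht θ) P) = 0 := by
  obtain ⟨c, h1, h2, h3, h4⟩ := hx
  obtain ⟨lam, u, hu, hlam⟩ := exists_eigen hd (fun i => (tht θ).mapMatrix (mat x i)) (by
    intro i j
    rw [← map_mul, ← map_mul, h1])
  have hstep : ∀ (P : MvPolynomial (Fin n) ℤ_[p]) (B : Fin n → Matrix (Fin d) (Fin d) ℤ_[p])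
      (l : Fin n → ℂ), (∀ i, ((tht θ).mapMatrix (B i)).mulVec u = l i • u) →
      ((tht θ).mapMatrix (evM (RingHom.id _) P B)).mulVec u = eval l (map (tht θ) P) • u := by
    intro P B l hl
    rw [evM_map, evM_vec _ P _ l u hl, RingHom.comp_id, eval_map]
  have hiter : ∀ k i, ((tht θ).mapMatrix ((stp F)^[k] (mat x) i)).mulVec u =
      ((pt fun i => map (tht θ) (F i))^[k] lam) i • u := by
    intro k
    induction k with
    | zero => exact hlam
    | succ k ih =>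
      intro i
      rw [Function.iterate_succ_apply', Function.iterate_succ_apply']
      exact hstep (F i) _ _ ih
  refine ⟨lam, ?_, fun k P hP => ?_⟩
  · rintro rfl
    apply hu
    have h5 : ((tht θ).mapMatrix (∑ i, mat c i * mat x i)).mulVec u = u := by
      rw [h4, map_one, Matrix.one_mulVec]
    rw [← h5, map_sum, Matrix.sum_mulVec]
    refine Finset.sum_eq_zero fun i _ => ?_
    rw [map_mul, ← Matrix.mulVec_mulVec, hlam i, Pi.zero_apply, zero_smul, Matrix.mulVec_zero]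
  · have h6 := hstep P _ _ (hiter k)
    rw [hP, map_zero, Matrix.zero_mulVec] at h6
    exact (smul_eq_zero.1 h6.symm).resolve_right hu

/-- **The gap theorem for commuting matrices.** -/
theorem mat_gap (hp2 : p ≠ 2) (θ : ℚ_[p] →+* ℂ) (hd : 0 < d)
    (F : Fin n → MvPolynomial (Fin n) ℤ_[p]) (e : Fin n → ℕ)
    (A : Fin n → Fin n → MvPolynomial (Fin n) ℤ_[p])
    (hA : ∀ i, (X i : MvPolynomial (Fin n) ℤ_[p]) ^ e i = ∑ j, A i j * F j)
    (H : Set (MvPolynomial (Fin n) ℤ_[p]))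
    (hV : ∀ x : Fin n → ℂ, x ≠ 0 → ∀ k : ℕ, 0 < k → ∃ m, ∃ h ∈ H,
      eval ((pt fun i => map (tht θ) (F i))^[k * m] x) (map (tht θ) h) ≠ 0) :
    ∃ (M : ℕ) (b C : ℝ), 1 < b ∧ 0 < C ∧ ∀ B : Fin n → Matrix (Fin d) (Fin d) ℤ_[p],
      ent B ∈ OmM p n d → Sparse M b C {m | ∀ h ∈ H, evM (RingHom.id _) h ((stp F)^[m] B) = 0} := by
  classical
  set H' : Set (MvPolynomial (Fin n × Fin d × Fin d) ℤ_[p]) :=
    {q | ∃ h ∈ H, ∃ a b, q = evM C h (gen ℤ_[p] n d) a b} with hH'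
  have hH : ∀ (B : Fin n → Matrix (Fin d) (Fin d) ℤ_[p]) (m : ℕ),
      (∀ q ∈ H', eval ((pt (big d F))^[m] (ent B)) q = 0) ↔
        ∀ h ∈ H, evM (RingHom.id _) h ((stp F)^[m] B) = 0 := by
    intro B m
    rw [pt_big_iter]
    constructor
    · intro h1 h hh
      ext a b
      rw [Matrix.zero_apply, ← h1 _ ⟨h, hh, a, b, rfl⟩, eval_gen, mat_ent]
    · rintro h1 _ ⟨h, hh, a, b, rfl⟩
      rw [eval_gen, mat_ent, h1 h hh, Matrix.zero_apply]
  obtain ⟨a, K, μ, hK, hμ, hgap⟩ := glob_gap (ι := Fin n × Fin d × Fin d) hp2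
    (fun _ => big d F) (OmM p n d) isClosed_omM (omM_stable F e A hA) H' (by
      intro x hx k hk
      by_contra hcon
      push Not at hcon
      obtain ⟨lam, hlam, h1⟩ := omM_point θ hd F x hx
      obtain ⟨m, h, hh, hne⟩ := hV lam hlam k hk
      refine hne (h1 (k * m) h ?_)
      have h2 := (hH (mat x) (k * m)).1 (by
        intro q hq
        rw [ent_mat]
        exact hcon q hq m)
      exact h2 h hh)
  obtain ⟨b, C, hb, hC, hsp⟩ := sparse_of_gap p a K μ hp.1.two_le hK hμ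
  refine ⟨a + K * (2 * μ), b, C, hb, hC, fun B hB => ?_⟩
  have h1 : {m | ∀ h ∈ H, evM (RingHom.id _) h ((stp F)^[m] B) = 0} =
      {m | ∀ q ∈ H', eval ((pw fun _ => big d F)^[m] (ent B)) q = 0} := by
    ext m
    exact (hH B m).symm
  rw [h1]
  exact hsp _ fun j _ => hgap (ent B) hB (a + j) (Nat.le_add_right _ _)

end Pool.Agent.Q170.GP
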