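import Pool.Agent.Q170.GP.Proj

/-!
# Self-maps of quasi-projective varieties
-/

set_option autoImplicit false

open MvPolynomial Filter Topology

namespace Pool.Agent.Q170.GP

open Pool.Agent.H936R2 (pt eval_scale)

/-- Projective space. -/
abbrev PN (N : ℕ) : Type := Projectivization ℂ (Fin (N + 1) → ℂ)

/-- A quasi-projective variety in projective space: the common zeros of the forms of `A` at which not
all the forms of `B` vanish. -/
structure QVar (N : ℕ) where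
  A : Set (MvPolynomial (Fin (N + 1)) ℂ)
  B : Finset (MvPolynomial (Fin (N + 1)) ℂ)
  homA : ∀ F ∈ A, ∃ d : ℕ, F.IsHomogeneous d
  homB : ∀ F ∈ B, ∃ d : ℕ, F.IsHomogeneous d

/-- The points of the variety. -/
def QVar.pts {N : ℕ} (X : QVar N) : Set (PN N) :=
  {x | (∀ F ∈ X.A, eval x.rep F = 0) ∧ ∃ F ∈ X.B, eval x.rep F ≠ 0}

/-- `v` is a vector of homogeneous coordinates of the point `x`. -/
def Coord {N : ℕ} (x : PN N) (v : Fin (N + 1) → ℂ) : Prop :=
  ∃ h : v ≠ 0, Projectivization.mk ℂ v h = x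

/-- On the part of `X` where `g` is not zero, the map `Φ` is given by the forms `F i`. -/
def IsChart {N : ℕ} (X : QVar N) (Φ : PN N → PN N) (F : Fin (N + 1) → MvPolynomial (Fin (N + 1)) ℂ)
    (g : MvPolynomial (Fin (N + 1)) ℂ) : Prop :=
  (∃ d : ℕ, ∀ i, (F i).IsHomogeneous d) ∧ (∃ e : ℕ, g.IsHomogeneous e) ∧
    ∀ y ∈ X.pts, eval y.rep g ≠ 0 → Coord (Φ y) fun i => eval y.rep (F i)

/-- `Φ` is a morphism from `X` to `X`. -/
def IsMorphism {N : ℕ} (X : QVar N) (Φ : PN N → PN N) : Prop :=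
  (∀ x ∈ X.pts, Φ x ∈ X.pts) ∧ ∀ x ∈ X.pts, ∃ F g, eval x.rep g ≠ 0 ∧ IsChart X Φ F g

/-- The point is a zero of all the forms of `C`. -/
def ZeroOf {N : ℕ} (C : Set (MvPolynomial (Fin (N + 1)) ℂ)) (x : PN N) : Prop :=
  ∀ F ∈ C, eval x.rep F = 0

/-- The point has homogeneous coordinates in the field generated by `s`. -/
def RationalPt {N : ℕ} (s : Finset ℂ) (x : PN N) : Prop :=
  ∃ v, Coord x v ∧ ∀ i, v i ∈ Subfield.closure (s : Set ℂ)

/-- The point has homogeneous coordinates `v_i` in the ring `R` generated by `s`, such that the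
`v_i b(v)`, `b ∈ B`, generate the unit ideal of `R`. -/
def IntegralPt {N : ℕ} (X : QVar N) (s : Finset ℂ) (x : PN N) : Prop :=
  ∃ v, Coord x v ∧ (∀ i, v i ∈ Subring.closure (s : Set ℂ)) ∧
    ∃ c : Fin (N + 1) → MvPolynomial (Fin (N + 1)) ℂ → ℂ,
      (∀ i b, c i b ∈ Subring.closure (s : Set ℂ)) ∧ ∑ i, ∑ b ∈ X.B, c i b * (v i * eval v b) = 1

/-- The variety is closed in projective space. -/
def QVar.IsClosed {N : ℕ} (X : QVar N) : Prop :=
  ∀ v : Fin (N + 1) → ℂ, v ≠ 0 → (∀ F ∈ X.A, eval v F = 0) → ∃ F ∈ X.B, eval v F ≠ 0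

theorem Coord.rep {N : ℕ} (x : PN N) : Coord x x.rep := ⟨x.rep_nonzero, x.mk_rep⟩

theorem Coord.scale {N : ℕ} {x : PN N} {v : Fin (N + 1) → ℂ} (h : Coord x v) :
    ∃ c : ℂ, c ≠ 0 ∧ x.rep = fun i => c * v i := by
  obtain ⟨h0, rfl⟩ := h
  obtain ⟨a, ha⟩ := Projectivization.exists_smul_eq_mk_rep ℂ v h0
  refine ⟨a, a.ne_zero, ?_⟩
  rw [← ha]
  rfl

theorem Coord.eval_iff {N : ℕ} {x : PN N} {v : Fin (N + 1) → ℂ} (h : Coord x v)
    {F : MvPolynomial (Fin (N + 1)) ℂ} (hF : ∃ d : ℕ, F.IsHomogeneous d) :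
    eval x.rep F = 0 ↔ eval v F = 0 := by
  obtain ⟨c, hc, hx⟩ := h.scale
  obtain ⟨d, hd⟩ := hF
  rw [hx, eval_scale F d hd, mul_eq_zero]
  exact ⟨fun h => h.resolve_left (pow_ne_zero _ hc), Or.inr⟩

theorem Coord.unscale {N : ℕ} {x : PN N} {v w : Fin (N + 1) → ℂ} (h : Coord x w) (hv : v ≠ 0)
    (c : ℂ) (hw : w = fun i => c * v i) : Coord x v := by
  obtain ⟨h0, rfl⟩ := h
  refine ⟨hv, ?_⟩
  rw [Projectivization.mk_eq_mk_iff']
  have hc : c ≠ 0 := by
    rintro rfl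
    apply h0
    rw [hw]
    funext i
    simp
  refine ⟨c⁻¹, ?_⟩
  rw [hw]
  funext i
  rw [Pi.smul_apply, smul_eq_mul, inv_mul_cancel_left₀ hc]

theorem IsChart.coord {N : ℕ} {X : QVar N} {Φ : PN N → PN N}
    {F : Fin (N + 1) → MvPolynomial (Fin (N + 1)) ℂ} {g : MvPolynomial (Fin (N + 1)) ℂ}
    (h : IsChart X Φ F g) {x : PN N} (hx : x ∈ X.pts) {v : Fin (N + 1) → ℂ} (hv : Coord x v)
    (hg : eval v g ≠ 0) : Coord (Φ x) fun i => eval v (F i) := by
  obtain ⟨⟨d, hd⟩, he, h⟩ := h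
  obtain ⟨c, hc, hxv⟩ := hv.scale
  have h1 := h x hx (fun h0 => hg ((hv.eval_iff he).1 h0))
  have h2 : (fun i => eval x.rep (F i)) = fun i => c ^ d * eval v (F i) := by
    funext i
    rw [hxv, eval_scale (F i) d (hd i)]
  refine h1.unscale ?_ (c ^ d) h2
  intro h0
  obtain ⟨h3, -⟩ := h1
  apply h3
  rw [h2]
  funext i
  have := congrFun h0 i
  simp only [Pi.zero_apply] at this
  simp [this]

/-- Certificates. -/
theorem exists_cert' {ι : Type} [Finite ι] (T : Finset (MvPolynomial ι ℂ)) (P : MvPolynomial ι ℂ)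
    (h : ∀ x : ι → ℂ, (∀ g ∈ T, eval x g = 0) → eval x P = 0) :
    ∃ (e : ℕ) (D : MvPolynomial ι ℂ → MvPolynomial ι ℂ), P ^ e = ∑ t ∈ T, D t * t := by
  obtain ⟨e, he⟩ := exists_power (T : Set (MvPolynomial ι ℂ)) P h
  obtain ⟨D, -, hD⟩ := Submodule.mem_span_finset.1 he
  exact ⟨e, D, hD.symm⟩

/-- A place at which given polynomials and numbers are integral. -/
theorem exists_model' {ι : Type} (T : Finset (MvPolynomial ι ℂ)) (s : Finset ℂ) (B : ℕ) :
    ∃ (p : ℕ) (_ : Fact p.Prime), B < p ∧ ∃ (θ : ℚ_[p] →+* ℂ),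
      (∀ z ∈ s, ∃ y : ℤ_[p], tht θ y = z) ∧
      ∀ g ∈ T, ∃ h : MvPolynomial ι ℤ_[p], map (tht θ) h = g := by
  classical
  obtain ⟨p, hp, hB, θ, hθ⟩ := exists_place (s ∪ T.biUnion fun g => coefs g) B
  refine ⟨p, hp, hB, θ, fun z hz => hθ z (Finset.mem_union_left _ hz), fun g hg => ?_⟩
  exact exists_lift_poly (tht θ) _ fun z hz => hθ z (Finset.mem_union_right _
    (Finset.mem_biUnion.2 ⟨g, hg, hz⟩))

/-- The elements of the ring generated by `s` are integral at the place. -/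
theorem closure_integral {p : ℕ} [Fact p.Prime] (θ : ℚ_[p] →+* ℂ) (s : Finset ℂ)
    (hs : ∀ z ∈ s, ∃ y : ℤ_[p], tht θ y = z) {z : ℂ} (hz : z ∈ Subring.closure (s : Set ℂ)) :
    ∃ y : ℤ_[p], tht θ y = z := by
  have hle : Subring.closure (s : Set ℂ) ≤ (tht θ).range := by
    rw [Subring.closure_le]
    intro z hz
    exact hs z hz
  exact hle hz

theorem closure_rational {p : ℕ} [Fact p.Prime] (θ : ℚ_[p] →+* ℂ) (s : Finset ℂ)
    (hs : ∀ z ∈ s, ∃ y : ℤ_[p], tht θ y = z) {z : ℂ} (hz : z ∈ Subfield.closure (s : Set ℂ)) :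
    ∃ y : ℚ_[p], θ y = z := by
  have hle : Subfield.closure (s : Set ℂ) ≤ θ.fieldRange := by
    rw [Subfield.closure_le]
    intro z hz
    obtain ⟨y, hy⟩ := hs z hz
    exact ⟨(y : ℚ_[p]), hy⟩
  exact hle hz

theorem isUnit_iff_toZMod {p : ℕ} [Fact p.Prime] (z : ℤ_[p]) :
    IsUnit z ↔ (PadicInt.toZMod z : ZMod p) ≠ 0 := by
  rw [← not_iff_not, not_not, ← RingHom.mem_ker, PadicInt.ker_toZMod,
    IsLocalRing.mem_maximalIdeal, mem_nonunits_iff]

theorem cert_unit {p : ℕ} [Fact p.Prime] {ι : Type} (θ : ℚ_[p] →+* ℂ)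
    (T : Finset (MvPolynomial ι ℂ)) (P : MvPolynomial ι ℂ) (e : ℕ)
    (D : MvPolynomial ι ℂ → MvPolynomial ι ℂ) (h : P ^ e = ∑ t ∈ T, D t * t) (v : ι → ℂ)
    (hP : ∃ u : ℤ_[p], IsUnit u ∧ tht θ u = eval v P)
    (hT : ∀ t ∈ T, ∃ w : ℤ_[p], tht θ w = eval v t)
    (hD : ∀ t ∈ T, ∃ w : ℤ_[p], tht θ w = eval v (D t)) :
    ∃ t ∈ T, ∀ w : ℤ_[p], tht θ w = eval v t → IsUnit w := by
  obtain ⟨u, hu, hu'⟩ := hP
  choose! w hw using hT
  choose! d hd using hD
  by_contra hcon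
  push Not at hcon
  have h1 : u ^ e = ∑ t ∈ T, d t * w t := by
    apply tht_injective θ
    rw [map_pow, hu', ← map_pow, h, map_sum, map_sum]
    refine Finset.sum_congr rfl fun t ht => ?_
    rw [map_mul, map_mul, hw t ht, hd t ht]
  have h2 : u ^ e ∈ IsLocalRing.maximalIdeal ℤ_[p] := by
    rw [h1]
    refine Ideal.sum_mem _ fun t ht => Ideal.mul_mem_left _ _ ?_
    obtain ⟨w', hw', hnu⟩ := hcon t ht
    rw [IsLocalRing.mem_maximalIdeal]
    rwa [tht_injective θ ((hw t ht).trans hw'.symm)]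
  rw [IsLocalRing.mem_maximalIdeal] at h2
  exact h2 (hu.pow e)

theorem isClosed_unit {p : ℕ} [Fact p.Prime] {E : Type} [TopologicalSpace E] (f : E → ℤ_[p])
    (hf : Continuous f) : _root_.IsClosed {x | IsUnit (f x)} := by
  have h : {x | IsUnit (f x)} = {x | ‖f x‖ = 1} := by
    ext x
    exact PadicInt.isUnit_iff
  rw [h]
  exact isClosed_eq hf.norm continuous_const

/-- **The gap theorem for quasi-projective varieties.** -/
theorem qproj_gap {N : ℕ} (Y : QVar N) (Φ : PN N → PN N) (hΦ : IsMorphism Y Φ)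
    (C : Set (MvPolynomial (Fin (N + 1)) ℂ)) (hC : ∀ F ∈ C, ∃ d : ℕ, F.IsHomogeneous d)
    (hV : ∀ x ∈ Y.pts, ∀ k : ℕ, 0 < k → ∃ n, ¬ ZeroOf C (Φ^[k * n] x)) (s : Finset ℂ) :
    ∃ (M : ℕ) (b c : ℝ), 1 < b ∧ 0 < c ∧ ∀ α ∈ Y.pts,
      (IntegralPt Y s α ∨ (Y.IsClosed ∧ RationalPt s α)) →
        Sparse M b c {n | ZeroOf C (Φ^[n] α)} := by
  classical
  obtain ⟨hΦ1, hΦ2⟩ := hΦ
  obtain ⟨A', hA1, hA2⟩ := exists_finite_sub Y.A
  obtain ⟨C', hC1, hC2⟩ := exists_finite_sub C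
  obtain ⟨𝒢, hG1, hG2⟩ := exists_finite_sub {g | ∃ F, IsChart Y Φ F g}
  choose! Fc hFc using (fun g (hg : g ∈ 𝒢) => hG1 hg)
  have hmem : ∀ {x : PN N} {v : Fin (N + 1) → ℂ}, Coord x v →
      (x ∈ Y.pts ↔ (∀ a ∈ A', eval v a = 0) ∧ ∃ i, ∃ b ∈ Y.B, v i * eval v b ≠ 0) := by
    intro x v hv
    constructor
    · rintro ⟨h1, b, hb, h2⟩
      refine ⟨fun a ha => (hv.eval_iff (Y.homA a (hA1 ha))).1 (h1 a (hA1 ha)), ?_⟩
      obtain ⟨i, hi⟩ := Function.ne_iff.1 hv.choose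
      exact ⟨i, b, hb, mul_ne_zero hi fun h => h2 ((hv.eval_iff (Y.homB b hb)).2 h)⟩
    · rintro ⟨h1, i, b, hb, h2⟩
      refine ⟨fun a ha => (hv.eval_iff (Y.homA a ha)).2 (hA2 v h1 a ha), b, hb, fun h => ?_⟩
      apply h2
      rw [(hv.eval_iff (Y.homB b hb)).1 h, mul_zero]
  have hcover : ∀ {x : PN N} {v : Fin (N + 1) → ℂ}, Coord x v → x ∈ Y.pts →
      ∃ g ∈ 𝒢, eval v g ≠ 0 := by
    intro x v hv hx
    by_contra hcon
    push Not at hcon
    obtain ⟨F, g, hg, hch⟩ := hΦ2 x hx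
    exact hg ((hv.eval_iff hch.2.1).2 (hG2 v hcon g ⟨F, hch⟩))
  -- certificates
  have c1 : ∀ (i : Fin (N + 1)) (b : MvPolynomial (Fin (N + 1)) ℂ), b ∈ Y.B →
      ∃ (e : ℕ) (D : MvPolynomial (Fin (N + 1)) ℂ → MvPolynomial (Fin (N + 1)) ℂ),
        (X i * b : MvPolynomial (Fin (N + 1)) ℂ) ^ e = ∑ t ∈ A' ∪ 𝒢, D t * t := by
    intro i b hb
    refine exists_cert' _ _ fun v hv => ?_
    by_contra hcon
    rw [eval_mul, eval_X] at hcon
    have hv0 : v ≠ 0 := by
      rintro rfl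
      exact hcon (by simp)
    have hco : Coord (Projectivization.mk ℂ v hv0) v := ⟨hv0, rfl⟩
    obtain ⟨g, hg, hne⟩ := hcover hco ((hmem hco).2
      ⟨fun a ha => hv a (Finset.mem_union_left _ ha), i, b, hb, hcon⟩)
    exact hne (hv g (Finset.mem_union_right _ hg))
  choose! e1 D1 hD1 using c1
  set tgt : MvPolynomial (Fin (N + 1)) ℂ → Finset (MvPolynomial (Fin (N + 1)) ℂ) := fun g =>
    (Finset.univ ×ˢ Y.B).image fun q : Fin (N + 1) × MvPolynomial (Fin (N + 1)) ℂ =>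
      bind₁ (Fc g) (X q.1 * q.2) with htgt
  have hev : ∀ (G : Fin (N + 1) → MvPolynomial (Fin (N + 1)) ℂ) (v : Fin (N + 1) → ℂ)
      (P : MvPolynomial (Fin (N + 1)) ℂ), eval v (bind₁ G P) = eval (fun i => eval v (G i)) P := by
    intro G v P
    exact eval_bind G v P
  have c2 : ∀ (i : Fin (N + 1)) (b g : MvPolynomial (Fin (N + 1)) ℂ), b ∈ Y.B → g ∈ 𝒢 →
      ∃ (e : ℕ) (D : MvPolynomial (Fin (N + 1)) ℂ → MvPolynomial (Fin (N + 1)) ℂ),
        (X i * b * g : MvPolynomial (Fin (N + 1)) ℂ) ^ e = ∑ t ∈ A' ∪ tgt g, D t * t := by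
    intro i b g hb hg
    refine exists_cert' _ _ fun v hv => ?_
    by_contra hcon
    rw [eval_mul, eval_mul, eval_X] at hcon
    have hv0 : v ≠ 0 := by
      rintro rfl
      exact hcon (by simp)
    have hco : Coord (Projectivization.mk ℂ v hv0) v := ⟨hv0, rfl⟩
    have hx := (hmem hco).2 ⟨fun a ha => hv a (Finset.mem_union_left _ ha), i, b, hb,
      left_ne_zero_of_mul hcon⟩
    have hco2 := (hFc g hg).coord hx hco (right_ne_zero_of_mul hcon)
    obtain ⟨-, j, b', hb', hne⟩ := (hmem hco2).1 (hΦ1 _ hx)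
    apply hne
    have h1 := hv (bind₁ (Fc g) (X j * b')) (Finset.mem_union_right _
      (Finset.mem_image.2 ⟨(j, b'), by simp [hb'], rfl⟩))
    rw [hev, eval_mul, eval_X] at h1
    exact h1
  choose! e2 D2 hD2 using c2
  have c0 : ∃ (e : Fin (N + 1) → ℕ)
      (D : Fin (N + 1) → MvPolynomial (Fin (N + 1)) ℂ → MvPolynomial (Fin (N + 1)) ℂ),
        Y.IsClosed → ∀ i, (X i : MvPolynomial (Fin (N + 1)) ℂ) ^ e i =
          ∑ t ∈ A' ∪ Y.B, D i t * t := by
    by_cases hcl : Y.IsClosed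
    · have h1 : ∀ i : Fin (N + 1), ∃ (e : ℕ)
          (D : MvPolynomial (Fin (N + 1)) ℂ → MvPolynomial (Fin (N + 1)) ℂ),
          (X i : MvPolynomial (Fin (N + 1)) ℂ) ^ e = ∑ t ∈ A' ∪ Y.B, D t * t := by
        intro i
        refine exists_cert' _ _ fun v hv => ?_
        rw [eval_X]
        by_contra hcon
        have hv0 : v ≠ 0 := by
          rintro rfl
          exact hcon rfl
        obtain ⟨b, hb, hne⟩ := hcl v hv0 (hA2 v fun a ha => hv a (Finset.mem_union_left _ ha))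
        exact hne (hv b (Finset.mem_union_right _ hb))
      choose e D h using h1
      exact ⟨e, D, fun _ => h⟩
    · exact ⟨fun _ => 0, fun _ _ => 0, fun h => absurd h hcl⟩
  obtain ⟨e0, D0, hD0⟩ := c0
  -- the place
  obtain ⟨p, hp, hp2, θ, hs, hT⟩ := exists_model' (A' ∪ Y.B ∪ C' ∪ 𝒢 ∪
    (𝒢.biUnion fun g => Finset.univ.image (Fc g)) ∪
    ((Finset.univ ×ˢ Y.B).biUnion fun q => (A' ∪ 𝒢).image (D1 q.1 q.2)) ∪
    ((Finset.univ ×ˢ Y.B ×ˢ 𝒢).biUnion fun q => (A' ∪ tgt q.2.2).image (D2 q.1 q.2.1 q.2.2)) ∪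
    (Finset.univ.biUnion fun i => (A' ∪ Y.B).image (D0 i))) s 2
  choose! lf hlf using hT
  simp only [Finset.mem_union, Finset.mem_biUnion, Finset.mem_image, Finset.mem_product,
    Finset.mem_univ, true_and] at hlf
  set th : (Fin (N + 1) → ℤ_[p]) → Fin (N + 1) → ℂ := fun x i => tht θ (x i) with hth
  have hval : ∀ {g : MvPolynomial (Fin (N + 1)) ℂ}, map (tht θ) (lf g) = g →
      ∀ x : Fin (N + 1) → ℤ_[p], eval (th x) g = tht θ (eval x (lf g)) := by
    intro g hg x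
    rw [← eval_theta, hg]
  have vA : ∀ a ∈ A', map (tht θ) (lf a) = a := fun a ha => hlf a (by tauto)
  have vB : ∀ b ∈ Y.B, map (tht θ) (lf b) = b := fun b hb => hlf b (by tauto)
  have vC : ∀ a ∈ C', map (tht θ) (lf a) = a := fun a ha => hlf a (by tauto)
  have vG : ∀ g ∈ 𝒢, map (tht θ) (lf g) = g := fun g hg => hlf g (by tauto)
  have vF : ∀ g ∈ 𝒢, ∀ i, map (tht θ) (lf (Fc g i)) = Fc g i := fun g hg i =>
    hlf _ (Or.inl (Or.inl (Or.inl (Or.inr ⟨g, hg, i, rfl⟩))))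
  have v1 : ∀ i, ∀ b ∈ Y.B, ∀ t ∈ A' ∪ 𝒢, map (tht θ) (lf (D1 i b t)) = D1 i b t :=
    fun i b hb t ht => hlf _ (Or.inl (Or.inl (Or.inr ⟨(i, b), hb, t, Finset.mem_union.1 ht, rfl⟩)))
  have v2 : ∀ i, ∀ b ∈ Y.B, ∀ g ∈ 𝒢, ∀ t ∈ A' ∪ tgt g,
      map (tht θ) (lf (D2 i b g t)) = D2 i b g t := fun i b hb g hg t ht =>
    hlf _ (Or.inl (Or.inr ⟨(i, b, g), ⟨hb, hg⟩, t, Finset.mem_union.1 ht, rfl⟩))
  have v0 : ∀ i, ∀ t ∈ A' ∪ Y.B, map (tht θ) (lf (D0 i t)) = D0 i t := fun i t ht =>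
    hlf _ (Or.inr ⟨i, t, Finset.mem_union.1 ht, rfl⟩)
  set Ω : Set (Fin (N + 1) → ℤ_[p]) := {x | (∀ a ∈ A', eval x (lf a) = 0) ∧
    ∃ i, ∃ b ∈ Y.B, IsUnit (x i * eval x (lf b))} with hΩ
  have hΩcl : _root_.IsClosed Ω := by
    have h1 : Ω = (⋂ a ∈ A', {x | eval x (lf a) = 0}) ∩
        ⋃ q ∈ (Finset.univ ×ˢ Y.B : Finset (Fin (N + 1) × MvPolynomial (Fin (N + 1)) ℂ)),
          {x | IsUnit (x q.1 * eval x (lf q.2))} := by
      ext x
      simp only [hΩ, Set.mem_ofPred_eq, Set.mem_inter_iff, Set.mem_iInter, Set.mem_iUnion,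
        Finset.mem_product, Finset.mem_univ, true_and]
      constructor
      · rintro ⟨h1, i, b, hb, h2⟩
        exact ⟨h1, (i, b), hb, h2⟩
      · rintro ⟨h1, q, hb, h2⟩
        exact ⟨h1, q.1, q.2, hb, h2⟩
    rw [h1]
    refine (isClosed_biInter fun a _ => ?_).inter (Set.Finite.isClosed_biUnion
      (Finset.finite_toSet _) fun q _ => ?_)
    · exact isClosed_eq (MvPolynomial.continuous_eval _) continuous_const
    · exact isClosed_unit _ ((continuous_apply q.1).mul (MvPolynomial.continuous_eval _))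
  have hne : ∀ x ∈ Ω, th x ≠ 0 := by
    rintro x ⟨-, i, b, hb, hu⟩ h0
    have h1 : tht θ (x i) = 0 := congrFun h0 i
    have h2 : x i = 0 := tht_injective θ (by rw [map_zero]; exact h1)
    rw [h2, zero_mul] at hu
    exact not_isUnit_zero hu
  -- points of `Ω` and points of the variety
  have hpt : ∀ {α : PN N} {x : Fin (N + 1) → ℤ_[p]}, Coord α (th x) → x ∈ Ω → α ∈ Y.pts := by
    rintro α x hα ⟨h1, i, b, hb, h2⟩
    refine (hmem hα).2 ⟨fun a ha => by rw [hval (vA a ha), h1 a ha, map_zero], i, b, hb, ?_⟩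
    rw [hval (vB b hb)]
    change tht θ (x i) * _ ≠ 0
    rw [← map_mul]
    intro h0
    have h3 := tht_injective θ (h0.trans (map_zero _).symm)
    rw [h3] at h2
    exact not_isUnit_zero h2
  have hgu : ∀ x ∈ Ω, ∃ g ∈ 𝒢, IsUnit (eval x (lf g)) := by
    intro x hx
    obtain ⟨h1, i, b, hb, h2⟩ := hx
    obtain ⟨t, ht, hu⟩ := cert_unit θ (A' ∪ 𝒢) (X i * b) (e1 i b) (D1 i b) (hD1 i b hb) (th x)
      ⟨x i * eval x (lf b), h2, by rw [map_mul, eval_mul, eval_X, hval (vB b hb)]⟩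
      (fun t ht => ⟨eval x (lf t), by
        rcases Finset.mem_union.1 ht with h | h
        · rw [hval (vA t h)]
        · rw [hval (vG t h)]⟩)
      (fun t ht => ⟨eval x (lf (D1 i b t)), (hval (v1 i b hb t ht) x).symm⟩)
    rcases Finset.mem_union.1 ht with h | h
    · have h3 := hu 0 (by rw [hval (vA t h), h1 t h])
      exact absurd h3 not_isUnit_zero
    · exact ⟨t, h, hu _ (hval (vG t h) x).symm⟩
  -- the map
  set jc : (Fin (N + 1) → ZMod p) → MvPolynomial (Fin (N + 1)) ℂ := fun c =>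
    if h : ∃ g ∈ 𝒢, eval c (map (PadicInt.toZMod : ℤ_[p] →+* ZMod p) (lf g)) ≠ 0 then h.choose
    else 0 with hjc
  have hjc1 : ∀ x ∈ Ω, jc (red x) ∈ 𝒢 ∧ IsUnit (eval x (lf (jc (red x)))) := by
    intro x hx
    obtain ⟨g, hg, hu⟩ := hgu x hx
    have h1 : ∃ g ∈ 𝒢, eval (red x) (map (PadicInt.toZMod : ℤ_[p] →+* ZMod p) (lf g)) ≠ 0 :=
      ⟨g, hg, by
        rw [← red_eval]
        exact (isUnit_iff_toZMod _).1 hu⟩
    have h2 : jc (red x) = h1.choose := dif_pos h1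
    rw [h2]
    refine ⟨h1.choose_spec.1, ?_⟩
    rw [isUnit_iff_toZMod, red_eval]
    exact h1.choose_spec.2
  set G : (Fin (N + 1) → ZMod p) → Fin (N + 1) → MvPolynomial (Fin (N + 1)) ℤ_[p] :=
    fun c i => lf (Fc (jc c) i) with hG
  have hco : ∀ x ∈ Ω, ∀ α, Coord α (th x) → Coord (Φ α) (th (pw G x)) := by
    intro x hx α hα
    obtain ⟨h1, h2⟩ := hjc1 x hx
    have h3 : th (pw G x) = fun i => eval (th x) (Fc (jc (red x)) i) := by
      funext i
      rw [hval (vF _ h1 i)]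
      rfl
    rw [h3]
    refine (hFc _ h1).coord (hpt hα hx) hα ?_
    rw [hval (vG _ h1)]
    intro h0
    have h4 := tht_injective θ (h0.trans (map_zero _).symm)
    rw [h4] at h2
    exact not_isUnit_zero h2
  have hst : ∀ x ∈ Ω, pw G x ∈ Ω := by
    intro x hx
    obtain ⟨h1, h2⟩ := hjc1 x hx
    have hα : Coord (Projectivization.mk ℂ (th x) (hne x hx)) (th x) := ⟨hne x hx, rfl⟩
    have h3 := hco x hx _ hα
    have h4 := hΦ1 _ (hpt hα hx)
    obtain ⟨h5, -⟩ := (hmem h3).1 h4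
    refine ⟨fun a ha => ?_, ?_⟩
    · apply tht_injective θ
      rw [← hval (vA a ha), h5 a ha, map_zero]
    · obtain ⟨hA0, i, b, hb, hu⟩ := hx
      have h6 : ∀ q : Fin (N + 1) × MvPolynomial (Fin (N + 1)) ℂ, q.2 ∈ Y.B →
          eval (th x) (bind₁ (Fc (jc (red x))) (X q.1 * q.2)) =
            tht θ (pw G x q.1 * eval (pw G x) (lf q.2)) := by
        intro q hq
        have h3 : (fun i => eval (th x) (Fc (jc (red x)) i)) = th (pw G x) := by
          funext i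
          rw [hval (vF _ h1 i)]
          rfl
        rw [hev, h3, eval_mul, eval_X, hval (vB _ hq), map_mul]
      obtain ⟨t, ht, hut⟩ := cert_unit θ (A' ∪ tgt (jc (red x))) (X i * b * jc (red x))
        (e2 i b (jc (red x))) (D2 i b (jc (red x))) (hD2 i b _ hb h1) (th x)
        ⟨x i * eval x (lf b) * eval x (lf (jc (red x))), hu.mul h2, by
          rw [map_mul, map_mul, eval_mul, eval_mul, eval_X, hval (vB b hb), hval (vG _ h1)]⟩
        (fun t ht => by
          rcases Finset.mem_union.1 ht with h | h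
          · exact ⟨eval x (lf t), (hval (vA t h) x).symm⟩
          · obtain ⟨q, hq, rfl⟩ := Finset.mem_image.1 h
            exact ⟨_, (h6 q (Finset.mem_product.1 hq).2).symm⟩)
        (fun t ht => ⟨eval x (lf (D2 i b _ t)), (hval (v2 i b hb _ h1 t ht) x).symm⟩)
      rcases Finset.mem_union.1 ht with h | h
      · have h7 := hut 0 (by rw [hval (vA t h), hA0 t h])
        exact absurd h7 not_isUnit_zero
      · obtain ⟨q, hq, rfl⟩ := Finset.mem_image.1 h
        have hq2 := (Finset.mem_product.1 hq).2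
        exact ⟨q.1, q.2, hq2, hut _ (h6 q hq2).symm⟩
  have hiter : ∀ (n : ℕ), ∀ x ∈ Ω, ∀ α, Coord α (th x) →
      (pw G)^[n] x ∈ Ω ∧ Coord (Φ^[n] α) (th ((pw G)^[n] x)) := by
    intro n x hx α hα
    induction n with
    | zero => exact ⟨hx, hα⟩
    | succ n ih =>
      rw [Function.iterate_succ_apply', Function.iterate_succ_apply']
      exact ⟨hst _ ih.1, hco _ ih.1 _ ih.2⟩
  set H : Set (MvPolynomial (Fin (N + 1)) ℤ_[p]) := {h | ∃ F ∈ C', lf F = h} with hH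
  have hzero : ∀ {α : PN N} {x : Fin (N + 1) → ℤ_[p]}, Coord α (th x) →
      (ZeroOf C α ↔ ∀ h ∈ H, eval x h = 0) := by
    intro α x hα
    constructor
    · rintro h1 _ ⟨F, hF, rfl⟩
      apply tht_injective θ
      rw [← hval (vC F hF), map_zero]
      exact (hα.eval_iff (hC F (hC1 hF))).1 (h1 F (hC1 hF))
    · intro h1 F hF
      refine (hα.eval_iff (hC F hF)).2 (hC2 _ (fun F' hF' => ?_) F hF)
      rw [hval (vC F' hF'), h1 _ ⟨F', hF', rfl⟩, map_zero]
  obtain ⟨a, K, μ, hK, hμ, hgap⟩ := glob_gap (ι := Fin (N + 1)) (by omega) G Ω hΩcl hst H (by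
    intro β hβ k hk
    have hα : Coord (Projectivization.mk ℂ (th β) (hne β hβ)) (th β) := ⟨hne β hβ, rfl⟩
    obtain ⟨n, hn⟩ := hV _ (hpt hα hβ) k hk
    rw [hzero (hiter (k * n) β hβ _ hα).2] at hn
    push Not at hn
    obtain ⟨h, hh, hne⟩ := hn
    exact ⟨h, hh, n, hne⟩)
  obtain ⟨b, c, hb, hc, hsp⟩ := sparse_of_gap p a K μ (by omega) hK hμ
  refine ⟨a + K * (2 * μ), b, c, hb, hc, fun α hα hint => ?_⟩
  obtain ⟨x, hx, hαx⟩ : ∃ x ∈ Ω, Coord α (th x) := by
    rcases hint with ⟨v, hv, hvs, cf, hcf, hsum⟩ | ⟨hcl, v, hv, hvs⟩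
    · choose x hx using fun i => closure_integral θ s hs (hvs i)
      choose cp hcp using fun i b => closure_integral θ s hs (hcf i b)
      have hvx : v = th x := by
        funext i
        exact (hx i).symm
      rw [hvx] at hv
      refine ⟨x, ⟨fun a ha => ?_, ?_⟩, hv⟩
      · apply tht_injective θ
        rw [← hval (vA a ha), ((hmem hv).1 hα).1 a ha, map_zero]
      · by_contra hcon
        push Not at hcon
        have h1 : (1 : ℤ_[p]) = ∑ i, ∑ b ∈ Y.B, cp i b * (x i * eval x (lf b)) := by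
          apply tht_injective θ
          rw [map_one, map_sum, ← hsum]
          refine Finset.sum_congr rfl fun i _ => ?_
          rw [map_sum]
          refine Finset.sum_congr rfl fun b hb => ?_
          rw [map_mul, map_mul, hcp, hx, hvx, hval (vB b hb)]
        have h2 : (1 : ℤ_[p]) ∈ IsLocalRing.maximalIdeal ℤ_[p] := by
          rw [h1]
          refine Ideal.sum_mem _ fun i _ => Ideal.sum_mem _ fun b hb => Ideal.mul_mem_left _ _ ?_
          rw [IsLocalRing.mem_maximalIdeal]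
          exact hcon i b hb
        rw [IsLocalRing.mem_maximalIdeal] at h2
        exact h2 isUnit_one
    · choose y hy using fun i => closure_rational θ s hs (hvs i)
      have hy0 : y ≠ 0 := by
        rintro rfl
        obtain ⟨hv0, -⟩ := hv
        apply hv0
        funext i
        rw [← hy i, Pi.zero_apply, map_zero, Pi.zero_apply]
      obtain ⟨k, x, hk, ⟨i, hi⟩, hyx⟩ := exists_prim y hy0
      have hx0 : th x ≠ 0 := by
        intro h0
        have h1 : tht θ (x i) = 0 := congrFun h0 i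
        have h2 : x i = 0 := tht_injective θ (by rw [map_zero]; exact h1)
        rw [h2] at hi
        exact not_isUnit_zero hi
      have hco' : Coord α (th x) := hv.unscale hx0 (θ k) (by
        funext i
        rw [← hy i, hyx i, map_mul]
        rfl)
      have hA0 := ((hmem hco').1 hα).1
      refine ⟨x, ⟨fun a ha => ?_, ?_⟩, hco'⟩
      · apply tht_injective θ
        rw [← hval (vA a ha), hA0 a ha, map_zero]
      · obtain ⟨t, ht, hut⟩ := cert_unit θ (A' ∪ Y.B) (X i) (e0 i) (D0 i) (hD0 hcl i) (th x)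
          ⟨x i, hi, by rw [eval_X]⟩
          (fun t ht => ⟨eval x (lf t), by
            rcases Finset.mem_union.1 ht with h | h
            · rw [hval (vA t h)]
            · rw [hval (vB t h)]⟩)
          (fun t ht => ⟨eval x (lf (D0 i t)), (hval (v0 i t ht) x).symm⟩)
        rcases Finset.mem_union.1 ht with h | h
        · have h7 := hut 0 (by rw [hA0 t h, map_zero])
          exact absurd h7 not_isUnit_zero
        · exact ⟨i, t, h, hi.mul (hut _ (hval (vB t h) x).symm)⟩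
  have hret : {n | ZeroOf C (Φ^[n] α)} = {n | ∀ h ∈ H, eval ((pw G)^[n] x) h = 0} := by
    ext n
    exact hzero (hiter n x hx α hαx).2
  rw [hret]
  exact hsp _ fun j _ => hgap x hx (a + j) (Nat.le_add_right _ _)

/-- Every point is integral over a finitely generated ring. -/
theorem exists_integral {N : ℕ} (Y : QVar N) (α : PN N) (hα : α ∈ Y.pts) :
    ∃ s : Finset ℂ, IntegralPt Y s α := by
  classical
  obtain ⟨-, b, hb, hne⟩ := hα
  obtain ⟨i, hi⟩ := Function.ne_iff.1 α.rep_nonzero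
  set u : ℂ := α.rep i * eval α.rep b with hu
  have hu0 : u ≠ 0 := mul_ne_zero hi hne
  refine ⟨insert u⁻¹ (Finset.univ.image α.rep), α.rep, Coord.rep α, fun j => ?_, fun j b' =>
    if j = i ∧ b' = b then u⁻¹ else 0, fun j b' => ?_, ?_⟩
  · exact Subring.subset_closure (by simp)
  · beta_reduce
    split_ifs
    · exact Subring.subset_closure (by simp)
    · exact Subring.zero_mem _
  · rw [Finset.sum_eq_single i, Finset.sum_eq_single b]
    · beta_reduce
      rw [if_pos (And.intro rfl rfl)]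
      exact inv_mul_cancel₀ hu0
    · intro b' _ hb'
      beta_reduce
      rw [if_neg (fun h => hb' h.2), zero_mul]
    · intro h
      exact absurd hb h
    · intro j _ hj
      refine Finset.sum_eq_zero fun b' _ => ?_
      beta_reduce
      rw [if_neg (fun h => hj h.1), zero_mul]
    · intro h
      exact absurd (Finset.mem_univ i) h

end Pool.Agent.Q170.GP
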