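import Mathlib

/-!
# Zeros of `p`-adic sequences with divisible differences

Let `g` be a sequence of `p`-adic integers, `p` odd, such that all differences `Δ^i g (n)` are
divisible by `p ^ i` and let `s n` be congruent to `g n` modulo `p ^ n`. If not all `g n` are divisible
by `p ^ μ`, then among the zeros of `s` any `2 μ + 1` zeros `X ≤ n ≤ L` satisfy
`p ^ X < p ^ μ * L ^ (2 μ)`.
-/

set_option autoImplicit false

open Polynomial

namespace Pool.Agent.Q170.GP

variable {p : ℕ} [hp : Fact p.Prime]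

/-- A divisibility can be divided by the difference of two small natural numbers. -/
theorem dvd_of_mul_sub {a b L t : ℕ} (hab : a ≠ b) (ha : a ≤ L) (hb : b ≤ L) {z : ℤ_[p]}
    (h : (p : ℤ_[p]) ^ t ∣ ((a : ℤ_[p]) - b) * z) : (p : ℤ_[p]) ^ (t - Nat.log p L) ∣ z := by
  have hp0 : (p : ℤ_[p]) ≠ 0 := by exact_mod_cast hp.1.ne_zero
  have key : ∀ d : ℕ, d ≠ 0 → d ≤ L → ∀ z : ℤ_[p], (p : ℤ_[p]) ^ t ∣ (d : ℤ_[p]) * z →
      (p : ℤ_[p]) ^ (t - Nat.log p L) ∣ z := by
    intro d hd hdL z hz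
    obtain ⟨v, d', hd', hdd⟩ := Nat.exists_eq_pow_mul_and_not_dvd hd p hp.1.ne_one
    have hv : v ≤ Nat.log p L := by
      apply Nat.le_log_of_pow_le hp.1.one_lt
      refine le_trans ?_ hdL
      rw [hdd]
      exact Nat.le_mul_of_pos_right _ (Nat.pos_of_ne_zero fun h0 => hd' (by rw [h0]; exact dvd_zero _))
    have hu : IsUnit (d' : ℤ_[p]) := by
      rw [PadicInt.isUnit_iff]
      rcases lt_or_eq_of_le (PadicInt.norm_le_one (d' : ℤ_[p])) with h1 | h1
      · exfalso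
        have h2 : ‖((d' : ℤ) : ℤ_[p])‖ < 1 := by simpa using h1
        rw [PadicInt.norm_intCast_lt_one_iff] at h2
        exact hd' (by exact_mod_cast h2)
      · exact h1
    have h3 : (p : ℤ_[p]) ^ t ∣ (p : ℤ_[p]) ^ v * z := by
      rw [hdd] at hz
      push_cast at hz
      rw [mul_right_comm] at hz
      exact (hu.dvd_mul_right).1 hz
    rcases le_or_gt t v with htv | htv
    · rw [Nat.sub_eq_zero_of_le (htv.trans hv), pow_zero]
      exact one_dvd _
    · have h4 : (p : ℤ_[p]) ^ v * (p : ℤ_[p]) ^ (t - v) ∣ (p : ℤ_[p]) ^ v * z := by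
        rw [← pow_add, Nat.add_sub_cancel' htv.le]
        exact h3
      have h5 := (mul_dvd_mul_iff_left (pow_ne_zero v hp0)).1 h4
      exact (pow_dvd_pow _ (by omega)).trans h5
  rcases lt_or_gt_of_ne hab with h1 | h1
  · have h2 : (a : ℤ_[p]) - b = -((b - a : ℕ) : ℤ_[p]) := by
      push_cast [Nat.cast_sub h1.le]
      ring
    rw [h2, neg_mul, dvd_neg] at h
    exact key (b - a) (by omega) (by omega) z h
  · have h2 : (a : ℤ_[p]) - b = ((a - b : ℕ) : ℤ_[p]) := by
      push_cast [Nat.cast_sub h1.le]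
      ring
    rw [h2] at h
    exact key (a - b) (by omega) (by omega) z h

/-- Division by a linear factor. -/
theorem exists_quot (Q : ℤ_[p][X]) (m : ℕ) (hQ : Q.natDegree ≤ m + 1) (a : ℤ_[p]) :
    ∃ Q' : ℤ_[p][X], Q = C (Q.eval a) + (X - C a) * Q' ∧ Q'.natDegree ≤ m ∧
      Q'.coeff m = Q.coeff (m + 1) := by
  have h1 : (X - C a) ∣ Q - C (Q.eval a) := Polynomial.X_sub_C_dvd_sub_C_eval
  obtain ⟨Q', hQ'⟩ := h1
  have hdeg : Q'.natDegree ≤ m := by
    rcases eq_or_ne Q' 0 with h0 | h0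
    · rw [h0]
      simp
    · have h2 : ((X - C a) * Q').natDegree = 1 + Q'.natDegree := by
        rw [natDegree_mul (X_sub_C_ne_zero a) h0, natDegree_X_sub_C]
      have h3 : (Q - C (Q.eval a)).natDegree ≤ m + 1 := by
        refine (natDegree_sub_le _ _).trans (max_le hQ ?_)
        rw [natDegree_C]
        exact Nat.zero_le _
      rw [hQ', h2] at h3
      omega
  refine ⟨Q', by rw [← hQ']; ring, hdeg, ?_⟩
  have h4 : (Q - C (Q.eval a)).coeff (m + 1) = Q.coeff (m + 1) := by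
    rw [coeff_sub, coeff_C_succ, sub_zero]
  rw [← h4, hQ', sub_mul, coeff_sub, coeff_X_mul, coeff_C_mul,
    coeff_eq_zero_of_natDegree_lt (show Q'.natDegree < m + 1 by omega), mul_zero, sub_zero]

/-- A polynomial which is, modulo `p ^ μ`, of degree `m` with a leading coefficient not divisible by
`p ^ μ` has at most `m` zeros modulo a high power of `p` in a short interval. -/
theorem strassmann (μ : ℕ) (m : ℕ) : ∀ (Q1 Q2 : ℤ_[p][X]), Q1.natDegree ≤ m →
    ¬ (p : ℤ_[p]) ^ μ ∣ Q1.coeff m → ∀ (A : Finset ℕ), m < A.card → ∀ L t : ℕ,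
    (∀ a ∈ A, a ≤ L) → (∀ a ∈ A, (p : ℤ_[p]) ^ t ∣ (Q1 + C ((p : ℤ_[p]) ^ μ) * Q2).eval (a : ℤ_[p])) →
    p ^ t < p ^ μ * L ^ m := by
  induction m with
  | zero =>
    intro Q1 Q2 hdeg hlead A hA L t hL h
    obtain ⟨a, ha⟩ := Finset.card_pos.1 hA
    have h1 := h a ha
    rw [eq_C_of_natDegree_le_zero hdeg] at h1
    rw [eval_add, eval_C, eval_mul, eval_C] at h1
    rw [pow_zero, mul_one]
    apply Nat.pow_lt_pow_right hp.1.one_lt
    by_contra hcon
    push Not at hcon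
    apply hlead
    have h2 := (pow_dvd_pow (p : ℤ_[p]) hcon).trans h1
    exact (dvd_add_left (dvd_mul_right _ _)).1 h2
  | succ m ih =>
    intro Q1 Q2 hdeg hlead A hA L t hL h
    obtain ⟨a0, ha0⟩ := Finset.card_pos.1 (lt_of_le_of_lt (Nat.zero_le _) hA)
    obtain ⟨Q1', hQ1, hdeg', hc'⟩ := exists_quot Q1 m hdeg (a0 : ℤ_[p])
    obtain ⟨Q2', hQ2, -, -⟩ := exists_quot Q2 (Q2.natDegree) (Nat.le_succ _) (a0 : ℤ_[p])
    have hcard : m < (A.erase a0).card := by
      rw [Finset.card_erase_of_mem ha0]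
      omega
    have hdiv : ∀ a ∈ A.erase a0, (p : ℤ_[p]) ^ (t - Nat.log p L) ∣
        (Q1' + C ((p : ℤ_[p]) ^ μ) * Q2').eval (a : ℤ_[p]) := by
      intro a ha
      rw [Finset.mem_erase] at ha
      apply dvd_of_mul_sub ha.1 (hL a ha.2) (hL a0 ha0)
      have h1 := dvd_sub (h a ha.2) (h a0 ha0)
      have h2 : (Q1 + C ((p : ℤ_[p]) ^ μ) * Q2).eval (a : ℤ_[p]) -
          (Q1 + C ((p : ℤ_[p]) ^ μ) * Q2).eval (a0 : ℤ_[p]) =
          ((a : ℤ_[p]) - a0) * (Q1' + C ((p : ℤ_[p]) ^ μ) * Q2').eval (a : ℤ_[p]) := by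
        have e1 : Q1.eval (a : ℤ_[p]) = Q1.eval (a0 : ℤ_[p]) +
            ((a : ℤ_[p]) - a0) * Q1'.eval (a : ℤ_[p]) := by
          conv_lhs => rw [hQ1]
          simp
        have e2 : Q2.eval (a : ℤ_[p]) = Q2.eval (a0 : ℤ_[p]) +
            ((a : ℤ_[p]) - a0) * Q2'.eval (a : ℤ_[p]) := by
          conv_lhs => rw [hQ2]
          simp
        simp only [eval_add, eval_mul, eval_C, e1, e2]
        ring
      rwa [h2] at h1
    have h3 := ih Q1' Q2' hdeg' (by rwa [hc']) (A.erase a0) hcard L (t - Nat.log p L)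
      (fun a ha => hL a (Finset.mem_of_mem_erase ha)) hdiv
    have hL0 : L ≠ 0 := by
      rintro rfl
      have h4 : A ⊆ {0} := fun a ha => by
        rw [Finset.mem_singleton]
        exact Nat.le_zero.1 (hL a ha)
      have := Finset.card_le_card h4
      rw [Finset.card_singleton] at this
      omega
    have h5 : p ^ Nat.log p L ≤ L := Nat.pow_log_le_self p hL0
    have h6 : p ^ t ≤ p ^ (t - Nat.log p L) * p ^ Nat.log p L := by
      rw [← pow_add]
      exact Nat.pow_le_pow_right hp.1.pos (by omega)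
    calc p ^ t ≤ p ^ (t - Nat.log p L) * p ^ Nat.log p L := h6
      _ < p ^ μ * L ^ m * p ^ Nat.log p L :=
        Nat.mul_lt_mul_of_pos_right h3 (Nat.pow_pos hp.1.pos)
      _ ≤ p ^ μ * L ^ m * L := Nat.mul_le_mul_left _ h5
      _ = p ^ μ * L ^ (m + 1) := by ring

/-- The coefficients in the basis of the falling factorials. -/
theorem exists_coeff (hp2 : p ≠ 2) (i : ℕ) (d : ℤ_[p]) (hd : (p : ℤ_[p]) ^ i ∣ d) :
    ∃ e : ℤ_[p], d = (i.factorial : ℤ_[p]) * e ∧ (p : ℤ_[p]) ^ ((i + 1) / 2) ∣ e := by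
  have hp3 : 3 ≤ p := by
    have := hp.1.two_le
    omega
  obtain ⟨c, rfl⟩ := hd
  obtain ⟨v, w, hw, hvw⟩ := Nat.exists_eq_pow_mul_and_not_dvd i.factorial_ne_zero p hp.1.ne_one
  have hv : v = padicValNat p i.factorial := by
    have hw0 : w ≠ 0 := fun h0 => hw (by rw [h0]; exact dvd_zero _)
    rw [hvw, padicValNat.mul (pow_ne_zero _ hp.1.ne_zero) hw0, padicValNat.prime_pow,
      padicValNat.eq_zero_of_not_dvd hw, add_zero]
  have hle : v + (i + 1) / 2 ≤ i := by
    rcases Nat.eq_zero_or_pos i with h0 | h0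
    · subst h0
      have : v = 0 := by
        rw [hv]
        simp
      omega
    · have h1 := sub_one_mul_padicValNat_factorial (p := p) i
      have h2 : 0 < (p.digits i).sum := by
        have hne : p.digits i ≠ [] := Nat.digits_ne_nil_iff_ne_zero.2 h0.ne'
        have h3 : (p.digits i).getLast hne ≠ 0 := Nat.getLast_digit_ne_zero p h0.ne'
        have h4 : (p.digits i).getLast hne ≤ (p.digits i).sum :=
          List.le_sum_of_mem (List.getLast_mem hne)
        omega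
      have h3 : 2 * v ≤ (p - 1) * v := Nat.mul_le_mul_right _ (by omega)
      rw [← hv] at h1
      omega
  have hu : IsUnit (w : ℤ_[p]) := by
    rw [PadicInt.isUnit_iff]
    rcases lt_or_eq_of_le (PadicInt.norm_le_one (w : ℤ_[p])) with h1 | h1
    · exfalso
      have h2 : ‖((w : ℤ) : ℤ_[p])‖ < 1 := by simpa using h1
      rw [PadicInt.norm_intCast_lt_one_iff] at h2
      exact hw (by exact_mod_cast h2)
    · exact h1
  obtain ⟨u, hu⟩ := hu
  refine ⟨(p : ℤ_[p]) ^ (i - v) * (↑u⁻¹ * c), ?_, ?_⟩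
  · rw [hvw]
    push_cast
    have h5 : (p : ℤ_[p]) ^ v * (p : ℤ_[p]) ^ (i - v) = (p : ℤ_[p]) ^ i := by
      rw [← pow_add]
      congr 1
      omega
    calc (p : ℤ_[p]) ^ i * c = ((p : ℤ_[p]) ^ v * (p : ℤ_[p]) ^ (i - v)) * ((w : ℤ_[p]) * ↑u⁻¹) * c := by
          rw [h5, ← hu, Units.mul_inv, mul_one]
      _ = _ := by ring
  · exact Dvd.dvd.mul_right (pow_dvd_pow _ (by omega)) _

/-- **The gap lemma.** -/
theorem gap_seq (hp2 : p ≠ 2) (g s : ℕ → ℤ_[p]) (hs : ∀ n, (p : ℤ_[p]) ^ n ∣ s n - g n)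
    (hg : ∀ i n, (p : ℤ_[p]) ^ i ∣ (fwdDiff 1)^[i] g n) (μ : ℕ)
    (hμ : ∃ n, ¬ (p : ℤ_[p]) ^ μ ∣ g n) (A : Finset ℕ) (hA : ∀ n ∈ A, s n = 0)
    (hc : 2 * μ < A.card) (X L : ℕ) (hX : ∀ n ∈ A, X ≤ n) (hL : ∀ n ∈ A, n ≤ L) :
    p ^ X < p ^ μ * L ^ (2 * μ) := by
  classical
  choose e he hdiv using fun i => exists_coeff hp2 i _ (hg i 0)
  -- Newton's formula
  have hnewton : ∀ n I : ℕ, n < I → g n = ∑ k ∈ Finset.range I, (n.descFactorial k : ℤ_[p]) * e k := by
    intro n I hnI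
    have h1 := shift_eq_sum_fwdDiff_iter (1 : ℕ) g n 0
    rw [zero_add, smul_eq_mul, mul_one] at h1
    rw [h1]
    have h2 : Finset.range (n + 1) ⊆ Finset.range I := Finset.range_subset_range.2 hnI
    rw [← Finset.sum_subset h2]
    · apply Finset.sum_congr rfl
      intro k _
      rw [he k, nsmul_eq_mul, ← mul_assoc, Nat.descFactorial_eq_factorial_mul_choose]
      push_cast
      ring
    · intro k _ hk
      rw [Finset.mem_range, not_lt] at hk
      rw [Nat.descFactorial_eq_zero_iff_lt.2 (by omega), Nat.cast_zero, zero_mul]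
  -- the index
  have hex : ∃ k, ¬ (p : ℤ_[p]) ^ μ ∣ e k := by
    by_contra hcon
    push Not at hcon
    obtain ⟨n, hn⟩ := hμ
    apply hn
    rw [hnewton n (n + 1) (Nat.lt_succ_self n)]
    exact Finset.dvd_sum fun k _ => Dvd.dvd.mul_left (hcon k) _
  have hbd : ∀ k, ¬ (p : ℤ_[p]) ^ μ ∣ e k → k ≤ 2 * μ := by
    intro k hk
    by_contra hcon
    push Not at hcon
    exact hk ((pow_dvd_pow _ (by omega)).trans (hdiv k))
  obtain ⟨k0, hk0⟩ := hex
  set m := Nat.findGreatest (fun k => ¬ (p : ℤ_[p]) ^ μ ∣ e k) (2 * μ) with hm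
  have hm1 : ¬ (p : ℤ_[p]) ^ μ ∣ e m := Nat.findGreatest_spec (P := fun k => ¬ (p : ℤ_[p]) ^ μ ∣ e k)
    (hbd k0 hk0) hk0
  have hm2 : ∀ k, m < k → (p : ℤ_[p]) ^ μ ∣ e k := by
    intro k hk
    by_contra hcon
    exact Nat.findGreatest_is_greatest hk (hbd k hcon) hcon
  have hm3 : m ≤ 2 * μ := Nat.findGreatest_le _
  have hq : ∀ k, ∃ c, m < k → e k = (p : ℤ_[p]) ^ μ * c := by
    intro k
    by_cases hk : m < k
    · obtain ⟨c, hc⟩ := hm2 k hk
      exact ⟨c, fun _ => hc⟩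
    · exact ⟨0, fun h => absurd h hk⟩
  choose q hq using hq
  set Q1 : ℤ_[p][X] := ∑ k ∈ Finset.range (m + 1), C (e k) * descPochhammer ℤ_[p] k with hQ1
  set Q2 : ℤ_[p][X] := ∑ k ∈ Finset.Ico (m + 1) (L + m + 2), C (q k) * descPochhammer ℤ_[p] k with hQ2
  have hdeg : Q1.natDegree ≤ m := by
    refine natDegree_sum_le_of_forall_le _ _ fun k hk => ?_
    rw [Finset.mem_range] at hk
    refine (natDegree_C_mul_le _ _).trans ?_
    rw [descPochhammer_natDegree]
    omega
  have hlead : Q1.coeff m = e m := by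
    rw [hQ1, finsetSum_coeff, Finset.sum_range_succ, Finset.sum_eq_zero, zero_add, coeff_C_mul]
    · have h1 := (monic_descPochhammer ℤ_[p] m).coeff_natDegree
      rw [descPochhammer_natDegree] at h1
      rw [h1, mul_one]
    · intro k hk
      rw [Finset.mem_range] at hk
      rw [coeff_C_mul, coeff_eq_zero_of_natDegree_lt, mul_zero]
      rwa [descPochhammer_natDegree]
  have heval : ∀ a, a ≤ L → (Q1 + C ((p : ℤ_[p]) ^ μ) * Q2).eval (a : ℤ_[p]) = g a := by
    intro a ha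
    rw [hnewton a (L + m + 2) (by omega), ← Finset.sum_range_add_sum_Ico _ (show m + 1 ≤ L + m + 2 by omega)]
    rw [eval_add, eval_mul, eval_C, hQ1, hQ2, eval_finsetSum, eval_finsetSum, Finset.mul_sum]
    congr 1
    · apply Finset.sum_congr rfl
      intro k _
      rw [eval_mul, eval_C, descPochhammer_eval_eq_descFactorial, mul_comm]
    · apply Finset.sum_congr rfl
      intro k hk
      rw [Finset.mem_Ico] at hk
      rw [eval_mul, eval_C, descPochhammer_eval_eq_descFactorial, hq k (by omega)]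
      ring
  have h1 := strassmann μ m Q1 Q2 hdeg (by rwa [hlead]) A (by omega) L X hL (by
    intro a ha
    rw [heval a (hL a ha)]
    have h2 := hs a
    rw [hA a ha, zero_sub, dvd_neg] at h2
    exact (pow_dvd_pow _ (hX a ha)).trans h2)
  refine lt_of_lt_of_le h1 (Nat.mul_le_mul_left _ ?_)
  rcases Nat.eq_zero_or_pos L with hL0 | hL0
  · have hμ0 : μ ≠ 0 := by
      rintro rfl
      obtain ⟨n, hn⟩ := hμ
      exact hn (by rw [pow_zero]; exact one_dvd _)
    subst hL0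
    have h4 : A ⊆ {0} := fun a ha => by
      rw [Finset.mem_singleton]
      exact Nat.le_zero.1 (hL a ha)
    have := Finset.card_le_card h4
    rw [Finset.card_singleton] at this
    omega
  · exact Nat.pow_le_pow_right hL0 hm3

end Pool.Agent.Q170.GP
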