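import Pool.Agent.Q170.GP.Dml
import Pool.Agent.Q170.GP.Wet

/-!
# Uniform return sets for endomorphisms of projective space
-/

set_option autoImplicit false

open MvPolynomial Filter Topology

namespace Pool.Agent.Q170.GP

open Pool.Agent.H936R2 (pt jac itP itA itP_eval itP_expand pt_map eval_scale iterate_scale)

section padic

variable {p : ℕ} [hp : Fact p.Prime] {ι : Type} [Fintype ι] [DecidableEq ι]

/-- A residue class with an étale cycle is nice. -/
theorem nice_etale (F : ι → MvPolynomial ι ℤ_[p]) (Ω : Set (ι → ℤ_[p])) (x0 : ι → ℤ_[p])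
    (hper : ∃ k, 0 < k ∧ red ((pw fun _ => F)^[k] x0) = red x0)
    (hu : ∀ i, IsUnit (jac F ((pt F)^[i] x0)).det) : Nice (fun _ => F) Ω x0 := by
  obtain ⟨k, hk, hkr⟩ := hper
  obtain ⟨Φ, b, r, hΦ, hit⟩ := localise' F x0 k hkr
  obtain ⟨c, hc, hidem⟩ := exists_idem Φ fun i => ⟨b i, fun j => itA F x0 k i j, r i, hΦ i⟩
  have hall := idem_id Φ b _ (det_itA F x0 k fun i _ => hu i) r hΦ c (hidem c hc dvd_rfl)
  have hp0 : (p : ℤ_[p]) ≠ 0 := PadicInt.prime_p.ne_zero
  refine ⟨k * c, Nat.mul_pos hk hc, ?_, fun P => ?_⟩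
  · have h1 : (pw fun _ => F)^[k * c] x0 = fun i => x0 i + p * ((pt Φ)^[c] 0 i) := by
      have h2 := hit c 0
      simp only [Pi.zero_apply, mul_zero, add_zero] at h2
      exact h2
    rw [h1, red_add]
  · obtain ⟨P', hP'⟩ := hall P
    refine ⟨P', fun u v _ huv => ?_⟩
    have h1 : v = (pt Φ)^[c] u := by
      have h2 := (huv.symm.trans (hit c u))
      funext i
      have h3 := congrFun h2 i
      have h4 : (p : ℤ_[p]) * v i = p * (pt Φ)^[c] u i := add_left_cancel h3
      exact mul_left_cancel₀ hp0 h4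
    rw [h1, ← eval_bind_iter, hP', eval_add, eval_mul, eval_C]

end padic

/-- From the alternative in the classes to progressions and a sparse set. -/
theorem split_unif {p : ℕ} (a K M : ℕ) (b C : ℝ) (hK : 0 < K) (S : Set ℕ) (μ : ℕ)
    (hsp : ∀ R : Set ℕ, (∀ j, j < K → GapP p μ {n | a + j + K * n ∈ R}) → Sparse M b C R)
    (h : ∀ j, j < K → (∀ n, a + j + K * n ∈ S) ∨ GapP p μ {n | a + j + K * n ∈ S}) :
    ∃ (J : Finset ℕ) (R : Set ℕ), J ⊆ Finset.Ico a (a + K) ∧ Sparse M b C R ∧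
      S = {n | ∃ j ∈ J, ∃ m : ℕ, n = j + K * m} ∪ R := by
  classical
  set J := (Finset.range K).filter fun j => ∀ n, a + j + K * n ∈ S with hJ
  set R : Set ℕ := {n | n ∈ S ∧ (n < a ∨ (n - a) % K ∉ J)} with hR
  refine ⟨J.image fun j => a + j, R, ?_, hsp R fun j hj => ?_, ?_⟩
  · intro j hj
    obtain ⟨i, hi, rfl⟩ := Finset.mem_image.1 hj
    have := Finset.mem_range.1 (Finset.mem_filter.1 hi).1
    rw [Finset.mem_Ico]
    omega
  · by_cases hj' : j ∈ J
    · intro A hA hc
      have h1 : A = ∅ := by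
        rw [Finset.eq_empty_iff_forall_notMem]
        intro n hn
        obtain ⟨-, h2⟩ := hA n hn
        rcases h2 with h2 | h2
        · omega
        · apply h2
          have h3 : a + j + K * n - a = j + K * n := by omega
          rw [h3, Nat.add_mul_mod_self_left, Nat.mod_eq_of_lt hj]
          exact hj'
      rw [h1, Finset.card_empty] at hc
      omega
    · rcases h j hj with h1 | h1
      · exact absurd (Finset.mem_filter.2 ⟨Finset.mem_range.2 hj, h1⟩) hj'
      · intro A hA hc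
        exact h1 A (fun n hn => (hA n hn).1) hc
  · ext n
    simp only [hR, Set.mem_union, Set.mem_ofPred_eq, Finset.mem_image]
    constructor
    · intro hn
      by_cases h1 : n < a ∨ (n - a) % K ∉ J
      · exact Or.inr ⟨hn, h1⟩
      · push Not at h1
        refine Or.inl ⟨_, ⟨(n - a) % K, h1.2, rfl⟩, (n - a) / K, ?_⟩
        have := Nat.div_add_mod (n - a) K
        omega
    · rintro (⟨_, ⟨j, hj, rfl⟩, m, rfl⟩ | h1)
      · exact (Finset.mem_filter.1 hj).2 m
      · exact h1.1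

/-- **Uniform return sets of endomorphisms of projective space étale along the periodic part.** -/
theorem proj_etale_unif {N d : ℕ} (F : Fin (N + 1) → MvPolynomial (Fin (N + 1)) ℂ)
    (hF : ∀ i, (F i).IsHomogeneous d)
    (hF0 : ∀ x : Fin (N + 1) → ℂ, (∀ i, eval x (F i) = 0) → x = 0)
    (S : Set (MvPolynomial (Fin (N + 1)) ℂ)) (hS : ∀ g ∈ S, ∃ e : ℕ, g.IsHomogeneous e)
    (W : Set (MvPolynomial (Fin (N + 1)) ℂ))
    (hW1 : ∀ x : Fin (N + 1) → ℂ, x ≠ 0 → (∀ g ∈ W, eval x g = 0) →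
      ∀ g ∈ W, eval (pt F x) g = 0)
    (hW2 : ∀ x : Fin (N + 1) → ℂ, x ≠ 0 → (∀ g ∈ W, eval x g = 0) → (jac F x).det ≠ 0)
    (hW3 : ∀ x : Fin (N + 1) → ℂ, x ≠ 0 → ∀ k : ℕ, 0 < k →
      (∀ n, ∀ g ∈ S, eval ((pt F)^[k * n] x) g = 0) → ∀ g ∈ W, eval x g = 0) (s : Finset ℂ) :
    ∃ (a K M : ℕ) (b C : ℝ), 0 < K ∧ 1 < b ∧ 0 < C ∧ ∀ α : Fin (N + 1) → ℂ, α ≠ 0 →
      (∀ i, α i ∈ Subfield.closure (s : Set ℂ)) →
      ∃ (J : Finset ℕ) (R : Set ℕ), J ⊆ Finset.Ico a (a + K) ∧ Sparse M b C R ∧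
        {n | ∀ g ∈ S, eval ((pt F)^[n] α) g = 0} =
          {n | ∃ j ∈ J, ∃ m : ℕ, n = j + K * m} ∪ R := by
  classical
  obtain ⟨S', hS1, hS2⟩ := exists_finite_sub S
  obtain ⟨W', hW'1, hW'2⟩ := exists_finite_sub W
  -- certificates
  have hcert : ∀ i : Fin (N + 1), ∃ (e : ℕ) (A : MvPolynomial (Fin (N + 1)) ℂ)
      (D : MvPolynomial (Fin (N + 1)) ℂ → MvPolynomial (Fin (N + 1)) ℂ),
      (X i : MvPolynomial (Fin (N + 1)) ℂ) ^ e = A * jdet F + ∑ g ∈ W', D g * g := by
    intro i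
    obtain ⟨e, he⟩ := exists_power (insert (jdet F) (W' : Set (MvPolynomial (Fin (N + 1)) ℂ)))
      (X i) (by
      intro x hx
      rw [eval_X]
      by_cases h0 : x = 0
      · rw [h0]; rfl
      · exfalso
        refine hW2 x h0 (hW'2 x fun g hg => hx g (Set.mem_insert_of_mem _ hg)) ?_
        rw [← eval_jdet]
        exact hx _ (Set.mem_insert _ _))
    rw [Ideal.mem_span_insert] at he
    obtain ⟨A, z, hz, hA⟩ := he
    obtain ⟨D, hD⟩ := Submodule.mem_span_finset.1 hz
    exact ⟨e, A, D, by rw [hA, ← hD.2]; rfl⟩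
  choose e A D hAD using hcert
  set TT : Finset (MvPolynomial (Fin (N + 1)) ℂ) := S' ∪ W' ∪
    (Finset.univ.image fun i => A i) ∪
    (Finset.univ ×ˢ W').image (fun q => D q.1 q.2) with hTT
  obtain ⟨p, hp, hB, θ, Fp, hFp, hs, hT, hprim⟩ := exists_model F hF0 TT
    s 2
  have hTS : ∀ g ∈ S', ∃ h : MvPolynomial (Fin (N + 1)) ℤ_[p], map (tht θ) h = g :=
    fun g hg => hT g (by
      simp only [hTT, Finset.mem_union]
      exact Or.inl (Or.inl (Or.inl hg)))
  have hTW : ∀ g ∈ W', ∃ h : MvPolynomial (Fin (N + 1)) ℤ_[p], map (tht θ) h = g :=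
    fun g hg => hT g (by
      simp only [hTT, Finset.mem_union]
      exact Or.inl (Or.inl (Or.inr hg)))
  have hTA : ∀ i, ∃ h : MvPolynomial (Fin (N + 1)) ℤ_[p], map (tht θ) h = A i :=
    fun i => hT _ (by
      simp only [hTT, Finset.mem_union]
      exact Or.inl (Or.inr (Finset.mem_image_of_mem _ (Finset.mem_univ _))))
  have hTD : ∀ i, ∀ g ∈ W', ∃ h : MvPolynomial (Fin (N + 1)) ℤ_[p], map (tht θ) h = D i g :=
    fun i g hg => hT _ (by
      simp only [hTT, Finset.mem_union]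
      exact Or.inr (Finset.mem_image.2 ⟨(i, g), by simp [hg], rfl⟩))
  have hle : Subfield.closure (s : Set ℂ) ≤ θ.fieldRange := by
    rw [Subfield.closure_le]
    intro z hz
    obtain ⟨y, hy⟩ := hs z hz
    exact ⟨(y : ℚ_[p]), hy⟩
  have hne : ∀ β ∈ Prim p (Fin (N + 1)), (fun i => tht θ (β i)) ≠ 0 := by
    rintro β ⟨i, hi⟩ h0
    have h1 := congrFun h0 i
    have h2 : β i = 0 := tht_injective θ (by rw [map_zero]; exact h1)
    rw [h2] at hi
    exact not_isUnit_zero hi
  have hprimn : ∀ n, ∀ β ∈ Prim p (Fin (N + 1)), (pt Fp)^[n] β ∈ Prim p (Fin (N + 1)) := by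
    intro n
    induction n with
    | zero => exact fun x hx => hx
    | succ n ih =>
      intro x hx
      rw [Function.iterate_succ_apply']
      exact hprim _ (ih x hx)
  -- units
  have hunit : ∀ β ∈ Prim p (Fin (N + 1)), (∀ g ∈ W, eval (fun i => tht θ (β i)) g = 0) →
      IsUnit (jac Fp β).det := by
    rintro β ⟨i, hi⟩ hβW
    obtain ⟨Ap, hAp⟩ := hTA i
    choose! Dp hDp using hTD i
    choose! gp hgp using hTW
    have h1 : (X i : MvPolynomial (Fin (N + 1)) ℤ_[p]) ^ e i =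
        Ap * jdet Fp + ∑ g ∈ W', Dp g * gp g := by
      apply map_injective (tht θ) (tht_injective θ)
      rw [map_pow, map_X, hAD i, map_add, map_mul, hAp, map_jdet, map_sum]
      rw [show (fun i => map (tht θ) (Fp i)) = F from funext hFp]
      congr 1
      refine Finset.sum_congr rfl fun g hg => ?_
      rw [map_mul, hDp g hg, hgp g hg]
    have h2 := congrArg (eval β) h1
    rw [map_pow, eval_X, map_add, map_mul, eval_jdet, map_sum] at h2
    have h3 : ∑ g ∈ W', eval β (Dp g * gp g) = 0 := by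
      refine Finset.sum_eq_zero fun g hg => ?_
      have h4 : eval β (gp g) = 0 := by
        apply tht_injective θ
        rw [map_zero, ← eval_theta, hgp g hg]
        exact hβW g (hW'1 hg)
      rw [eval_mul, h4, mul_zero]
    rw [h3, add_zero] at h2
    exact isUnit_of_mul_isUnit_right (h2 ▸ hi.pow (e i))
  set H : Set (MvPolynomial (Fin (N + 1)) ℤ_[p]) := {h | map (tht θ) h ∈ S'} with hH
  obtain ⟨a, K, μ, hK, hμ, hall⟩ := glob_dml (by omega) (fun _ => Fp) (Prim p (Fin (N + 1)))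
    isClosed_prim hprim H (by
      rintro β hβ ⟨k, hk, hall⟩ x0 hx0 hred hper
      refine nice_etale Fp _ x0 hper fun i => ?_
      have hall : ∀ h ∈ H, ∀ n, eval ((pt Fp)^[k * n] β) h = 0 := hall
      have hβW : ∀ g ∈ W, eval (fun i => tht θ (β i)) g = 0 := by
        refine hW3 _ (hne β hβ) k hk fun n g hg => ?_
        refine hS2 _ (fun g' hg' => ?_) g hg
        obtain ⟨h, hh⟩ := hTS g' hg'
        rw [theta_iter θ F Fp hFp, ← hh, eval_theta, hall h (by
          rw [hH, Set.mem_ofPred_eq, hh]; exact hg') n, map_zero]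
      have hW' : ∀ i, ∀ g ∈ W, eval (fun j => tht θ ((pt Fp)^[i] β j)) g = 0 := by
        intro i
        induction i with
        | zero => exact hβW
        | succ i ih =>
          rw [← theta_iter θ F Fp hFp] at ih ⊢
          rw [Function.iterate_succ_apply']
          refine hW1 _ ?_ ih
          rw [theta_iter θ F Fp hFp]
          exact hne _ (hprimn i β hβ)
      refine isUnit_jac_congr Fp ?_ (hunit _ (hprimn i β hβ) (hW' i))
      exact red_iter_congr (fun _ => Fp) hred.symm i)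
  obtain ⟨b, C, hb, hC, hsp⟩ := sparse_of_gap p a K μ (by omega) hK hμ
  refine ⟨a, K, a + K * (2 * μ), b, C, hK, hb, hC, fun α hα hαs => ?_⟩
  obtain ⟨x, hx, hret⟩ := exists_transfer F hF θ Fp hFp S hS S' hS1 hS2 hTS α hα
    fun i => hle (hαs i)
  rw [hret]
  exact split_unif a K _ b C hK _ μ hsp fun j _ => hall x hx (a + j) (Nat.le_add_right _ _)

end Pool.Agent.Q170.GP
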